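import Pool.Agent.H.MP_4ac1fb_an.Defs

/-!
The Hilbert space behind `D_t(D^d)` and the closed ideal generated by a polynomial.
-/

namespace Pool.MP4ac1fb

open MvPolynomial

variable {d : ℕ}

/-- The unweighted sequence space. -/
noncomputable abbrev E (d : ℕ) := lp (fun _ : (Fin d →₀ ℕ) => ℂ) 2

/-- weight as a complex square root -/
noncomputable def sw (t : ℝ) (k : Fin d →₀ ℕ) : ℝ := Real.sqrt (wt t k)

lemma sw_pos (t : ℝ) (k : Fin d →₀ ℕ) : 0 < sw t k := Real.sqrt_pos.mpr (wt_pos t k)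

lemma sw_sq (t : ℝ) (k : Fin d →₀ ℕ) : sw t k ^ 2 = wt t k := Real.sq_sqrt (wt_pos t k).le

lemma norm_term (t : ℝ) (k : Fin d →₀ ℕ) (z : ℂ) :
    ‖((sw t k : ℝ) : ℂ) * z‖ ^ 2 = wt t k * ‖z‖ ^ 2 := by
  rw [norm_mul, mul_pow, Complex.norm_real, Real.norm_eq_abs, sq_abs, sw_sq]

lemma memlp_of (t : ℝ) (c : (Fin d →₀ ℕ) → ℂ) (h : InDir t c) :
    Memℓp (fun k => ((sw t k : ℝ) : ℂ) * c k) 2 := by
  apply memℓp_gen
  have : (fun k => ‖((sw t k : ℝ) : ℂ) * c k‖ ^ (ENNReal.toReal 2)) =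
      fun k => wt t k * ‖c k‖ ^ 2 := by
    funext k
    rw [← norm_term]
    norm_num
  rw [this]
  exact h

/-- The element of the sequence space attached to a coefficient family. -/
noncomputable def toE (t : ℝ) (c : (Fin d →₀ ℕ) → ℂ) (h : InDir t c) : E d :=
  ⟨fun k => ((sw t k : ℝ) : ℂ) * c k, memlp_of t c h⟩

lemma toE_apply (t : ℝ) (c : (Fin d →₀ ℕ) → ℂ) (h : InDir t c) (k : Fin d →₀ ℕ) :
    toE t c h k = ((sw t k : ℝ) : ℂ) * c k := rfl

lemma norm_sq_E (x : E d) : ‖x‖ ^ 2 = ∑' k, ‖x k‖ ^ 2 := by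
  have h := lp.norm_rpow_eq_tsum (p := 2) (by norm_num) x
  norm_num at h
  exact h

lemma summable_E (x : E d) : Summable fun k => ‖x k‖ ^ 2 := by
  have h := lp.memℓp x
  rw [memℓp_gen_iff (by norm_num)] at h
  norm_num at h
  exact h

lemma normSq_eq (t : ℝ) (c : (Fin d →₀ ℕ) → ℂ) (h : InDir t c) :
    ‖toE t c h‖ ^ 2 = normSq t c := by
  rw [norm_sq_E, normSq]
  exact tsum_congr fun k => norm_term t k (c k)

lemma inDir_poly (t : ℝ) (p : MvPolynomial (Fin d) ℂ) : InDir t (fun k => coeff k p) := by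
  apply summable_of_ne_finset_zero (s := p.support)
  intro k hk
  change wt t k * ‖coeff k p‖ ^ 2 = 0
  rw [MvPolynomial.notMem_support_iff.mp hk]
  simp

/-- The weighted embedding of the polynomials. -/
noncomputable def W (t : ℝ) : MvPolynomial (Fin d) ℂ →ₗ[ℂ] E d where
  toFun p := toE t (fun k => coeff k p) (inDir_poly t p)
  map_add' p q := by
    ext k
    change ((sw t k : ℝ) : ℂ) * coeff k (p + q) =
      ((sw t k : ℝ) : ℂ) * coeff k p + ((sw t k : ℝ) : ℂ) * coeff k q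
    rw [coeff_add, mul_add]
  map_smul' a p := by
    ext k
    change ((sw t k : ℝ) : ℂ) * coeff k (a • p) = a * (((sw t k : ℝ) : ℂ) * coeff k p)
    rw [coeff_smul, smul_eq_mul]; ring

lemma W_apply (t : ℝ) (p : MvPolynomial (Fin d) ℂ) (k : Fin d →₀ ℕ) :
    W t p k = ((sw t k : ℝ) : ℂ) * coeff k p := rfl

lemma norm_W_sq (t : ℝ) (p : MvPolynomial (Fin d) ℂ) :
    ‖W t p‖ ^ 2 = ∑ k ∈ p.support, wt t k * ‖coeff k p‖ ^ 2 := by
  change ‖toE t (fun k => coeff k p) (inDir_poly t p)‖ ^ 2 = _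
  rw [normSq_eq, normSq]
  apply tsum_eq_sum
  intro k hk
  rw [MvPolynomial.notMem_support_iff.mp hk]
  simp

lemma norm_W_sq' (t : ℝ) (p : MvPolynomial (Fin d) ℂ) (s : Finset (Fin d →₀ ℕ))
    (hs : p.support ⊆ s) :
    ‖W t p‖ ^ 2 = ∑ k ∈ s, wt t k * ‖coeff k p‖ ^ 2 := by
  rw [norm_W_sq]
  apply Finset.sum_subset hs
  intro k _ hk
  rw [MvPolynomial.notMem_support_iff.mp hk]
  simp

lemma norm_W_monomial (t : ℝ) (a : Fin d →₀ ℕ) (z : ℂ) :
    ‖W t (monomial a z)‖ ^ 2 = wt t a * ‖z‖ ^ 2 := by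
  rw [norm_W_sq' t _ {a} (by
    intro k hk
    have := MvPolynomial.support_monomial_subset hk
    simpa using this)]
  simp

/-- comparison of weights under a shift -/
lemma wt_add_le (t : ℝ) (a k : Fin d →₀ ℕ) :
    wt t (a + k) ≤ (∏ j, ((a j : ℝ) + 1) ^ (max t 0)) * wt t k := by
  unfold wt
  rw [← Finset.prod_mul_distrib]
  apply Finset.prod_le_prod
  · intro j _; positivity
  · intro j _
    have h1 : ((a + k) j : ℝ) + 1 ≤ ((a j : ℝ) + 1) * ((k j : ℝ) + 1) := by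
      simp only [Finsupp.add_apply, Nat.cast_add]
      have h2 : (0 : ℝ) ≤ (a j : ℝ) * (k j : ℝ) := by positivity
      nlinarith
    rcases le_total 0 t with ht | ht
    · rw [max_eq_left ht, ← Real.mul_rpow (by positivity) (by positivity)]
      exact Real.rpow_le_rpow (by positivity) h1 ht
    · rw [max_eq_right ht, Real.rpow_zero, one_mul]
      apply Real.rpow_le_rpow_of_nonpos (by positivity) _ ht
      simp only [Finsupp.add_apply, Nat.cast_add]
      have : (0 : ℝ) ≤ (a j : ℝ) := by positivity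
      linarith

/-- multiplication by a monomial is bounded -/
lemma norm_W_monomial_mul (t : ℝ) (a : Fin d →₀ ℕ) (z : ℂ) (p : MvPolynomial (Fin d) ℂ) :
    ‖W t (monomial a z * p)‖ ^ 2 ≤
      (∏ j, ((a j : ℝ) + 1) ^ (max t 0)) * ‖z‖ ^ 2 * ‖W t p‖ ^ 2 := by
  classical
  have hs : (monomial a z * p).support ⊆ p.support.image (fun k => a + k) := by
    intro k hk
    have := MvPolynomial.support_mul _ _ hk
    obtain ⟨b, hb, c, hc, rfl⟩ := Finset.mem_add.mp this
    have hb' := MvPolynomial.support_monomial_subset hb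
    rw [Finset.mem_singleton] at hb'
    subst hb'
    exact Finset.mem_image_of_mem _ hc
  rw [norm_W_sq' t _ _ hs, Finset.sum_image (by intro x _ y _ h; exact add_left_cancel h),
    norm_W_sq, Finset.mul_sum]
  apply Finset.sum_le_sum
  intro k _
  rw [coeff_monomial_mul, norm_mul, mul_pow]
  have := wt_add_le t a k
  have h0 : 0 ≤ ‖z‖ ^ 2 * ‖coeff k p‖ ^ 2 := by positivity
  nlinarith [mul_le_mul_of_nonneg_right this h0]

/-- multiplication by a polynomial is bounded -/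
lemma norm_W_mul (t : ℝ) (g : MvPolynomial (Fin d) ℂ) :
    ∃ C : ℝ, 0 ≤ C ∧ ∀ p, ‖W t (g * p)‖ ≤ C * ‖W t p‖ := by
  classical
  refine ⟨∑ a ∈ g.support, Real.sqrt ((∏ j, ((a j : ℝ) + 1) ^ (max t 0)) * ‖coeff a g‖ ^ 2),
    Finset.sum_nonneg fun _ _ => Real.sqrt_nonneg _, fun p => ?_⟩
  have h1 : g * p = ∑ a ∈ g.support, monomial a (coeff a g) * p := by
    rw [← Finset.sum_mul]
    congr 1
    exact MvPolynomial.as_sum g
  rw [h1, map_sum, Finset.sum_mul]
  refine (norm_sum_le _ _).trans (Finset.sum_le_sum fun a _ => ?_)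
  have h2 := norm_W_monomial_mul t a (coeff a g) p
  rw [← Real.sqrt_sq (norm_nonneg (W t (monomial a (coeff a g) * p)))]
  refine (Real.sqrt_le_sqrt h2).trans ?_
  rw [Real.sqrt_mul' _ (sq_nonneg _), Real.sqrt_sq (norm_nonneg _)]

/-- The polynomials in the closed invariant subspace generated by `P`. -/
noncomputable def cl (t : ℝ) (P : MvPolynomial (Fin d) ℂ) : Ideal (MvPolynomial (Fin d) ℂ) where
  carrier := {f | ∀ ε > 0, ∃ Q : MvPolynomial (Fin d) ℂ, ‖W t (f - Q * P)‖ < ε}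
  zero_mem' := by
    intro ε hε
    exact ⟨0, by simpa using hε⟩
  add_mem' := by
    intro f g hf hg ε hε
    obtain ⟨Q1, h1⟩ := hf (ε / 2) (by positivity)
    obtain ⟨Q2, h2⟩ := hg (ε / 2) (by positivity)
    refine ⟨Q1 + Q2, ?_⟩
    have : f + g - (Q1 + Q2) * P = (f - Q1 * P) + (g - Q2 * P) := by ring
    rw [this, map_add]
    calc ‖W t (f - Q1 * P) + W t (g - Q2 * P)‖
        ≤ ‖W t (f - Q1 * P)‖ + ‖W t (g - Q2 * P)‖ := norm_add_le _ _
      _ < ε := by linarith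
  smul_mem' := by
    intro g f hf ε hε
    obtain ⟨C, hC, hCb⟩ := norm_W_mul t g
    obtain ⟨Q, hQ⟩ := hf (ε / (C + 1)) (by positivity)
    refine ⟨g * Q, ?_⟩
    have : g • f - g * Q * P = g * (f - Q * P) := by rw [smul_eq_mul]; ring
    rw [this]
    calc ‖W t (g * (f - Q * P))‖ ≤ C * ‖W t (f - Q * P)‖ := hCb _
      _ ≤ (C + 1) * ‖W t (f - Q * P)‖ := by
          apply mul_le_mul_of_nonneg_right _ (norm_nonneg _); linarith
      _ < (C + 1) * (ε / (C + 1)) := by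
          apply mul_lt_mul_of_pos_left hQ; linarith
      _ = ε := by field_simp

lemma mem_cl {t : ℝ} {P f : MvPolynomial (Fin d) ℂ} :
    f ∈ cl t P ↔ ∀ ε > 0, ∃ Q : MvPolynomial (Fin d) ℂ, ‖W t (f - Q * P)‖ < ε := Iff.rfl

lemma self_mem_cl (t : ℝ) (P : MvPolynomial (Fin d) ℂ) : P ∈ cl t P := by
  intro ε hε
  exact ⟨1, by simpa using hε⟩

/-- limits stay in the closed ideal -/
lemma mem_cl_of_approx {t : ℝ} {P f : MvPolynomial (Fin d) ℂ}
    (h : ∀ ε > 0, ∃ g ∈ cl t P, ‖W t (f - g)‖ < ε) : f ∈ cl t P := by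
  intro ε hε
  obtain ⟨g, hg, hfg⟩ := h (ε / 2) (by positivity)
  obtain ⟨Q, hQ⟩ := hg (ε / 2) (by positivity)
  refine ⟨Q, ?_⟩
  have : f - Q * P = (f - g) + (g - Q * P) := by ring
  rw [this, map_add]
  calc ‖W t (f - g) + W t (g - Q * P)‖
      ≤ ‖W t (f - g)‖ + ‖W t (g - Q * P)‖ := norm_add_le _ _
    _ < ε := by linarith

/-- the polynomials are dense -/
lemma exists_poly_approx (t : ℝ) (c : (Fin d →₀ ℕ) → ℂ) (hc : InDir t c) (ε : ℝ) (hε : 0 < ε) :
    ∃ g : MvPolynomial (Fin d) ℂ, ‖toE t c hc - W t g‖ < ε := by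
  classical
  have hs : Summable fun k => ‖toE t c hc k‖ ^ 2 := summable_E _
  obtain ⟨s, hs'⟩ := ((tendsto_tsum_compl_atTop_zero
    (fun k => ‖toE t c hc k‖ ^ 2)).eventually (gt_mem_nhds (show (0 : ℝ) < ε ^ 2 by positivity))).exists
  refine ⟨∑ k ∈ s, monomial k (c k), ?_⟩
  have hcoef : ∀ k, coeff k (∑ k ∈ s, monomial k (c k)) = if k ∈ s then c k else 0 := by
    intro k
    rw [coeff_sum]
    simp only [coeff_monomial]
    rw [Finset.sum_ite_eq' s k]
  have h1 : ‖toE t c hc - W t (∑ k ∈ s, monomial k (c k))‖ ^ 2 < ε ^ 2 := by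
    rw [norm_sq_E]
    have h2 : ∀ k, ‖(toE t c hc - W t (∑ k ∈ s, monomial k (c k))) k‖ ^ 2 =
        Set.indicator {k | k ∉ s} (fun k => ‖toE t c hc k‖ ^ 2) k := by
      intro k
      rw [lp.coeFn_sub, Pi.sub_apply, W_apply, toE_apply, hcoef]
      by_cases hk : k ∈ s
      · simp [hk]
      · simp [hk, toE_apply]
    rw [tsum_congr h2, ← tsum_subtype]
    exact hs'
  exact lt_of_pow_lt_pow_left₀ 2 hε.le h1

lemma shiftCyclic_iff (t : ℝ) (P : MvPolynomial (Fin d) ℂ) :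
    ShiftCyclic t P ↔ (1 : MvPolynomial (Fin d) ℂ) ∈ cl t P := by
  constructor
  · intro h ε hε
    obtain ⟨Q, hQ⟩ := h (fun k => coeff k (1 : MvPolynomial (Fin d) ℂ)) (inDir_poly t 1) (ε ^ 2)
      (by positivity)
    refine ⟨Q, ?_⟩
    have h1 : ‖W t (1 - Q * P)‖ ^ 2 < ε ^ 2 := by
      change ‖toE t (fun k => coeff k (1 - Q * P)) (inDir_poly t _)‖ ^ 2 < _
      rw [normSq_eq]
      simpa only [coeff_sub] using hQ
    exact lt_of_pow_lt_pow_left₀ 2 hε.le h1
  · intro h c hc ε hε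
    obtain ⟨g, hg⟩ := exists_poly_approx t c hc (Real.sqrt ε / 2)
      (by have := Real.sqrt_pos.mpr hε; positivity)
    have hgm : g ∈ cl t P := by
      have := (cl t P).mul_mem_left g h
      rwa [mul_one] at this
    obtain ⟨Q, hQ⟩ := hgm (Real.sqrt ε / 2) (by have := Real.sqrt_pos.mpr hε; positivity)
    refine ⟨Q, ?_⟩
    have hin : InDir t (fun k => c k - coeff k (Q * P)) := by
      have hx := summable_E (toE t c hc - W t (Q * P))
      have : (fun k => ‖(toE t c hc - W t (Q * P)) k‖ ^ 2) =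
          fun k => wt t k * ‖c k - coeff k (Q * P)‖ ^ 2 := by
        funext k
        rw [lp.coeFn_sub, Pi.sub_apply, W_apply, toE_apply, ← mul_sub, norm_term]
      rw [this] at hx
      exact hx
    have heq : toE t (fun k => c k - coeff k (Q * P)) hin = (toE t c hc - W t g) +
        W t (g - Q * P) := by
      rw [map_sub]
      ext k
      simp only [lp.coeFn_add, lp.coeFn_sub, Pi.add_apply, Pi.sub_apply, W_apply, toE_apply]
      ring
    rw [← normSq_eq t _ hin, heq]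
    have h3 : ‖(toE t c hc - W t g) + W t (g - Q * P)‖ < Real.sqrt ε := by
      calc _ ≤ ‖toE t c hc - W t g‖ + ‖W t (g - Q * P)‖ := norm_add_le _ _
        _ < Real.sqrt ε := by linarith
    calc _ < Real.sqrt ε ^ 2 := by
          apply pow_lt_pow_left₀ h3 (norm_nonneg _) two_ne_zero
      _ = ε := Real.sq_sqrt hε.le

end Pool.MP4ac1fb
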