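import Pool.Agent.H.MP_4ac1fb_an.Threshold

/-!
Convergence of the lattice sum when every positive support has small rank.
-/

namespace Pool.MP4ac1fb

open MvPolynomial

variable {d : ℕ}

/-- product summability over a finite index type -/
lemma summable_pi {ι : Type*} [Fintype ι] [DecidableEq ι] (g : ℕ → ℝ) (hg : ∀ n, 0 ≤ g n)
    (hs : Summable g) : Summable fun n : ι → ℕ => ∏ i, g (n i) := by
  apply summable_of_sum_le (c := ∏ _i : ι, ∑' n, g n)
  · intro n; exact Finset.prod_nonneg fun i _ => hg _
  · intro s
    set M : ℕ := (∑ n ∈ s, ∑ i, n i) + 1 with hM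
    have hsub : s ⊆ Fintype.piFinset fun _ : ι => Finset.range M := by
      intro n hn
      rw [Fintype.mem_piFinset]
      intro i
      rw [Finset.mem_range]
      have h1 : n i ≤ ∑ i, n i := Finset.single_le_sum (f := fun i => n i)
        (fun _ _ => Nat.zero_le _) (Finset.mem_univ i)
      have h2 : ∑ i, n i ≤ ∑ n ∈ s, ∑ i, n i := Finset.single_le_sum
        (f := fun n : ι → ℕ => ∑ i, n i) (fun _ _ => Nat.zero_le _) hn
      omega
    calc ∑ n ∈ s, ∏ i, g (n i) ≤ ∑ n ∈ Fintype.piFinset fun _ : ι => Finset.range M, ∏ i, g (n i) :=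
          Finset.sum_le_sum_of_subset_of_nonneg hsub
            fun n _ _ => Finset.prod_nonneg fun i _ => hg _
      _ = ∏ _i : ι, ∑ m ∈ Finset.range M, g m :=
          (Finset.prod_univ_sum (fun _ => Finset.range M) (fun _ m => g m)).symm
      _ ≤ ∏ _i : ι, ∑' n, g n := by
          apply Finset.prod_le_prod
          · intro i _; exact Finset.sum_nonneg fun m _ => hg m
          · intro i _; exact hs.sum_le_tsum _ (fun m _ => hg m)

/-- the layer-cake inequality -/
lemma layer {I : Type*} [Fintype I] [DecidableEq I] (supp : I → Finset (Fin d)) (t D : ℝ)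
    (ht : 0 ≤ t)
    (hrank : ∀ A : Finset I, A.Nonempty → D * A.card ≤ t * (A.biUnion supp).card) :
    ∀ (m : ℕ) (x : I → ℝ) (y : Fin d → ℝ), (∀ i, 0 ≤ x i) → (∀ j, 0 ≤ y j) →
      (∀ i, ∀ j ∈ supp i, x i ≤ y j) → (Finset.univ.filter fun i => x i ≠ 0).card = m →
      D * ∑ i, x i ≤ t * ∑ j, y j := by
  intro m
  induction m using Nat.strong_induction_on with
  | _ m ih =>
    intro x y hx hy hxy hm
    set A := Finset.univ.filter fun i => x i ≠ 0 with hA
    rcases A.eq_empty_or_nonempty with hAe | hAn
    · have : ∀ i, x i = 0 := by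
        intro i
        by_contra h
        have : i ∈ A := Finset.mem_filter.mpr ⟨Finset.mem_univ i, h⟩
        rw [hAe] at this
        exact absurd this (Finset.notMem_empty i)
      simp only [this, Finset.sum_const_zero, mul_zero]
      exact mul_nonneg ht (Finset.sum_nonneg fun j _ => hy j)
    · obtain ⟨i0, hi0, hmin⟩ := A.exists_min_image x hAn
      set s := x i0 with hs
      have hspos : 0 < s := lt_of_le_of_ne (hx i0) (Ne.symm (Finset.mem_filter.mp hi0).2)
      set JA := A.biUnion supp with hJA
      set x' : I → ℝ := fun i => x i - if i ∈ A then s else 0 with hx'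
      set y' : Fin d → ℝ := fun j => y j - if j ∈ JA then s else 0 with hy'
      have hx'n : ∀ i, 0 ≤ x' i := by
        intro i
        simp only [hx']
        split_ifs with h
        · have := hmin i h; linarith
        · simpa using hx i
      have hy'n : ∀ j, 0 ≤ y' j := by
        intro j
        simp only [hy']
        split_ifs with h
        · obtain ⟨i, hi, hij⟩ := Finset.mem_biUnion.mp h
          have h1 := hmin i hi
          have h2 := hxy i j hij
          linarith
        · simpa using hy j
      have hxy' : ∀ i, ∀ j ∈ supp i, x' i ≤ y' j := by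
        intro i j hij
        simp only [hx', hy']
        by_cases hi : i ∈ A
        · have hj : j ∈ JA := Finset.mem_biUnion.mpr ⟨i, hi, hij⟩
          rw [if_pos hi, if_pos hj]
          have := hxy i j hij
          linarith
        · rw [if_neg hi]
          have : x i = 0 := by
            by_contra h
            exact hi (Finset.mem_filter.mpr ⟨Finset.mem_univ i, h⟩)
          rw [this, sub_zero]
          exact hy'n j
      have hcard : (Finset.univ.filter fun i => x' i ≠ 0).card < m := by
        rw [← hm]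
        apply Finset.card_lt_card
        refine ⟨?_, ?_⟩
        · intro i hi
          rw [Finset.mem_filter] at hi
          by_contra h
          apply hi.2
          simp only [hx', if_neg h, sub_zero]
          by_contra h2
          exact h (Finset.mem_filter.mpr ⟨Finset.mem_univ i, h2⟩)
        · intro h
          have h1 := h hi0
          rw [Finset.mem_filter] at h1
          apply h1.2
          simp only [hx', if_pos hi0]
          rw [← hs, sub_self]
      have hrec := ih _ hcard x' y' hx'n hy'n hxy' rfl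
      have hsx : ∑ i, x i = ∑ i, x' i + s * A.card := by
        simp only [hx', Finset.sum_sub_distrib]
        rw [Finset.sum_ite_mem, Finset.univ_inter, Finset.sum_const, nsmul_eq_mul]
        ring
      have hsy : ∑ j, y j = ∑ j, y' j + s * JA.card := by
        simp only [hy', Finset.sum_sub_distrib]
        rw [Finset.sum_ite_mem, Finset.univ_inter, Finset.sum_const, nsmul_eq_mul]
        ring
      have h1 := hrank A hAn
      rw [hsx, hsy]
      have h2 := mul_le_mul_of_nonneg_left h1 hspos.le
      nlinarith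

/-- summability over an independent family -/
lemma summable_indep (Λ : Submodule ℤ (Fin d → ℤ)) (t : ℝ) (ht : 0 < t)
    (hr : ∀ J, PosSupp Λ J → (rk Λ J : ℝ) < t * J.card)
    (I : Finset (Fin d →₀ ℕ)) (hI : ∀ b ∈ I, toZ b ∈ Λ ∧ b ≠ 0)
    (hli : LinearIndependent ℤ (fun b : I => toZ b.1)) :
    Summable fun n : I → ℕ => (wt t (∑ b : I, n b • b.1))⁻¹ := by
  classical
  -- rank inequality for subsets
  have hcard : ∀ A : Finset I, A.Nonempty →
      (A.card : ℝ) < t * (A.biUnion fun b => b.1.support).card := by
    intro A hA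
    set J := A.biUnion fun b => b.1.support with hJ
    have hpos : PosSupp Λ J := by
      obtain ⟨b, hb⟩ := hA
      refine ⟨?_, ∑ b ∈ A, b.1, ?_, ?_⟩
      · have hb0 := (hI b.1 b.2).2
        obtain ⟨j, hj⟩ := Finsupp.support_nonempty_iff.mpr hb0
        exact ⟨j, Finset.mem_biUnion.mpr ⟨b, hb, hj⟩⟩
      · rw [toZ_sum]
        exact Submodule.sum_mem _ fun b _ => (hI b.1 b.2).1
      · ext j
        rw [Finsupp.mem_support_iff, Finsupp.finsetSum_apply, hJ, Finset.mem_biUnion]
        constructor
        · intro h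
          by_contra hcon
          push Not at hcon
          apply h
          apply Finset.sum_eq_zero
          intro c hc
          exact Finsupp.notMem_support_iff.mp (hcon c hc)
        · rintro ⟨c, hc, hcj⟩ h
          have := (Finset.sum_eq_zero_iff.mp h) c hc
          exact (Finsupp.mem_support_iff.mp hcj) this
    refine lt_of_le_of_lt ?_ (hr J hpos)
    have hmem : ∀ b : A, toZ b.1.1 ∈ (Λ ⊓ coordSub J : Submodule ℤ (Fin d → ℤ)) := by
      intro b
      refine Submodule.mem_inf.mpr ⟨(hI b.1.1 b.1.2).1, ?_⟩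
      intro j hj
      have : j ∉ b.1.1.support := fun h => hj (Finset.mem_biUnion.mpr ⟨b.1, b.2, h⟩)
      change ((b.1.1 j : ℕ) : ℤ) = 0
      rw [Finsupp.notMem_support_iff.mp this]; rfl
    have hli2 : LinearIndependent ℤ
        (fun b : A => (⟨toZ b.1.1, hmem b⟩ : (Λ ⊓ coordSub J : Submodule ℤ (Fin d → ℤ)))) := by
      apply LinearIndependent.of_comp (Submodule.subtype _)
      exact hli.comp (fun b : A => b.1) Subtype.val_injective
    have := hli2.fintype_card_le_finrank
    rw [Fintype.card_coe] at this
    exact_mod_cast this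
  -- a uniform gap
  obtain ⟨D, hD1, hD⟩ : ∃ D : ℝ, 1 < D ∧ ∀ A : Finset I, A.Nonempty →
      D * A.card ≤ t * (A.biUnion fun b => b.1.support).card := by
    by_cases hne : (Finset.univ.filter fun A : Finset I => A.Nonempty).Nonempty
    · obtain ⟨A0, hA0, hmin⟩ := Finset.exists_min_image
        (Finset.univ.filter fun A : Finset I => A.Nonempty)
        (fun A => t * (A.biUnion fun b => b.1.support).card / A.card) hne
      have hA0n := (Finset.mem_filter.mp hA0).2
      refine ⟨t * (A0.biUnion fun b => b.1.support).card / A0.card, ?_, ?_⟩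
      · rw [one_lt_div (by exact_mod_cast hA0n.card_pos)]
        exact hcard A0 hA0n
      · intro A hA
        have h1 := hmin A (Finset.mem_filter.mpr ⟨Finset.mem_univ A, hA⟩)
        have h2 : (0 : ℝ) < A.card := by exact_mod_cast hA.card_pos
        rwa [le_div_iff₀ h2] at h1
    · refine ⟨2, by norm_num, fun A hA => absurd ?_ hne⟩
      exact ⟨A, Finset.mem_filter.mpr ⟨Finset.mem_univ A, hA⟩⟩
  -- comparison
  have hcomp : ∀ n : I → ℕ, ∏ b, ((n b : ℝ) + 1) ^ D ≤ wt t (∑ b : I, n b • b.1) := by
    intro n
    set y : Fin d → ℝ := fun j => Real.log (((∑ b : I, n b • b.1 : Fin d →₀ ℕ) j : ℝ) + 1) with hy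
    set x : I → ℝ := fun b => Real.log ((n b : ℝ) + 1) with hx
    have hlay := layer (fun b : I => b.1.support) t D ht.le hD _ x y
      (fun b => Real.log_nonneg (by have : (0 : ℝ) ≤ n b := by positivity
                                    linarith))
      (fun j => Real.log_nonneg (by
        have : (0 : ℝ) ≤ ((∑ b : I, n b • b.1 : Fin d →₀ ℕ) j : ℝ) := by positivity
        linarith))
      (by
        intro b j hj
        apply Real.log_le_log (by positivity)
        have h1 : n b ≤ (∑ b : I, n b • b.1 : Fin d →₀ ℕ) j := by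
          rw [Finsupp.finsetSum_apply]
          have h2 : (n b • b.1) j ≤ ∑ c : I, (n c • c.1) j :=
            Finset.single_le_sum (f := fun c : I => (n c • c.1) j) (fun _ _ => Nat.zero_le _)
              (Finset.mem_univ b)
          refine le_trans ?_ h2
          rw [Finsupp.smul_apply, smul_eq_mul]
          have h3 : 1 ≤ b.1 j := Nat.one_le_iff_ne_zero.mpr (Finsupp.mem_support_iff.mp hj)
          nlinarith
        have h4 : (n b : ℝ) ≤ ((∑ b : I, n b • b.1 : Fin d →₀ ℕ) j : ℝ) := by exact_mod_cast h1
        linarith) rfl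
    have hl : ∏ b, ((n b : ℝ) + 1) ^ D = Real.exp (D * ∑ b, x b) := by
      rw [Finset.mul_sum, Real.exp_sum]
      apply Finset.prod_congr rfl
      intro b _
      rw [Real.rpow_def_of_pos (by positivity), mul_comm]
    have hw : wt t (∑ b : I, n b • b.1) = Real.exp (t * ∑ j, y j) := by
      rw [Finset.mul_sum, Real.exp_sum, wt]
      apply Finset.prod_congr rfl
      intro j _
      rw [Real.rpow_def_of_pos (by positivity), mul_comm]
    rw [hl, hw]
    exact Real.exp_le_exp.mpr hlay
  have hg : Summable fun n : ℕ => (((n : ℝ) + 1) ^ D)⁻¹ := by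
    have := (Real.summable_nat_rpow_inv.mpr hD1)
    have h2 := (summable_nat_add_iff 1).mpr this
    simpa using h2
  have hpi := summable_pi (ι := I) (fun n : ℕ => (((n : ℝ) + 1) ^ D)⁻¹)
    (fun n => by positivity) hg
  refine Summable.of_nonneg_of_le (fun n => inv_nonneg.mpr (wt_pos t _).le) (fun n => ?_) hpi
  rw [Finset.prod_inv_distrib]
  exact inv_anti₀ (Finset.prod_pos fun b _ => by positivity) (hcomp n)

/-- reduction to an independent set of large coefficients -/
lemma exists_indep_repr (B : Finset (Fin d →₀ ℕ)) :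
    ∃ A : ℕ, ∀ n : (Fin d →₀ ℕ) → ℕ, ∃ n' : (Fin d →₀ ℕ) → ℕ,
      ∑ b ∈ B, n' b • b = ∑ b ∈ B, n b • b ∧
      LinearIndependent ℤ (fun b : (B.filter fun b => A < n' b : Finset (Fin d →₀ ℕ)) =>
        toZ b.1) := by
  classical
  -- relations
  have hrel : ∀ S : Finset (Fin d →₀ ℕ), ∃ g : (Fin d →₀ ℕ) → ℤ,
      ¬ LinearIndependent ℤ (fun b : S => toZ b.1) →
      (∀ b, b ∉ S → g b = 0) ∧ (∑ b ∈ S, g b • toZ b = 0) ∧ ∃ b ∈ S, 0 < g b := by
    intro S
    by_cases h : LinearIndependent ℤ (fun b : S => toZ b.1)
    · exact ⟨0, fun hn => absurd h hn⟩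
    · obtain ⟨g, hg, b0, hb0⟩ := Fintype.not_linearIndependent_iff.mp h
      -- extend by zero and fix the sign
      have key : ∀ g : S → ℤ, ∑ i, g i • toZ i.1 = 0 → (∃ i, 0 < g i) →
          ∃ g' : (Fin d →₀ ℕ) → ℤ, (∀ b, b ∉ S → g' b = 0) ∧ (∑ b ∈ S, g' b • toZ b = 0) ∧
            ∃ b ∈ S, 0 < g' b := by
        intro g hg ⟨i, hi⟩
        refine ⟨fun b => if hb : b ∈ S then g ⟨b, hb⟩ else 0, ?_, ?_, i.1, i.2, ?_⟩
        · intro b hb; simp [hb]
        · rw [← hg, ← Finset.sum_attach S]
          apply Finset.sum_congr rfl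
          intro b _
          simp
        · simpa using hi
      rcases lt_or_gt_of_ne hb0 with hneg | hpos
      · obtain ⟨g', h1, h2, h3⟩ := key (fun i => - g i)
          (by simp only [neg_smul, Finset.sum_neg_distrib, hg, neg_zero]) ⟨b0, by simpa using hneg⟩
        exact ⟨g', fun _ => ⟨h1, h2, h3⟩⟩
      · obtain ⟨g', h1, h2, h3⟩ := key g hg ⟨b0, hpos⟩
        exact ⟨g', fun _ => ⟨h1, h2, h3⟩⟩
  choose G hG using hrel
  set A : ℕ := ∑ S ∈ B.powerset, ∑ b ∈ S, (|G S b|).toNat with hA
  have hGA : ∀ S ∈ B.powerset, ∀ b ∈ S, |G S b| ≤ A := by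
    intro S hS b hb
    have h1 : (|G S b|).toNat ≤ ∑ b ∈ S, (|G S b|).toNat :=
      Finset.single_le_sum (f := fun b => (|G S b|).toNat) (fun _ _ => Nat.zero_le _) hb
    have h2 : ∑ b ∈ S, (|G S b|).toNat ≤ A :=
      Finset.single_le_sum (f := fun S => ∑ b ∈ S, (|G S b|).toNat) (fun _ _ => Nat.zero_le _) hS
    have h3 : ((|G S b|).toNat : ℤ) = |G S b| := Int.toNat_of_nonneg (abs_nonneg _)
    rw [← h3]
    exact_mod_cast h1.trans h2
  refine ⟨A, ?_⟩
  -- induction on the number of large coefficients
  have main : ∀ m : ℕ, ∀ n : (Fin d →₀ ℕ) → ℕ, (B.filter fun b => A < n b).card = m →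
      ∃ n' : (Fin d →₀ ℕ) → ℕ, ∑ b ∈ B, n' b • b = ∑ b ∈ B, n b • b ∧
      LinearIndependent ℤ (fun b : (B.filter fun b => A < n' b : Finset (Fin d →₀ ℕ)) =>
        toZ b.1) := by
    intro m
    induction m using Nat.strong_induction_on with
    | _ m ih =>
      intro n hn
      set S := B.filter fun b => A < n b with hS
      by_cases hli : LinearIndependent ℤ (fun b : S => toZ b.1)
      · exact ⟨n, rfl, hli⟩
      · obtain ⟨hg0, hgsum, b0, hb0, hb0pos⟩ := hG S hli
        set g := G S with hg
        have hSB : S ∈ B.powerset := Finset.mem_powerset.mpr (Finset.filter_subset _ _)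
        have hex : ∃ k : ℕ, ∃ b ∈ S, (n b : ℤ) - k * g b ≤ A := by
          refine ⟨n b0, b0, hb0, ?_⟩
          have h1 : (n b0 : ℤ) * 1 ≤ (n b0 : ℤ) * g b0 :=
            mul_le_mul_of_nonneg_left (by omega) (by positivity)
          have h2 : (0 : ℤ) ≤ A := by positivity
          linarith
        set k := Nat.find hex with hk
        obtain ⟨b1, hb1, hb1A⟩ := Nat.find_spec hex
        rw [← hk] at hb1A
        have hkpos : k ≠ 0 := by
          intro h
          rw [h] at hb1A
          have := (Finset.mem_filter.mp hb1).2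
          push_cast at hb1A
          have h2 : (A : ℤ) < n b1 := by exact_mod_cast this
          linarith
        have hprev : ∀ b ∈ S, (A : ℤ) < (n b : ℤ) - (k - 1 : ℕ) * g b := by
          intro b hb
          by_contra h
          push Not at h
          have := Nat.find_min' hex ⟨b, hb, h⟩
          omega
        have hnn : ∀ b, 0 ≤ (n b : ℤ) - k * g b := by
          intro b
          by_cases hb : b ∈ S
          · have h1 := hprev b hb
            have h2 := hGA S hSB b hb
            rw [abs_le] at h2
            have h3 : ((k - 1 : ℕ) : ℤ) = k - 1 := by omega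
            rw [h3] at h1
            have h4 : (n b : ℤ) - k * g b = ((n b : ℤ) - (k - 1) * g b) - g b := by ring
            rw [h4]
            linarith [h2.2]
          · rw [hg0 b hb]; simp
        set n1 : (Fin d →₀ ℕ) → ℕ := fun b => ((n b : ℤ) - k * g b).toNat with hn1
        have hn1c : ∀ b, (n1 b : ℤ) = (n b : ℤ) - k * g b := fun b => Int.toNat_of_nonneg (hnn b)
        have hsum1 : ∑ b ∈ B, n1 b • b = ∑ b ∈ B, n b • b := by
          apply toZ_injective
          rw [toZ_sum, toZ_sum]
          have h1 : ∀ b ∈ B, toZ (n1 b • b) = toZ (n b • b) - (k : ℤ) • (g b • toZ b) := by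
            intro b _
            funext j
            have h2 := hn1c b
            change ((n1 b * b j : ℕ) : ℤ) = ((n b * b j : ℕ) : ℤ) - (k : ℤ) * (g b * (b j : ℤ))
            push_cast
            rw [h2]
            ring
          rw [Finset.sum_congr rfl h1, Finset.sum_sub_distrib, ← Finset.smul_sum]
          have h3 : ∑ b ∈ B, g b • toZ b = 0 := by
            rw [← hgsum]
            symm
            apply Finset.sum_subset (Finset.filter_subset _ _)
            intro b _ hb
            rw [hg0 b hb, zero_smul]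
          rw [h3, smul_zero, sub_zero]
        have hlt : (B.filter fun b => A < n1 b).card < m := by
          rw [← hn]
          apply Finset.card_lt_card
          refine ⟨?_, ?_⟩
          · intro b hb
            rw [Finset.mem_filter] at hb
            by_contra hbS
            have h1 := hn1c b
            rw [hg0 b hbS, mul_zero, sub_zero] at h1
            apply hbS
            rw [hS, Finset.mem_filter]
            refine ⟨hb.1, ?_⟩
            have : n1 b = n b := by exact_mod_cast h1
            rw [← this]; exact hb.2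
          · intro h
            have h1 := h hb1
            have h2 := (Finset.mem_filter.mp h1).2
            have h3 := hn1c b1
            have h4 : (A : ℤ) < n1 b1 := by exact_mod_cast h2
            rw [h3] at h4
            linarith
        obtain ⟨n', h1, h2⟩ := ih _ hlt n1 rfl
        exact ⟨n', h1.trans hsum1, h2⟩
  intro n
  exact main _ n rfl

/-- convergence of the lattice sum -/
lemma latSummable_of_rank (Λ : Submodule ℤ (Fin d → ℤ)) (t : ℝ)
    (hr : ∀ J, PosSupp Λ J → (rk Λ J : ℝ) < t * J.card) : LatSummable t Λ := by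
  classical
  by_cases htriv : ∀ k : Fin d →₀ ℕ, toZ k ∈ Λ → k = 0
  · have : Finite {k : Fin d →₀ ℕ // toZ k ∈ Λ} := by
      apply Set.Finite.to_subtype
      apply (Set.finite_singleton (0 : Fin d →₀ ℕ)).subset
      intro k hk
      exact htriv k hk
    exact Summable.of_finite
  push Not at htriv
  obtain ⟨k0, hk0, hk0n⟩ := htriv
  have htpos : 0 < t := by
    have hp : PosSupp Λ k0.support := ⟨Finsupp.support_nonempty_iff.mpr hk0n, k0, hk0, rfl⟩
    have h1 := hr _ hp
    have h2 : (0 : ℝ) ≤ (rk Λ k0.support : ℝ) := by positivity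
    have h3 : (0 : ℝ) < (k0.support.card : ℝ) := by exact_mod_cast hp.1.card_pos
    by_contra h
    push Not at h
    nlinarith
  obtain ⟨B0, hB0⟩ := posMonoid_fg Λ
  set B := B0.erase 0 with hB
  obtain ⟨A, hA⟩ := exists_indep_repr B
  have hBmem : ∀ b ∈ B, toZ b ∈ Λ ∧ b ≠ 0 := by
    intro b hb
    refine ⟨?_, Finset.ne_of_mem_erase hb⟩
    rw [← mem_posMonoid, ← hB0]
    exact AddSubmonoid.subset_closure (Finset.mem_of_mem_erase hb)
  -- the index type of representations
  let ι := {I : Finset (Fin d →₀ ℕ) // I ∈ B.powerset ∧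
    LinearIndependent ℤ (fun b : I => toZ b.1)}
  have : Finite ι := by
    apply Set.Finite.to_subtype
    apply (B.powerset.finite_toSet).subset
    rintro I ⟨hI, _⟩
    exact hI
  have : Fintype ι := Fintype.ofFinite ι
  let X := Σ i : (ι × (B → Fin (A + 1))), (i.1.1 → ℕ)
  let F : X → ℝ := fun x => (wt t (∑ b : x.1.1.1, x.2 b • b.1))⁻¹
  have hF : Summable F := by
    rw [summable_sigma_of_nonneg (fun x => inv_nonneg.mpr (wt_pos t _).le)]
    refine ⟨fun i => ?_, Summable.of_finite⟩
    exact summable_indep Λ t htpos hr i.1.1 (fun b hb =>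
      hBmem b (Finset.mem_powerset.mp i.1.2.1 hb)) i.1.2.2
  -- every element has a representation
  have hrep : ∀ k : {k : Fin d →₀ ℕ // toZ k ∈ Λ}, ∃ x : X,
      k.1 = (∑ b : x.1.1.1, x.2 b • b.1) + ∑ b : B, ((x.1.2 b : ℕ)) • b.1 := by
    rintro ⟨k, hk⟩
    have h1 : k ∈ AddSubmonoid.closure (B0 : Set (Fin d →₀ ℕ)) := by
      rw [hB0]; exact hk
    obtain ⟨n, -, hn⟩ := AddSubmonoid.mem_closure_finset.mp h1
    have hn' : ∑ b ∈ B, n b • b = k := by
      rw [← hn, hB]
      apply Finset.sum_erase
      simp
    obtain ⟨n', h2, h3⟩ := hA n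
    set I := B.filter fun b => A < n' b with hI
    refine ⟨⟨(⟨I, Finset.mem_powerset.mpr (Finset.filter_subset _ _), h3⟩,
      fun b => if h : A < n' b.1 then 0 else ⟨n' b.1, by omega⟩), fun b => n' b.1⟩, ?_⟩
    change k = (∑ b : I, n' b.1 • b.1) +
      ∑ b : B, (((if h : A < n' b.1 then 0 else ⟨n' b.1, by omega⟩ : Fin (A + 1)) : ℕ)) • b.1
    rw [← hn', ← h2, ← Finset.sum_filter_add_sum_filter_not B (fun b => A < n' b)]
    congr 1
    · rw [← hI, Finset.sum_coe_sort I (fun b => n' b • b)]
    · rw [Finset.sum_filter, ← Finset.sum_coe_sort B]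
      apply Finset.sum_congr rfl
      intro b _
      by_cases h : A < n' b.1
      · simp [h]
      · simp [h]
  choose s hs using hrep
  have hbound : ∀ k : {k : Fin d →₀ ℕ // toZ k ∈ Λ}, (wt t k.1)⁻¹ ≤ F (s k) := by
    intro k
    apply inv_anti₀ (wt_pos t _)
    apply wt_mono htpos.le
    conv_rhs => rw [hs k]
    exact le_self_add
  have hinj : Function.Injective s := by
    intro k l h
    apply Subtype.ext
    rw [hs k, hs l, h]
  exact Summable.of_nonneg_of_le (fun k => inv_nonneg.mpr (wt_pos t k.1).le) hbound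
    (hF.comp_injective hinj)

theorem latSummable_iff (Λ : Submodule ℤ (Fin d → ℤ)) (t : ℝ) :
    ¬ LatSummable t Λ ↔ ∃ J, PosSupp Λ J ∧ t * J.card ≤ rk Λ J := by
  constructor
  · intro h
    by_contra hcon
    push Not at hcon
    exact h (latSummable_of_rank Λ t hcon)
  · rintro ⟨J, hJ, ht⟩
    exact not_latSummable_of_rank Λ J hJ t ht

end Pool.MP4ac1fb
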