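import Pool.Agent.H.MP_4ac1fb_an.Regular

/-!
Counting roots of unity in short arcs, and sums over thin subsets of the grid.
-/

namespace Pool.MP4ac1fb

open MvPolynomial

variable {d : ℕ}

lemma norm_pow_sub_pow_le {z w : ℂ} (hz : ‖z‖ = 1) (hw : ‖w‖ = 1) (n : ℕ) :
    ‖z ^ n - w ^ n‖ ≤ n * ‖z - w‖ := by
  induction n with
  | zero => simp
  | succ n ih =>
    have h : z ^ (n + 1) - w ^ (n + 1) = z ^ n * (z - w) + (z ^ n - w ^ n) * w := by ring
    rw [h]
    calc _ ≤ ‖z ^ n * (z - w)‖ + ‖(z ^ n - w ^ n) * w‖ := norm_add_le _ _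
      _ = ‖z - w‖ + ‖z ^ n - w ^ n‖ := by
          rw [norm_mul, norm_mul, norm_pow, hz, hw, one_pow, one_mul, mul_one]
      _ ≤ ‖z - w‖ + n * ‖z - w‖ := by linarith
      _ = _ := by push_cast; ring

lemma count_upper {M N : ℕ} (hN : 1 ≤ N) (hNM : N ≤ M) (w : ℂ) (hw : ‖w‖ = 1) :
    ((Finset.univ.filter fun b : Fin M => ‖rt M ^ (b : ℕ) - w‖ ≤ 1 / N).card : ℝ) ≤
      4 * M / N := by
  classical
  have hM : M ≠ 0 := by omega
  have hNpos : (0 : ℝ) < N := by exact_mod_cast hN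
  have hNC : (N : ℂ) ≠ 0 := by exact_mod_cast (by omega : N ≠ 0)
  set F : Fin M → ℂ := fun b => (1 / N) * ∑ n ∈ Finset.range N,
    (rt M ^ (b : ℕ)) ^ n * (starRingEnd ℂ) (w ^ n) with hF
  have hww : ∀ n : ℕ, w ^ n * (starRingEnd ℂ) (w ^ n) = 1 := by
    intro n
    rw [Complex.mul_conj, Complex.normSq_eq_norm_sq, norm_pow, hw]
    simp
  have hsumC : ∑ b, F b * (starRingEnd ℂ) (F b) = (M : ℂ) / N := by
    have h1 : ∀ b, F b * (starRingEnd ℂ) (F b) = (1 / N) ^ 2 *
        ∑ n ∈ Finset.range N, ∑ l ∈ Finset.range N, ((starRingEnd ℂ) (w ^ n) * w ^ l) *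
          ((rt M ^ (b : ℕ)) ^ n * (starRingEnd ℂ) ((rt M ^ (b : ℕ)) ^ l)) := by
      intro b
      rw [hF]
      simp only [map_mul, map_sum, map_div₀, map_one, map_natCast, Complex.conj_conj]
      rw [mul_mul_mul_comm, ← sq, Finset.sum_mul_sum]
      congr 1
      apply Finset.sum_congr rfl
      intro n _
      apply Finset.sum_congr rfl
      intro l _
      ring
    rw [Finset.sum_congr rfl (fun b _ => h1 b), ← Finset.mul_sum, Finset.sum_comm]
    have h2 : ∀ n ∈ Finset.range N, ∑ b : Fin M, ∑ l ∈ Finset.range N,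
        ((starRingEnd ℂ) (w ^ n) * w ^ l) *
          ((rt M ^ (b : ℕ)) ^ n * (starRingEnd ℂ) ((rt M ^ (b : ℕ)) ^ l)) = M := by
      intro n hn
      rw [Finset.sum_comm]
      have h3 : ∀ l ∈ Finset.range N, ∑ b : Fin M, ((starRingEnd ℂ) (w ^ n) * w ^ l) *
          ((rt M ^ (b : ℕ)) ^ n * (starRingEnd ℂ) ((rt M ^ (b : ℕ)) ^ l)) =
          if n = l then (M : ℂ) else 0 := by
        intro l hl
        rw [← Finset.mul_sum, geom_orth hM (lt_of_lt_of_le (Finset.mem_range.mp hn) hNM)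
          (lt_of_lt_of_le (Finset.mem_range.mp hl) hNM)]
        split_ifs with h
        · subst h
          rw [mul_comm ((starRingEnd ℂ) (w ^ n)), hww, one_mul]
        · rw [mul_zero]
      rw [Finset.sum_congr rfl h3, Finset.sum_ite_eq, if_pos hn]
    rw [Finset.sum_congr rfl h2, Finset.sum_const, Finset.card_range, nsmul_eq_mul]
    field_simp
  have hsum : ∑ b, ‖F b‖ ^ 2 = (M : ℝ) / N := by
    have hre : ∀ z : ℂ, z * (starRingEnd ℂ) z = ((‖z‖ ^ 2 : ℝ) : ℂ) := by
      intro z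
      rw [Complex.mul_conj, Complex.normSq_eq_norm_sq]
    simp only [hre] at hsumC
    apply Complex.ofReal_injective
    rw [Complex.ofReal_sum, hsumC]
    push_cast
    rfl
  have hlow : ∀ b ∈ Finset.univ.filter (fun b : Fin M => ‖rt M ^ (b : ℕ) - w‖ ≤ 1 / N),
      (1 / 4 : ℝ) ≤ ‖F b‖ ^ 2 := by
    intro b hb
    have hb1 : ‖rt M ^ (b : ℕ) - w‖ ≤ 1 / N := (Finset.mem_filter.mp hb).2
    have hz : ‖rt M ^ (b : ℕ)‖ = 1 := by rw [norm_pow, norm_rt hM, one_pow]
    have h1 : F b - 1 = (1 / N) * ∑ n ∈ Finset.range N,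
        (((rt M ^ (b : ℕ)) ^ n - w ^ n) * (starRingEnd ℂ) (w ^ n)) := by
      have h2 : ∑ n ∈ Finset.range N, (((rt M ^ (b : ℕ)) ^ n - w ^ n) * (starRingEnd ℂ) (w ^ n)) =
          ∑ n ∈ Finset.range N, (rt M ^ (b : ℕ)) ^ n * (starRingEnd ℂ) (w ^ n) - N := by
        simp only [sub_mul, Finset.sum_sub_distrib, hww, Finset.sum_const, Finset.card_range,
          nsmul_eq_mul, mul_one]
      rw [h2, hF, mul_sub, one_div_mul_cancel hNC]
    have h2 : ‖F b - 1‖ ≤ 1 / 2 := by
      rw [h1, norm_mul, norm_div, norm_one, Complex.norm_natCast]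
      have h3 : ‖∑ n ∈ Finset.range N,
          (((rt M ^ (b : ℕ)) ^ n - w ^ n) * (starRingEnd ℂ) (w ^ n))‖ ≤ N / 2 := by
        refine (norm_sum_le _ _).trans ?_
        have h4 : ∀ n ∈ Finset.range N,
            ‖((rt M ^ (b : ℕ)) ^ n - w ^ n) * (starRingEnd ℂ) (w ^ n)‖ ≤ n * (1 / N) := by
          intro n _
          rw [norm_mul, RCLike.norm_conj, norm_pow w, hw, one_pow, mul_one]
          exact (norm_pow_sub_pow_le hz hw n).trans
            (mul_le_mul_of_nonneg_left hb1 (Nat.cast_nonneg _))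
        refine (Finset.sum_le_sum h4).trans ?_
        rw [← Finset.sum_mul]
        have h5 : ∑ n ∈ Finset.range N, (n : ℝ) ≤ (N : ℝ) * N / 2 := by
          have h6 := Finset.sum_range_id_mul_two N
          have h7 := congrArg (fun x : ℕ => (x : ℝ)) h6
          simp only [Nat.cast_mul, Nat.cast_sum, Nat.cast_ofNat] at h7
          have h8 : ((N - 1 : ℕ) : ℝ) ≤ N := by exact_mod_cast Nat.sub_le _ _
          nlinarith
        calc _ ≤ (N : ℝ) * N / 2 * (1 / N) := mul_le_mul_of_nonneg_right h5 (by positivity)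
          _ = N / 2 := by field_simp
      calc 1 / (N : ℝ) * _ ≤ 1 / N * (N / 2) := mul_le_mul_of_nonneg_left h3 (by positivity)
        _ = 1 / 2 := by field_simp
    have h3 : 1 - ‖F b‖ ≤ 1 / 2 := by
      have := norm_sub_norm_le (1 : ℂ) (F b)
      rw [norm_one, norm_sub_rev] at this
      linarith
    nlinarith [norm_nonneg (F b)]
  have h1 : ((Finset.univ.filter fun b : Fin M => ‖rt M ^ (b : ℕ) - w‖ ≤ 1 / N).card : ℝ) *
      (1 / 4) ≤ M / N := by
    rw [← hsum]
    calc _ = ∑ b ∈ Finset.univ.filter (fun b : Fin M => ‖rt M ^ (b : ℕ) - w‖ ≤ 1 / N),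
          (1 / 4 : ℝ) := by rw [Finset.sum_const, nsmul_eq_mul]
      _ ≤ ∑ b ∈ Finset.univ.filter (fun b : Fin M => ‖rt M ^ (b : ℕ) - w‖ ≤ 1 / N),
          ‖F b‖ ^ 2 := Finset.sum_le_sum hlow
      _ ≤ ∑ b, ‖F b‖ ^ 2 := Finset.sum_le_sum_of_subset_of_nonneg (Finset.subset_univ _)
          (fun _ _ _ => sq_nonneg _)
  calc _ = 4 * (((Finset.univ.filter fun b : Fin M => ‖rt M ^ (b : ℕ) - w‖ ≤ 1 / N).card : ℝ) *
      (1 / 4)) := by ring
    _ ≤ 4 * (M / N) := by linarith
    _ = _ := by ring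

lemma norm_rt_pow_sub_one_le (M k : ℕ) : ‖rt M ^ k - 1‖ ≤ 2 * Real.pi * k / M := by
  have h1 : rt M ^ k = Complex.exp (Complex.I * ((2 * Real.pi * k / M : ℝ) : ℂ)) := by
    rw [rt, ← Complex.exp_nat_mul]
    congr 1
    push_cast
    ring
  rw [h1]
  refine Real.norm_exp_I_mul_ofReal_sub_one_le.trans ?_
  rw [Real.norm_of_nonneg (by positivity)]

lemma count_lower {M : ℕ} (η : ℝ) (hη : 0 < η) (hη1 : η ≤ 1) (hM : 14 ≤ η * M) (w : ℂ)
    (hw : ‖w‖ = 1) :
    η * M / 14 ≤ ((Finset.univ.filter fun b : Fin M => ‖rt M ^ (b : ℕ) - w‖ < η).card : ℝ) := by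
  classical
  have hMpos : (0 : ℝ) < M := by
    by_contra h
    push Not at h
    nlinarith
  have hM0 : M ≠ 0 := by
    intro h; rw [h, Nat.cast_zero] at hMpos; exact lt_irrefl _ hMpos
  have hpi := Real.pi_pos
  have hpi7 : 2 * Real.pi < 7 := by
    have := Real.pi_lt_d2
    linarith
  set φ : ℝ := Complex.arg w + 2 * Real.pi with hφ
  have hφ0 : 0 ≤ φ := by
    have := Complex.neg_pi_lt_arg w
    rw [hφ]; linarith
  have hwφ : w = Complex.exp (Complex.I * (φ : ℂ)) := by
    have h1 : w = Complex.exp (Complex.arg w * Complex.I) := by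
      have := Complex.norm_mul_exp_arg_mul_I w
      rw [hw] at this
      simpa using this.symm
    rw [hφ]
    push_cast
    rw [mul_add, Complex.exp_add, mul_comm Complex.I (2 * (Real.pi : ℂ)), Complex.exp_two_pi_mul_I,
      mul_one, mul_comm]
    exact h1
  set n0 := ⌊M * φ / (2 * Real.pi)⌋₊ with hn0
  have h1 : (n0 : ℝ) ≤ M * φ / (2 * Real.pi) := Nat.floor_le (by positivity)
  have h2 : M * φ / (2 * Real.pi) < n0 + 1 := Nat.lt_floor_add_one _
  have hn0w : ‖rt M ^ n0 - w‖ ≤ 2 * Real.pi / M := by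
    have h3 : rt M ^ n0 = Complex.exp (Complex.I * ((2 * Real.pi * n0 / M : ℝ) : ℂ)) := by
      rw [rt, ← Complex.exp_nat_mul]
      congr 1
      push_cast
      ring
    have h4 : w = rt M ^ n0 * Complex.exp (Complex.I * ((φ - 2 * Real.pi * n0 / M : ℝ) : ℂ)) := by
      rw [h3, ← Complex.exp_add, hwφ]
      congr 1
      push_cast
      ring
    have h5 : ‖rt M ^ n0‖ = 1 := by rw [norm_pow, norm_rt hM0, one_pow]
    rw [norm_sub_rev]
    conv_lhs => rw [h4]
    rw [← mul_sub_one, norm_mul, h5, one_mul]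
    refine Real.norm_exp_I_mul_ofReal_sub_one_le.trans ?_
    rw [Real.norm_eq_abs, abs_le]
    rw [le_div_iff₀ (by positivity)] at h1
    rw [div_lt_iff₀ (by positivity)] at h2
    have h6 : 2 * Real.pi * n0 / M ≤ φ := by
      rw [div_le_iff₀ hMpos]; linarith
    have h7 : φ - 2 * Real.pi * n0 / M ≤ 2 * Real.pi / M := by
      rw [sub_le_iff_le_add, ← add_div, le_div_iff₀ hMpos]; linarith
    have h8 : 0 < 2 * Real.pi / M := by positivity
    constructor <;> linarith
  set K := ⌊η * M / 7⌋₊ with hK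
  have hK1 : η * M / 7 < K + 1 := Nat.lt_floor_add_one _
  have hK2 : (K : ℝ) ≤ η * M / 7 := Nat.floor_le (by positivity)
  have hKM : K ≤ M := by
    have : (K : ℝ) ≤ M := by nlinarith
    exact_mod_cast this
  have hinj : K ≤ (Finset.univ.filter fun b : Fin M => ‖rt M ^ (b : ℕ) - w‖ < η).card := by
    have h3 : (Finset.range K).card ≤
        (Finset.univ.filter fun b : Fin M => ‖rt M ^ (b : ℕ) - w‖ < η).card := by
      apply Finset.card_le_card_of_injOn
        (fun k => (⟨(n0 + k) % M, Nat.mod_lt _ (Nat.pos_of_ne_zero hM0)⟩ : Fin M))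
      · intro k hk
        have hk' : k < K := Finset.mem_range.mp hk
        have hmod : rt M ^ ((n0 + k) % M) = rt M ^ (n0 + k) :=
          (pow_eq_pow_mod (n0 + k) (rt_prim hM0).pow_eq_one).symm
        simp only [Finset.coe_filter, Finset.mem_univ, true_and, Set.mem_ofPred_eq]
        rw [hmod]
        have h5 : ‖rt M ^ n0‖ = 1 := by rw [norm_pow, norm_rt hM0, one_pow]
        have h6 : rt M ^ (n0 + k) - w = rt M ^ n0 * (rt M ^ k - 1) + (rt M ^ n0 - w) := by
          rw [pow_add]; ring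
        rw [h6]
        have hkK : (k : ℝ) + 1 ≤ K := by exact_mod_cast hk'
        calc _ ≤ ‖rt M ^ n0 * (rt M ^ k - 1)‖ + ‖rt M ^ n0 - w‖ := norm_add_le _ _
          _ ≤ 2 * Real.pi * k / M + 2 * Real.pi / M := by
              rw [norm_mul, h5, one_mul]
              exact add_le_add (norm_rt_pow_sub_one_le M k) hn0w
          _ = 2 * Real.pi * (k + 1) / M := by ring
          _ ≤ 2 * Real.pi * (η * M / 7) / M := by
              apply div_le_div_of_nonneg_right _ hMpos.le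
              apply mul_le_mul_of_nonneg_left (hkK.trans hK2) (by positivity)
          _ = (2 * Real.pi / 7) * η := by field_simp
          _ < 1 * η := by
              apply mul_lt_mul_of_pos_right _ hη
              rw [div_lt_one (by norm_num)]; exact hpi7
          _ = η := one_mul _
      · intro k hk l hl hkl
        have hk' : k < K := Finset.mem_range.mp hk
        have hl' : l < K := Finset.mem_range.mp hl
        simp only [Fin.mk.injEq] at hkl
        have h7 : k ≡ l [MOD M] := Nat.ModEq.add_left_cancel' n0 hkl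
        exact Nat.ModEq.eq_of_lt_of_lt h7 (by omega) (by omega)
    rwa [Finset.card_range] at h3
  have h9 : (K : ℝ) ≤ ((Finset.univ.filter fun b : Fin M => ‖rt M ^ (b : ℕ) - w‖ < η).card : ℝ) :=
    by exact_mod_cast hinj
  linarith

end Pool.MP4ac1fb
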