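import Pool.Agent.H.MP_4ac1fb_an.Basic

/-!
An energy inequality for lazy random walk polynomials.
-/

namespace Pool.MP4ac1fb

open MvPolynomial

variable {d : ℕ}

lemma wt_zero (k : Fin d →₀ ℕ) : wt 0 k = 1 := by
  simp [wt]

lemma norm_W0_monomial_mul (a : Fin d →₀ ℕ) (z : ℂ) (p : MvPolynomial (Fin d) ℂ) :
    ‖W 0 (monomial a z * p)‖ = ‖z‖ * ‖W 0 p‖ := by
  classical
  have hs : (monomial a z * p).support ⊆ p.support.image (fun k => a + k) := by
    intro k hk
    have := MvPolynomial.support_mul _ _ hk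
    obtain ⟨b, hb, c, hc, rfl⟩ := Finset.mem_add.mp this
    have hb' := MvPolynomial.support_monomial_subset hb
    rw [Finset.mem_singleton] at hb'
    subst hb'
    exact Finset.mem_image_of_mem _ hc
  have h : ‖W 0 (monomial a z * p)‖ ^ 2 = (‖z‖ * ‖W 0 p‖) ^ 2 := by
    rw [norm_W_sq' 0 _ _ hs, Finset.sum_image (by intro x _ y _ h; exact add_left_cancel h),
      mul_pow, norm_W_sq, Finset.mul_sum]
    apply Finset.sum_congr rfl
    intro k _
    rw [coeff_monomial_mul, norm_mul, mul_pow, wt_zero, wt_zero]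
    ring
  exact (pow_left_inj₀ (norm_nonneg _) (by positivity) two_ne_zero).mp h

lemma norm_comb_sq {x y : E d} (a b : ℝ) (hxy : ‖x‖ = ‖y‖) :
    ‖(a : ℂ) • x + (b : ℂ) • y‖ ^ 2 = (a + b) ^ 2 * ‖x‖ ^ 2 - a * b * ‖x - y‖ ^ 2 := by
  rw [@norm_add_sq ℂ, @norm_sub_sq ℂ, inner_smul_left, inner_smul_right, norm_smul, norm_smul]
  simp only [Complex.conj_ofReal, Complex.norm_real, Real.norm_eq_abs, mul_pow, sq_abs]
  have : RCLike.re ((a : ℂ) * ((b : ℂ) * inner ℂ x y)) = a * b * RCLike.re (inner ℂ x y) := by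
    simp only [RCLike.re_eq_complex_re, Complex.re_ofReal_mul]
    ring
  rw [this, ← hxy]
  ring

/-- The energy inequality. -/
lemma energy (R : MvPolynomial (Fin d) ℂ) (h0 : coeff 0 R = 1 / 2)
    (hsum : ∑ k ∈ R.support, ‖coeff k R‖ ≤ 1) (a : Fin d →₀ ℕ) (ha : a ≠ 0)
    (haR : coeff a R ≠ 0) (f : MvPolynomial (Fin d) ℂ) :
    ‖W 0 (R * f)‖ ^ 2 ≤ ‖W 0 f‖ ^ 2 -
      (‖coeff a R‖ / 2) * ‖W 0 ((1 - monomial a (coeff a R / ‖coeff a R‖)) * f)‖ ^ 2 := by
  classical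
  set r : ℝ := ‖coeff a R‖ with hr
  have hrpos : 0 < r := norm_pos_iff.mpr haR
  set u : ℂ := coeff a R / (r : ℂ) with hu
  have hunorm : ‖u‖ = 1 := by
    rw [hu, norm_div, Complex.norm_real, Real.norm_eq_abs, abs_of_pos hrpos, ← hr, div_self hrpos.ne']
  have hrc : (r : ℂ) ≠ 0 := by exact_mod_cast hrpos.ne'
  have hcoef : coeff a R = (r : ℂ) * u := by
    rw [hu, mul_div_cancel₀ _ hrc]
  have h0mem : (0 : Fin d →₀ ℕ) ∈ R.support := by
    rw [mem_support_iff, h0]; norm_num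
  have hamem : a ∈ R.support := mem_support_iff.mpr haR
  have hamem' : a ∈ R.support.erase 0 := Finset.mem_erase.mpr ⟨ha, hamem⟩
  set S := (R.support.erase 0).erase a with hS
  have hdec : R = C (1 / 2) + monomial a (coeff a R) + ∑ k ∈ S, monomial k (coeff k R) := by
    conv_lhs => rw [MvPolynomial.as_sum R]
    rw [← Finset.add_sum_erase _ _ h0mem, ← Finset.add_sum_erase _ _ hamem', h0]
    rw [add_assoc]
    rfl
  have hsumdec : (1 / 2 : ℝ) + r + ∑ k ∈ S, ‖coeff k R‖ ≤ 1 := by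
    have := hsum
    rw [← Finset.add_sum_erase _ _ h0mem, ← Finset.add_sum_erase _ _ hamem', h0] at this
    norm_num at this
    linarith
  set v := W 0 (monomial a u * f) with hv
  have hvnorm : ‖W 0 f‖ = ‖v‖ := by rw [hv, norm_W0_monomial_mul, hunorm, one_mul]
  have hmain : W 0 (R * f) = (((1 / 2 : ℝ) : ℂ) • W 0 f + ((r : ℝ) : ℂ) • v) +
      ∑ k ∈ S, W 0 (monomial k (coeff k R) * f) := by
    conv_lhs => rw [hdec]
    rw [add_mul, add_mul, Finset.sum_mul, map_add, map_add, map_sum]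
    congr 1
    congr 1
    · rw [← map_smul]
      congr 1
      rw [MvPolynomial.smul_eq_C_mul]
      norm_num
    · rw [hv, ← map_smul]
      congr 1
      rw [hcoef, ← smul_mul_assoc, MvPolynomial.smul_monomial, smul_eq_mul]
  set x := ((1 / 2 : ℝ) : ℂ) • W 0 f + ((r : ℝ) : ℂ) • v with hx
  have hx2 : ‖x‖ ^ 2 = (1 / 2 + r) ^ 2 * ‖W 0 f‖ ^ 2 - 1 / 2 * r * ‖W 0 f - v‖ ^ 2 :=
    norm_comb_sq _ _ hvnorm
  have hxle : ‖x‖ ≤ (1 / 2 + r) * ‖W 0 f‖ := by
    rw [hx]
    refine (norm_add_le _ _).trans ?_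
    rw [norm_smul, norm_smul, Complex.norm_real, Complex.norm_real, Real.norm_eq_abs,
      Real.norm_eq_abs, abs_of_pos hrpos, abs_of_pos (by norm_num : (0 : ℝ) < 1 / 2), ← hvnorm]
    linarith
  have hrest : ‖∑ k ∈ S, W 0 (monomial k (coeff k R) * f)‖ ≤ (1 - (1 / 2 + r)) * ‖W 0 f‖ := by
    refine (norm_sum_le _ _).trans ?_
    simp only [norm_W0_monomial_mul]
    rw [← Finset.sum_mul]
    apply mul_le_mul_of_nonneg_right _ (norm_nonneg _)
    linarith
  have hdiff : W 0 ((1 - monomial a u) * f) = W 0 f - v := by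
    rw [hv, sub_mul, one_mul, map_sub]
  rw [hdiff]
  have htot : ‖W 0 (R * f)‖ ≤ ‖x‖ + (1 - (1 / 2 + r)) * ‖W 0 f‖ := by
    rw [hmain]
    exact (norm_add_le _ _).trans (by linarith)
  have hy := norm_nonneg (W 0 f)
  have hxn := norm_nonneg x
  have hs0 : 0 ≤ 1 - (1 / 2 + r) := by
    have : 0 ≤ ∑ k ∈ S, ‖coeff k R‖ := Finset.sum_nonneg fun _ _ => norm_nonneg _
    linarith
  have h1 : ‖W 0 (R * f)‖ ^ 2 ≤ (‖x‖ + (1 - (1 / 2 + r)) * ‖W 0 f‖) ^ 2 :=
    pow_le_pow_left₀ (norm_nonneg _) htot 2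
  nlinarith [mul_nonneg hs0 hy, mul_le_mul_of_nonneg_left hxle (mul_nonneg hs0 hy)]

lemma energy_le (R : MvPolynomial (Fin d) ℂ)
    (hsum : ∑ k ∈ R.support, ‖coeff k R‖ ≤ 1) (f : MvPolynomial (Fin d) ℂ) :
    ‖W 0 (R * f)‖ ≤ ‖W 0 f‖ := by
  classical
  have h1 : R * f = ∑ a ∈ R.support, monomial a (coeff a R) * f := by
    rw [← Finset.sum_mul]
    congr 1
    exact MvPolynomial.as_sum R
  rw [h1, map_sum]
  refine (norm_sum_le _ _).trans ?_
  simp only [norm_W0_monomial_mul]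
  rw [← Finset.sum_mul]
  calc _ ≤ 1 * ‖W 0 f‖ := mul_le_mul_of_nonneg_right hsum (norm_nonneg _)
    _ = _ := one_mul _

/-- decay of the iterated differences -/
lemma decay (R : MvPolynomial (Fin d) ℂ) (h0 : coeff 0 R = 1 / 2)
    (hsum : ∑ k ∈ R.support, ‖coeff k R‖ ≤ 1) (a : Fin d →₀ ℕ) (ha : a ≠ 0)
    (haR : coeff a R ≠ 0) (j : ℕ) :
    ∃ K : ℝ, 0 ≤ K ∧ ∀ n : ℕ, 1 ≤ n →
      ‖W 0 ((1 - monomial a (coeff a R / ‖coeff a R‖)) ^ j * R ^ n)‖ ^ 2 * (n : ℝ) ^ j ≤ K := by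
  set D : MvPolynomial (Fin d) ℂ := 1 - monomial a (coeff a R / ‖coeff a R‖) with hD
  set c : ℝ := ‖coeff a R‖ / 2 with hc
  have hcpos : 0 < c := by have := norm_pos_iff.mpr haR; positivity
  set e : ℕ → ℕ → ℝ := fun n j => ‖W 0 (D ^ j * R ^ n)‖ ^ 2 with he
  have hstep : ∀ n j, e (n + 1) j ≤ e n j - c * e n (j + 1) := by
    intro n j
    have := energy R h0 hsum a ha haR (D ^ j * R ^ n)
    simp only [he]
    have h1 : D ^ j * R ^ (n + 1) = R * (D ^ j * R ^ n) := by ring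
    have h2 : D ^ (j + 1) * R ^ n = D * (D ^ j * R ^ n) := by ring
    rw [h1, h2]
    exact this
  have hnn : ∀ n j, 0 ≤ e n j := fun n j => sq_nonneg _
  have hanti : ∀ j, Antitone fun n => e n j := by
    intro j
    apply antitone_nat_of_succ_le
    intro n
    have := hstep n j
    have := hnn n (j + 1)
    nlinarith
  have hsumstep : ∀ j m l, c * ∑ i ∈ Finset.range l, e (m + i) (j + 1) ≤ e m j - e (m + l) j := by
    intro j m l
    induction l with
    | zero => simp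
    | succ l ih =>
      rw [Finset.sum_range_succ, mul_add]
      have := hstep (m + l) j
      have h3 : m + (l + 1) = m + l + 1 := by ring
      rw [h3]
      linarith
  have hdouble : ∀ j m, c * m * e (2 * m) (j + 1) ≤ e m j := by
    intro j m
    have h1 := hsumstep j m m
    have h2 : (m : ℝ) * e (2 * m) (j + 1) ≤ ∑ i ∈ Finset.range m, e (m + i) (j + 1) := by
      have : ∀ i ∈ Finset.range m, e (2 * m) (j + 1) ≤ e (m + i) (j + 1) := by
        intro i hi
        apply hanti (j + 1)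
        have := Finset.mem_range.mp hi
        omega
      have h4 := Finset.sum_le_sum this
      simpa using h4
    have h3 := hnn (m + m) j
    nlinarith
  induction j with
  | zero =>
    refine ⟨e 0 0, hnn 0 0, fun n _ => ?_⟩
    change e n 0 * (n : ℝ) ^ 0 ≤ e 0 0
    rw [pow_zero, mul_one]
    exact hanti 0 (Nat.zero_le n)
  | succ j ih =>
    obtain ⟨K, hK, hKb⟩ := ih
    refine ⟨3 ^ (j + 1) * K / c + e 1 (j + 1), by have := hnn 1 (j + 1); positivity, fun n hn => ?_⟩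
    change e n (j + 1) * (n : ℝ) ^ (j + 1) ≤ _
    rcases Nat.lt_or_ge n 2 with h | h
    · have : n = 1 := by omega
      subst this
      simp only [Nat.cast_one, one_pow, mul_one]
      have : 0 ≤ 3 ^ (j + 1) * K / c := by positivity
      linarith
    · set m := n / 2 with hm
      have hm1 : 1 ≤ m := by omega
      have h2m : 2 * m ≤ n := by omega
      have hn3 : n ≤ 3 * m := by omega
      have hmr : (1 : ℝ) ≤ m := by exact_mod_cast hm1
      have h3 : e n (j + 1) ≤ e (2 * m) (j + 1) := hanti (j + 1) h2m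
      have h4 := hdouble j m
      have h5 : e m j * (m : ℝ) ^ j ≤ K := hKb m hm1
      have h6 : (n : ℝ) ^ (j + 1) ≤ (3 * m : ℝ) ^ (j + 1) := by
        apply pow_le_pow_left₀ (by positivity)
        exact_mod_cast hn3
      have h7 : e (2 * m) (j + 1) * (m : ℝ) ^ (j + 1) ≤ K / c := by
        rw [le_div_iff₀ hcpos]
        calc e (2 * m) (j + 1) * (m : ℝ) ^ (j + 1) * c
            = (c * m * e (2 * m) (j + 1)) * (m : ℝ) ^ j := by ring
          _ ≤ e m j * (m : ℝ) ^ j := mul_le_mul_of_nonneg_right h4 (by positivity)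
          _ ≤ K := h5
      calc e n (j + 1) * (n : ℝ) ^ (j + 1)
          ≤ e (2 * m) (j + 1) * (3 * m : ℝ) ^ (j + 1) := by
            apply mul_le_mul h3 h6 (by positivity) (hnn _ _)
        _ = 3 ^ (j + 1) * (e (2 * m) (j + 1) * (m : ℝ) ^ (j + 1)) := by rw [mul_pow]; ring
        _ ≤ 3 ^ (j + 1) * (K / c) := mul_le_mul_of_nonneg_left h7 (by positivity)
        _ ≤ 3 ^ (j + 1) * K / c + e 1 (j + 1) := by
            have := hnn 1 (j + 1)
            rw [mul_div_assoc]; linarith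

/-- comparison of the weighted and unweighted norms for bounded degree -/
lemma norm_W_le_of_degree (t : ℝ) (T : ℕ) (hT : t ≤ T) (p : MvPolynomial (Fin d) ℂ) (L : ℕ)
    (hL : ∀ k ∈ p.support, ∀ j, k j ≤ L) :
    ‖W t p‖ ^ 2 ≤ ((L : ℝ) + 1) ^ (d * T) * ‖W 0 p‖ ^ 2 := by
  rw [norm_W_sq, norm_W_sq, Finset.mul_sum]
  apply Finset.sum_le_sum
  intro k hk
  rw [wt_zero, one_mul]
  apply mul_le_mul_of_nonneg_right _ (sq_nonneg _)
  unfold wt
  calc ∏ j, ((k j : ℝ) + 1) ^ t ≤ ∏ _j : Fin d, ((L : ℝ) + 1) ^ T := by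
        apply Finset.prod_le_prod
        · intro j _; positivity
        · intro j _
          have h1 : (k j : ℝ) + 1 ≤ (L : ℝ) + 1 := by
            have : (k j : ℝ) ≤ L := by exact_mod_cast hL k hk j
            linarith
          calc ((k j : ℝ) + 1) ^ t ≤ ((k j : ℝ) + 1) ^ (T : ℝ) := by
                apply Real.rpow_le_rpow_of_exponent_le _ hT
                have : (0 : ℝ) ≤ k j := by positivity
                linarith
            _ = ((k j : ℝ) + 1) ^ T := Real.rpow_natCast _ _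
            _ ≤ ((L : ℝ) + 1) ^ T := pow_le_pow_left₀ (by positivity) h1 T
    _ = ((L : ℝ) + 1) ^ (d * T) := by
        rw [Finset.prod_const, Finset.card_univ, Fintype.card_fin, ← pow_mul, mul_comm]

lemma support_le_degree (p : MvPolynomial (Fin d) ℂ) (L : ℕ) (hL : ∀ j, p.degreeOf j ≤ L) :
    ∀ k ∈ p.support, ∀ j, k j ≤ L := fun _ hk j =>
  (MvPolynomial.monomial_le_degreeOf j hk).trans (hL j)

/-- Powers of the elementary differences lie in the closed ideal. -/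
lemma diff_pow_mem (t : ℝ) (P R : MvPolynomial (Fin d) ℂ) (hPR : 1 - R ∈ cl t P)
    (h0 : coeff 0 R = 1 / 2)
    (hsum : ∑ k ∈ R.support, ‖coeff k R‖ ≤ 1) (a : Fin d →₀ ℕ) (ha : a ≠ 0)
    (haR : coeff a R ≠ 0) :
    (1 - monomial a (coeff a R / ‖coeff a R‖)) ^ (d * ⌈t⌉₊ + 1) ∈ cl t P := by
  set D : MvPolynomial (Fin d) ℂ := 1 - monomial a (coeff a R / ‖coeff a R‖) with hD
  set T := ⌈t⌉₊ with hT
  set N := d * T + 1 with hN
  obtain ⟨K, hK, hKb⟩ := decay R h0 hsum a ha haR N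
  -- degree bound
  obtain ⟨M, hM1, hM2⟩ : ∃ M : ℕ, (∀ j, D.degreeOf j ≤ M) ∧ ∀ j, R.degreeOf j ≤ M := by
    refine ⟨(∑ j, D.degreeOf j) + ∑ j, R.degreeOf j, fun j => ?_, fun j => ?_⟩
    · exact (Finset.single_le_sum (f := fun j => D.degreeOf j) (fun _ _ => Nat.zero_le _)
        (Finset.mem_univ j)).trans (Nat.le_add_right _ _)
    · exact (Finset.single_le_sum (f := fun j => R.degreeOf j) (fun _ _ => Nat.zero_le _)
        (Finset.mem_univ j)).trans (Nat.le_add_left _ _)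
  have hdeg : ∀ n, ∀ k ∈ (D ^ N * R ^ n).support, ∀ j, k j ≤ (N + n) * M := by
    intro n
    apply support_le_degree
    intro j
    refine (MvPolynomial.degreeOf_mul_le _ _ _).trans ?_
    have h1 := MvPolynomial.degreeOf_pow_le j D N
    have h2 := MvPolynomial.degreeOf_pow_le j R n
    have h3 := Nat.mul_le_mul_left N (hM1 j)
    have h4 := Nat.mul_le_mul_left n (hM2 j)
    rw [add_mul]
    omega
  have hbound : ∀ n : ℕ, 1 ≤ n → ‖W t (D ^ N * R ^ n)‖ ^ 2 ≤
      (((N : ℝ) + 1) * (M + 1)) ^ (d * T) * K / n := by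
    intro n hn
    have hnr : (1 : ℝ) ≤ n := by exact_mod_cast hn
    have h1 := norm_W_le_of_degree t T (Nat.le_ceil t) (D ^ N * R ^ n) ((N + n) * M) (hdeg n)
    have h2 := hKb n hn
    have h3 : ((((N + n) * M : ℕ) : ℝ) + 1) ≤ (((N : ℝ) + 1) * (M + 1)) * n := by
      push_cast
      have hMn : (0 : ℝ) ≤ M := by positivity
      have hNn : (0 : ℝ) ≤ N := by positivity
      nlinarith [mul_nonneg hMn hNn, mul_nonneg (mul_nonneg hMn hNn) (sub_nonneg.mpr hnr),
        mul_nonneg hNn (sub_nonneg.mpr hnr)]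
    have h4 : ((((N + n) * M : ℕ) : ℝ) + 1) ^ (d * T) ≤ ((((N : ℝ) + 1) * (M + 1)) * n) ^ (d * T) :=
      pow_le_pow_left₀ (by positivity) h3 _
    rw [le_div_iff₀ (by linarith)]
    calc ‖W t (D ^ N * R ^ n)‖ ^ 2 * n
        ≤ ((((N : ℝ) + 1) * (M + 1)) * n) ^ (d * T) * ‖W 0 (D ^ N * R ^ n)‖ ^ 2 * n := by
          apply mul_le_mul_of_nonneg_right _ (by positivity)
          exact h1.trans (mul_le_mul_of_nonneg_right h4 (sq_nonneg _))
      _ = (((N : ℝ) + 1) * (M + 1)) ^ (d * T) * (‖W 0 (D ^ N * R ^ n)‖ ^ 2 * (n : ℝ) ^ N) := by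
          rw [mul_pow, hN, pow_succ (n : ℝ) (d * T)]; ring
      _ ≤ (((N : ℝ) + 1) * (M + 1)) ^ (d * T) * K :=
          mul_le_mul_of_nonneg_left h2 (by positivity)
  apply mem_cl_of_approx
  intro ε hε
  set B := (((N : ℝ) + 1) * (M + 1)) ^ (d * T) * K with hB
  have hBn : 0 ≤ B := by positivity
  obtain ⟨n, hn⟩ := exists_nat_gt (B / ε ^ 2 + 1)
  have hn1 : (1 : ℝ) < n := by
    have : 0 ≤ B / ε ^ 2 := by positivity
    linarith
  have hn1' : 1 ≤ n := by exact_mod_cast hn1.le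
  refine ⟨D ^ N * (1 - R ^ n), ?_, ?_⟩
  · apply (cl t P).mul_mem_left
    have : (1 - R) ∣ (1 - R ^ n) := by
      have := sub_dvd_pow_sub_pow (1 : MvPolynomial (Fin d) ℂ) R n
      rwa [one_pow] at this
    obtain ⟨q, hq⟩ := this
    rw [hq]
    exact (cl t P).mul_mem_right _ hPR
  · have h1 : D ^ N - D ^ N * (1 - R ^ n) = D ^ N * R ^ n := by ring
    rw [h1]
    have h2 : ‖W t (D ^ N * R ^ n)‖ ^ 2 < ε ^ 2 := by
      refine (hbound n hn1').trans_lt ?_
      rw [div_lt_iff₀ (by linarith)]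
      have : B / ε ^ 2 < n := by linarith
      rw [div_lt_iff₀ (by positivity)] at this
      linarith
    exact lt_of_pow_lt_pow_left₀ 2 hε.le h2

end Pool.MP4ac1fb
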