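import Pool.Agent.H.MP_4ac1fb_an.Grid

/-!
Radial slices of polynomials and multipliers built from symmetric functions.
-/

namespace Pool.MP4ac1fb

open MvPolynomial

variable {d : ℕ}

lemma eval_smul_homog {φ : MvPolynomial (Fin d) ℂ} {n : ℕ} (h : φ.IsHomogeneous n) (c : ℂ)
    (ζ : Fin d → ℂ) : eval (fun j => c * ζ j) φ = c ^ n * eval ζ φ := by
  rw [eval_eq_zp, eval_eq_zp, Finset.mul_sum]
  apply Finset.sum_congr rfl
  intro k hk
  have hdeg : ∑ j, k j = n := by
    have := h.degree_eq_sum_deg_support hk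
    rw [this]
    symm
    apply Finset.sum_subset (Finset.subset_univ _)
    intro j _ hj
    exact Finsupp.notMem_support_iff.mp hj
  simp only [zp, mul_pow, Finset.prod_mul_distrib]
  rw [Finset.prod_pow_eq_pow_sum, hdeg]
  ring

/-- radial slice -/
noncomputable def sl (G : MvPolynomial (Fin d) ℂ) (ζ : Fin d → ℂ) : Polynomial ℂ :=
  ∑ n ∈ Finset.range (G.totalDegree + 1),
    Polynomial.C (eval ζ (homogeneousComponent n G)) * Polynomial.X ^ n

lemma eval_sl (G : MvPolynomial (Fin d) ℂ) (ζ : Fin d → ℂ) (c : ℂ) :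
    (sl G ζ).eval c = eval (fun j => c * ζ j) G := by
  conv_rhs => rw [← sum_homogeneousComponent G]
  rw [map_sum, sl, Polynomial.eval_finsetSum]
  apply Finset.sum_congr rfl
  intro n _
  rw [eval_smul_homog (homogeneousComponent_isHomogeneous n G)]
  simp
  ring

lemma coeff_sl (G : MvPolynomial (Fin d) ℂ) (ζ : Fin d → ℂ) (n : ℕ) :
    (sl G ζ).coeff n = eval ζ (homogeneousComponent n G) := by
  rw [sl, Polynomial.finsetSum_coeff]
  simp only [Polynomial.coeff_C_mul, Polynomial.coeff_X_pow, mul_ite, mul_one, mul_zero]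
  rw [Finset.sum_ite_eq (Finset.range (G.totalDegree + 1)) n]
  split_ifs with h
  · rfl
  · rw [homogeneousComponent_eq_zero _ _ (by
      rw [Finset.mem_range] at h; omega), map_zero]

lemma homog_mem_supported {P : MvPolynomial (Fin d) ℂ} {s : Set (Fin d)}
    (h : P ∈ supported ℂ s) (n : ℕ) : homogeneousComponent n P ∈ supported ℂ s := by
  rw [mem_supported] at *
  intro j hj
  apply h
  rw [Finset.mem_coe, mem_vars_iff_mem_support] at *
  obtain ⟨k, hk, hkj⟩ := hj
  refine ⟨k, ?_, hkj⟩
  rw [mem_support_iff] at *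
  rw [coeff_homogeneousComponent] at hk
  intro h0
  apply hk
  rw [h0]; simp

lemma aeval_esymm_smul {N : ℕ} (c : Fin N → ℂ) (x : ℂ) (j : ℕ) :
    aeval (fun i => x * c i) (esymm (Fin N) ℂ j) = x ^ j * aeval c (esymm (Fin N) ℂ j) := by
  simp only [esymm, map_sum, map_prod, aeval_X, Finset.mul_sum]
  apply Finset.sum_congr rfl
  intro t ht
  rw [Finset.prod_mul_distrib, Finset.prod_const, (Finset.mem_powersetCard.mp ht).2]

/-- monic companion of a slice, factored -/
lemma exists_factor (P : MvPolynomial (Fin d) ℂ)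
    (hP : ∀ z : Fin d → ℂ, (∀ j, ‖z j‖ < 1) → eval z P ≠ 0) (h0 : coeff 0 P ≠ 0)
    (ζ : Fin d → ℂ) (hζ : ∀ j, ‖ζ j‖ = 1) :
    ∃ c : Fin P.totalDegree → ℂ, (∀ i, ‖c i‖ ≤ 1) ∧
      ∀ j ≤ P.totalDegree, aeval c (esymm (Fin P.totalDegree) ℂ j) =
        eval ζ (homogeneousComponent j P) / coeff 0 P := by
  classical
  set N := P.totalDegree with hN
  set h : ℕ → ℂ := fun n => eval ζ (homogeneousComponent n P) / coeff 0 P with hh
  have hh0 : h 0 = 1 := by
    simp only [hh]
    rw [homogeneousComponent_zero, eval_C, div_self h0]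
  set Y : Polynomial ℂ := ∑ n ∈ Finset.range (N + 1), Polynomial.C (h n) * Polynomial.X ^ (N - n)
    with hY
  have hcoeff : ∀ j ≤ N, Y.coeff (N - j) = h j := by
    intro j hj
    rw [hY, Polynomial.finsetSum_coeff]
    simp only [Polynomial.coeff_C_mul, Polynomial.coeff_X_pow, mul_ite, mul_one, mul_zero]
    rw [Finset.sum_eq_single j]
    · simp
    · intro b hb hbj
      rw [Finset.mem_range] at hb
      rw [if_neg (by omega)]
    · intro hj'
      rw [Finset.mem_range] at hj'
      omega
  have hdeg : Y.natDegree ≤ N := by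
    rw [hY]
    apply Polynomial.natDegree_sum_le_of_forall_le
    intro n _
    refine (Polynomial.natDegree_C_mul_X_pow_le _ _).trans (Nat.sub_le _ _)
  have hlead : Y.coeff N = 1 := by
    have := hcoeff 0 (Nat.zero_le _)
    rwa [Nat.sub_zero, hh0] at this
  have hnat : Y.natDegree = N := Polynomial.natDegree_eq_of_le_of_coeff_ne_zero hdeg (by
    rw [hlead]; exact one_ne_zero)
  have hmonic : Y.Monic := by
    rw [Polynomial.Monic, Polynomial.leadingCoeff, hnat, hlead]
  have hsplit := IsAlgClosed.splits Y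
  have hcard : Multiset.card Y.roots = N := by
    rw [← hnat]; exact (Polynomial.splits_iff_card_roots.mp hsplit)
  set l := Y.roots.toList with hl
  have hllen : l.length = N := by rw [hl, Multiset.length_toList, hcard]
  set r : Fin N → ℂ := fun i => l.get (i.cast hllen.symm) with hr
  have hYprod : Y = ∏ i : Fin N, (Polynomial.X - Polynomial.C (r i)) := by
    have h1 : Y = (Y.roots.map (fun a => Polynomial.X - Polynomial.C a)).prod := by
      have := Polynomial.C_leadingCoeff_mul_prod_multiset_X_sub_C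
        (Polynomial.splits_iff_card_roots.mp hsplit)
      rw [hmonic.leadingCoeff, Polynomial.C_1, one_mul] at this
      exact this.symm
    have h2 : Y.roots = (l : Multiset ℂ) := by rw [hl, Multiset.coe_toList]
    rw [h2, Multiset.map_coe, Multiset.prod_coe] at h1
    rw [h1]
    have h3 : l.map (fun a => Polynomial.X - Polynomial.C a) =
        List.ofFn (fun i : Fin N => (Polynomial.X - Polynomial.C (r i) : Polynomial ℂ)) := by
      apply List.ext_get
      · simp [hllen]
      · intro n h1 h2
        simp [hr]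
    rw [h3, List.prod_ofFn]
  have hrroot : ∀ i, Y.eval (r i) = 0 := by
    intro i
    rw [hYprod, Polynomial.eval_prod]
    apply Finset.prod_eq_zero (Finset.mem_univ i)
    simp
  have hrle : ∀ i, ‖r i‖ ≤ 1 := by
    intro i
    by_contra hcon
    push Not at hcon
    have hne : r i ≠ 0 := by
      intro h'; rw [h', norm_zero] at hcon; linarith
    have h1 : eval (fun j => (r i)⁻¹ * ζ j) P = 0 := by
      rw [← eval_sl, sl, Polynomial.eval_finsetSum]
      have h2 := hrroot i
      rw [hY, Polynomial.eval_finsetSum] at h2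
      have h3 : ∀ n ∈ Finset.range (N + 1),
          (Polynomial.C (h n) * Polynomial.X ^ (N - n) : Polynomial ℂ).eval (r i) =
          ((r i) ^ N / coeff 0 P) * (Polynomial.C (eval ζ (homogeneousComponent n P)) *
            Polynomial.X ^ n : Polynomial ℂ).eval (r i)⁻¹ := by
        intro n hn
        rw [Finset.mem_range] at hn
        simp only [Polynomial.eval_mul, Polynomial.eval_C, Polynomial.eval_pow, Polynomial.eval_X,
          hh]
        have : (r i) ^ N = (r i) ^ (N - n) * (r i) ^ n := by rw [← pow_add]; congr 1; omega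
        have hrn : (r i) ^ n ≠ 0 := pow_ne_zero _ hne
        rw [this, inv_pow]
        field_simp
      rw [Finset.sum_congr rfl h3, ← Finset.mul_sum] at h2
      rcases mul_eq_zero.mp h2 with h4 | h4
      · exact absurd h4 (div_ne_zero (pow_ne_zero _ hne) h0)
      · exact h4
    apply hP _ _ h1
    intro j
    rw [norm_mul, norm_inv, hζ j, mul_one]
    exact inv_lt_one_of_one_lt₀ hcon
  refine ⟨fun i => - r i, fun i => by rw [norm_neg]; exact hrle i, ?_⟩
  intro j hj
  have h1 := MvPolynomial.prod_X_add_C_coeff ℂ (Fin N) (N - j) (by simp)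
  have h2 := congrArg (aeval (fun i => - r i) : MvPolynomial (Fin N) ℂ →ₐ[ℂ] ℂ) h1
  have h3 : (aeval (fun i => - r i) : MvPolynomial (Fin N) ℂ →ₐ[ℂ] ℂ)
      ((∏ i : Fin N, (Polynomial.X + Polynomial.C (X i)) :
        Polynomial (MvPolynomial (Fin N) ℂ)).coeff (N - j)) = Y.coeff (N - j) := by
    have h4 : Y = Polynomial.map (aeval (fun i => - r i) : MvPolynomial (Fin N) ℂ →ₐ[ℂ] ℂ).toRingHom
        (∏ i : Fin N, (Polynomial.X + Polynomial.C (X i))) := by
      rw [hYprod, Polynomial.map_prod]
      apply Finset.prod_congr rfl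
      intro i _
      simp [sub_eq_add_neg]
    rw [h4, Polynomial.coeff_map]
    rfl
  rw [h3, hcoeff j hj] at h2
  have h5 : Fintype.card (Fin N) - (N - j) = j := by simp; omega
  rw [h5] at h2
  exact h2.symm

/-- multipliers from symmetric functions -/
lemma exists_multiplier (P : MvPolynomial (Fin d) ℂ)
    (hP : ∀ z : Fin d → ℂ, (∀ j, ‖z j‖ < 1) → eval z P ≠ 0) (h0 : coeff 0 P ≠ 0)
    (s : Set (Fin d)) (hs : P ∈ supported ℂ s) (q : Polynomial ℂ) :
    ∃ Q : MvPolynomial (Fin d) ℂ, Q ∈ supported ℂ s ∧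
      ∀ ζ : Fin d → ℂ, (∀ j, ‖ζ j‖ = 1) → ∃ b : Fin P.totalDegree → ℂ, (∀ i, ‖b i‖ ≤ 1) ∧
        ∀ c : ℂ, eval (fun j => c * ζ j) (Q * P) =
          coeff 0 P * ∏ i, (q.eval (b i * c) * (1 - b i * c)) := by
  classical
  set N := P.totalDegree with hN
  -- the symmetric polynomial
  set S : MvPolynomial (Fin N) ℂ := ∏ i, Polynomial.aeval (- X i) q with hS
  have hSsym : S.IsSymmetric := by
    intro e
    rw [hS, map_prod]
    have : ∀ i, rename e (Polynomial.aeval (- X i : MvPolynomial (Fin N) ℂ) q) =
        Polynomial.aeval (- X (e i) : MvPolynomial (Fin N) ℂ) q := by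
      intro i
      rw [← Polynomial.aeval_algHom_apply]
      simp
    simp only [this]
    exact Equiv.prod_comp e (fun i => Polynomial.aeval (- X i : MvPolynomial (Fin N) ℂ) q)
  obtain ⟨Φ, hΦ⟩ := (esymmAlgHom_fin_bijective ℂ N).2 ⟨S, hSsym⟩
  have hΦ' : aeval (fun i : Fin N => esymm (Fin N) ℂ (i + 1)) Φ = S := by
    rw [← esymmAlgHom_apply, hΦ]
  refine ⟨aeval (fun i : Fin N => C (coeff 0 P)⁻¹ * homogeneousComponent (i + 1) P) Φ, ?_, ?_⟩
  · set g : Fin N → supported ℂ s := fun i =>
      ⟨C (coeff 0 P)⁻¹ * homogeneousComponent (i + 1) P,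
        Subalgebra.mul_mem _ (Subalgebra.algebraMap_mem _ _) (homog_mem_supported hs _)⟩ with hg
    have := Subalgebra.mvPolynomial_aeval_coe (supported ℂ s) g Φ
    change (aeval (fun i => ((g i : supported ℂ s) : MvPolynomial (Fin d) ℂ))) Φ ∈ supported ℂ s
    rw [this]
    exact (aeval g Φ).2
  · intro ζ hζ
    obtain ⟨c, hc, hce⟩ := exists_factor P hP h0 ζ hζ
    refine ⟨fun i => - c i, fun i => by rw [norm_neg]; exact hc i, fun x => ?_⟩
    rw [map_mul]
    have hhom : ∀ j ≤ N, aeval (fun i => x * c i) (esymm (Fin N) ℂ j) =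
        eval (fun l => x * ζ l) (homogeneousComponent j P) / coeff 0 P := by
      intro j hj
      rw [eval_smul_homog (homogeneousComponent_isHomogeneous j P), mul_div_assoc, ← hce j hj]
      exact aeval_esymm_smul c x j
    have hQ : eval (fun l => x * ζ l)
        (aeval (fun i : Fin N => C (coeff 0 P)⁻¹ * homogeneousComponent (i + 1) P) Φ) =
        ∏ i, q.eval (- c i * x) := by
      have h1 : eval (fun l => x * ζ l)
          (aeval (fun i : Fin N => C (coeff 0 P)⁻¹ * homogeneousComponent (i + 1) P) Φ) =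
          aeval (fun i : Fin N => eval (fun l => x * ζ l)
            (C (coeff 0 P)⁻¹ * homogeneousComponent (i + 1) P)) Φ := by
        have := comp_aeval_apply (f := fun i : Fin N =>
          C (coeff 0 P)⁻¹ * homogeneousComponent (i + 1) P)
          (φ := (aeval (fun l => x * ζ l) : MvPolynomial (Fin d) ℂ →ₐ[ℂ] ℂ)) Φ
        simpa [MvPolynomial.aeval_eq_eval] using this
      have h2 : aeval (fun i => x * c i)
          (aeval (fun i : Fin N => esymm (Fin N) ℂ (i + 1)) Φ) =
          aeval (fun i : Fin N => aeval (fun i => x * c i) (esymm (Fin N) ℂ (i + 1))) Φ := by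
        exact comp_aeval_apply (f := fun i : Fin N => esymm (Fin N) ℂ (i + 1))
          (φ := (aeval (fun i => x * c i) : MvPolynomial (Fin N) ℂ →ₐ[ℂ] ℂ)) Φ
      have h3 : (fun i : Fin N => eval (fun l => x * ζ l)
            (C (coeff 0 P)⁻¹ * homogeneousComponent (i + 1) P)) =
          fun i : Fin N => aeval (fun i => x * c i) (esymm (Fin N) ℂ (i + 1)) := by
        funext i
        rw [hhom _ (by have := i.2; omega), map_mul, eval_C]
        ring
      rw [h1, h3, ← h2, hΦ', hS, map_prod]
      apply Finset.prod_congr rfl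
      intro i _
      have h4 : aeval (fun i => x * c i) (Polynomial.aeval (- X i : MvPolynomial (Fin N) ℂ) q) =
          Polynomial.aeval (aeval (fun i => x * c i) (- X i : MvPolynomial (Fin N) ℂ)) q :=
        (Polynomial.aeval_algHom_apply _ _ _).symm
      rw [h4, Polynomial.coe_aeval_eq_eval]
      congr 1
      simp
      ring
    have hPv : eval (fun l => x * ζ l) P = coeff 0 P * ∏ i, (1 + c i * x) := by
      have h1 : ∏ i, (1 + c i * x) = ∑ j ∈ Finset.range (N + 1),
          aeval (fun i => x * c i) (esymm (Fin N) ℂ j) := by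
        have h2 := MvPolynomial.prod_C_add_X_eq_sum_esymm ℂ (Fin N)
        have h3 := congrArg (fun p => Polynomial.eval 1 (Polynomial.map
          (aeval (fun i => x * c i) : MvPolynomial (Fin N) ℂ →ₐ[ℂ] ℂ).toRingHom p)) h2
        simp only [Polynomial.map_prod, Polynomial.map_sum, Polynomial.eval_prod,
          Polynomial.eval_finsetSum, Polynomial.map_mul, Polynomial.map_pow,
          Polynomial.map_add, Polynomial.map_X, Polynomial.map_C, Polynomial.eval_add,
          Polynomial.eval_mul, Polynomial.eval_pow, Polynomial.eval_X, Polynomial.eval_C,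
          one_pow, mul_one, Fintype.card_fin] at h3
        rw [show (∏ i, (1 + c i * x)) = ∏ i, (1 + x * c i) from
          Finset.prod_congr rfl fun i _ => by ring]
        have hx : ∀ i, (aeval (fun i => x * c i) : MvPolynomial (Fin N) ℂ →ₐ[ℂ] ℂ).toRingHom (X i) =
            x * c i := fun i => aeval_X (fun i => x * c i) i
        simp only [hx] at h3
        rw [h3]
        rfl
      rw [h1]
      conv_lhs => rw [← sum_homogeneousComponent P]
      rw [map_sum, Finset.mul_sum]
      apply Finset.sum_congr rfl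
      intro j hj
      rw [hhom j (by rw [Finset.mem_range] at hj; omega)]
      field_simp
    rw [hQ, hPv]
    rw [show (∏ i, (q.eval (- c i * x) * (1 - - c i * x))) =
      (∏ i, q.eval (- c i * x)) * ∏ i, (1 + c i * x) from by
        rw [← Finset.prod_mul_distrib]
        apply Finset.prod_congr rfl
        intro i _
        ring]
    ring

end Pool.MP4ac1fb
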