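import Pool.Agent.H.MP_4ac1fb_an.Slices

/-!
Polynomials without zeros in the polydisc, depending on `m` variables, are cyclic for `t ≤ 1/m`.
-/

namespace Pool.MP4ac1fb

open MvPolynomial

variable {d : ℕ}

/-- coefficientwise domination -/
def Dom (f : Polynomial ℂ) (F : Polynomial ℝ) : Prop := ∀ n, ‖f.coeff n‖ ≤ F.coeff n

lemma Dom.mul {f g : Polynomial ℂ} {F G : Polynomial ℝ} (hf : Dom f F) (hg : Dom g G) :
    Dom (f * g) (F * G) := by
  intro n
  rw [Polynomial.coeff_mul, Polynomial.coeff_mul]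
  refine (norm_sum_le _ _).trans (Finset.sum_le_sum fun x _ => ?_)
  rw [norm_mul]
  exact mul_le_mul (hf _) (hg _) (norm_nonneg _) ((norm_nonneg _).trans (hf _))

lemma Dom.prod {ι : Type*} (s : Finset ι) (f : ι → Polynomial ℂ) (F : Polynomial ℝ)
    (h : ∀ i ∈ s, Dom (f i) F) : Dom (∏ i ∈ s, f i) (F ^ s.card) := by
  classical
  induction s using Finset.induction_on with
  | empty =>
    intro n
    rw [Finset.prod_empty, Finset.card_empty, pow_zero, Polynomial.coeff_one, Polynomial.coeff_one]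
    split_ifs <;> simp
  | insert a s ha ih =>
    rw [Finset.prod_insert ha, Finset.card_insert_of_notMem ha, pow_succ']
    exact (h a (Finset.mem_insert_self a s)).mul
      (ih fun i hi => h i (Finset.mem_insert_of_mem hi))

/-- harmonic sum -/
noncomputable def hs (M : ℕ) : ℝ := ∑ k ∈ Finset.range M, 1 / ((k : ℝ) + 1)

lemma hs_pos {M : ℕ} (hM : 1 ≤ M) : 0 < hs M := by
  apply Finset.sum_pos
  · intro k _; positivity
  · exact ⟨0, Finset.mem_range.mpr hM⟩

/-- the averaging polynomial -/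
noncomputable def gh (M : ℕ) : Polynomial ℝ :=
  ∑ k ∈ Finset.range M, Polynomial.C (1 / (((k : ℝ) + 1) * hs M)) * Polynomial.X ^ (k + 1)

lemma coeff_gh_nonneg (M n : ℕ) : 0 ≤ (gh M).coeff n := by
  rw [gh, Polynomial.finsetSum_coeff]
  apply Finset.sum_nonneg
  intro k _
  rw [Polynomial.coeff_C_mul, Polynomial.coeff_X_pow]
  have : 0 ≤ hs M := Finset.sum_nonneg fun k _ => by positivity
  split_ifs
  · rw [mul_one]; positivity
  · simp

lemma coeff_gh_zero (M : ℕ) : (gh M).coeff 0 = 0 := by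
  rw [gh, Polynomial.finsetSum_coeff]
  apply Finset.sum_eq_zero
  intro k _
  rw [Polynomial.coeff_C_mul, Polynomial.coeff_X_pow]
  simp

lemma eval_one_gh {M : ℕ} (hM : 1 ≤ M) : (gh M).eval 1 = 1 := by
  rw [gh, Polynomial.eval_finsetSum]
  simp only [Polynomial.eval_mul, Polynomial.eval_C, Polynomial.eval_pow, Polynomial.eval_X,
    one_pow, mul_one]
  have h := hs_pos hM
  have : ∀ k ∈ Finset.range M, 1 / (((k : ℝ) + 1) * hs M) = (1 / ((k : ℝ) + 1)) / hs M := by
    intro k _; rw [div_div]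
  rw [Finset.sum_congr rfl this, ← Finset.sum_div]
  exact div_self h.ne'

lemma derivative_gh {M : ℕ} (hM : 1 ≤ M) (n : ℕ) :
    (Polynomial.derivative (gh M)).coeff n ≤ 1 / hs M := by
  have h := hs_pos hM
  rw [gh, Polynomial.derivative_sum, Polynomial.finsetSum_coeff]
  have h1 : ∀ k ∈ Finset.range M, (Polynomial.derivative
      (Polynomial.C (1 / (((k : ℝ) + 1) * hs M)) * Polynomial.X ^ (k + 1))).coeff n =
      if n = k then 1 / hs M else 0 := by
    intro k _
    rw [Polynomial.derivative_C_mul_X_pow, Polynomial.coeff_C_mul, Polynomial.coeff_X_pow]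
    simp only [Nat.add_sub_cancel]
    split_ifs
    · push_cast
      field_simp
    · simp
  rw [Finset.sum_congr rfl h1, Finset.sum_ite_eq]
  split_ifs
  · exact le_refl _
  · positivity

/-- polynomials with nonnegative coefficients -/
def NN (f : Polynomial ℝ) : Prop := ∀ n, 0 ≤ f.coeff n

lemma NN.mul {f g : Polynomial ℝ} (hf : NN f) (hg : NN g) : NN (f * g) := by
  intro n
  rw [Polynomial.coeff_mul]
  exact Finset.sum_nonneg fun x _ => mul_nonneg (hf _) (hg _)

lemma NN.pow {f : Polynomial ℝ} (hf : NN f) (n : ℕ) : NN (f ^ n) := by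
  induction n with
  | zero => intro k; rw [pow_zero, Polynomial.coeff_one]; split_ifs <;> simp
  | succ n ih => rw [pow_succ]; exact ih.mul hf

lemma NN.sum_le_eval {f : Polynomial ℝ} (hf : NN f) (s : Finset ℕ) :
    ∑ n ∈ s, f.coeff n ≤ f.eval 1 := by
  rw [Polynomial.eval_eq_sum_range]
  simp only [one_pow, mul_one]
  calc ∑ n ∈ s, f.coeff n = ∑ n ∈ s.filter (fun n => n < f.natDegree + 1), f.coeff n := by
        symm
        apply Finset.sum_subset (Finset.filter_subset _ _)
        intro n hn hn'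
        apply Polynomial.coeff_eq_zero_of_natDegree_lt
        by_contra hcon
        exact hn' (Finset.mem_filter.mpr ⟨hn, by omega⟩)
    _ ≤ ∑ n ∈ Finset.range (f.natDegree + 1), f.coeff n := by
        apply Finset.sum_le_sum_of_subset_of_nonneg
        · intro n hn
          rw [Finset.mem_filter] at hn
          exact Finset.mem_range.mpr hn.2
        · intro n _ _; exact hf n

lemma coeff_mul_le {f g : Polynomial ℝ} (hf : NN f) (B : ℝ) (hB : 0 ≤ B)
    (hg : ∀ n, g.coeff n ≤ B) (n : ℕ) : (f * g).coeff n ≤ f.eval 1 * B := by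
  rw [Polynomial.coeff_mul, Finset.Nat.sum_antidiagonal_eq_sum_range_succ_mk]
  calc ∑ k ∈ Finset.range n.succ, f.coeff k * g.coeff (n - k)
      ≤ ∑ k ∈ Finset.range n.succ, f.coeff k * B :=
        Finset.sum_le_sum fun k _ => mul_le_mul_of_nonneg_left (hg _) (hf _)
    _ = (∑ k ∈ Finset.range n.succ, f.coeff k) * B := by rw [Finset.sum_mul]
    _ ≤ f.eval 1 * B := mul_le_mul_of_nonneg_right (hf.sum_le_eval _) hB

/-- the dominating polynomial -/
noncomputable def dm (M N : ℕ) : Polynomial ℝ := (1 + gh M) ^ N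

lemma nn_one_add_gh (M : ℕ) : NN (1 + gh M) := by
  intro n
  rw [Polynomial.coeff_add, Polynomial.coeff_one]
  have := coeff_gh_nonneg M n
  split_ifs <;> linarith

lemma dm_coeff_bound {M : ℕ} (hM : 1 ≤ M) (N n : ℕ) :
    (n : ℝ) * (dm M N).coeff n ≤ N * 2 ^ N / hs M := by
  have h := hs_pos hM
  rcases Nat.eq_zero_or_pos n with hn | hn
  · subst hn; simp only [Nat.cast_zero, zero_mul]; positivity
  obtain ⟨k, rfl⟩ : ∃ k, n = k + 1 := ⟨n - 1, by omega⟩
  have h1 : ((k + 1 : ℕ) : ℝ) * (dm M N).coeff (k + 1) =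
      (Polynomial.derivative (dm M N)).coeff k := by
    rw [Polynomial.coeff_derivative]; push_cast; ring
  rw [h1, dm, Polynomial.derivative_pow]
  have h2 : Polynomial.derivative (1 + gh M) = Polynomial.derivative (gh M) := by simp
  rw [h2, mul_assoc, Polynomial.coeff_C_mul]
  have h3 := coeff_mul_le ((nn_one_add_gh M).pow (N - 1)) (1 / hs M) (by positivity)
    (derivative_gh hM) k
  have h4 : ((1 + gh M) ^ (N - 1)).eval 1 = 2 ^ (N - 1) := by
    rw [Polynomial.eval_pow, Polynomial.eval_add, Polynomial.eval_one, eval_one_gh hM]; norm_num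
  rw [h4] at h3
  have h5 : (2 : ℝ) ^ (N - 1) ≤ 2 ^ N := pow_le_pow_right₀ (by norm_num) (Nat.sub_le _ _)
  calc (N : ℝ) * ((1 + gh M) ^ (N - 1) * Polynomial.derivative (gh M)).coeff k
      ≤ N * (2 ^ (N - 1) * (1 / hs M)) := mul_le_mul_of_nonneg_left h3 (by positivity)
    _ ≤ N * (2 ^ N * (1 / hs M)) := by
        apply mul_le_mul_of_nonneg_left _ (by positivity)
        exact mul_le_mul_of_nonneg_right h5 (by positivity)
    _ = N * 2 ^ N / hs M := by ring

lemma dm_energy {M : ℕ} (hM : 1 ≤ M) (N : ℕ) (s : Finset ℕ) (hs0 : ∀ n ∈ s, 1 ≤ n) :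
    ∑ n ∈ s, (1 + (n : ℝ)) * (dm M N).coeff n ^ 2 ≤ 2 * (N * 2 ^ N / hs M) * 2 ^ N := by
  have h := hs_pos hM
  have hnn : NN (dm M N) := (nn_one_add_gh M).pow N
  have h4 : (dm M N).eval 1 = 2 ^ N := by
    rw [dm, Polynomial.eval_pow, Polynomial.eval_add, Polynomial.eval_one, eval_one_gh hM]
    norm_num
  have h5 := hnn.sum_le_eval s
  rw [h4] at h5
  calc ∑ n ∈ s, (1 + (n : ℝ)) * (dm M N).coeff n ^ 2
      ≤ ∑ n ∈ s, 2 * (N * 2 ^ N / hs M) * (dm M N).coeff n := by
        apply Finset.sum_le_sum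
        intro n hn
        have h1 : (1 : ℝ) ≤ n := by exact_mod_cast hs0 n hn
        have h2 := dm_coeff_bound hM N n
        have h3 := hnn n
        have h6 : (1 + (n : ℝ)) * (dm M N).coeff n ≤ 2 * (N * 2 ^ N / hs M) := by nlinarith
        calc (1 + (n : ℝ)) * (dm M N).coeff n ^ 2
            = ((1 + (n : ℝ)) * (dm M N).coeff n) * (dm M N).coeff n := by ring
          _ ≤ _ := mul_le_mul_of_nonneg_right h6 h3
    _ = 2 * (N * 2 ^ N / hs M) * ∑ n ∈ s, (dm M N).coeff n := by rw [Finset.mul_sum]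
    _ ≤ _ := mul_le_mul_of_nonneg_left h5 (by positivity)

/-- a multiplier making `P` close to one -/
lemma exists_good_multiplier (P : MvPolynomial (Fin d) ℂ)
    (hP : ∀ z : Fin d → ℂ, (∀ j, ‖z j‖ < 1) → eval z P ≠ 0)
    (s : Set (Fin d)) (hs' : P ∈ supported ℂ s) (ε : ℝ) (hε : 0 < ε) :
    ∃ Q : MvPolynomial (Fin d) ℂ, Q ∈ supported ℂ s ∧
      ∑ k ∈ (1 - Q * P).support, (1 + ((∑ j, k j : ℕ) : ℝ)) * ‖coeff k (1 - Q * P)‖ ^ 2 < ε := by
  classical
  have h0 : coeff 0 P ≠ 0 := by
    have := hP 0 (by intro j; simp)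
    rwa [eval_zero, constantCoeff_eq] at this
  set N := P.totalDegree with hN
  -- choose `M`
  obtain ⟨M, hM1, hM2⟩ : ∃ M : ℕ, 1 ≤ M ∧ 2 * (N * 2 ^ N / hs M) * 2 ^ N < ε := by
    have htend : Filter.Tendsto (fun M : ℕ => hs M) Filter.atTop Filter.atTop := by
      have := Real.tendsto_sum_range_one_div_nat_succ_atTop
      exact this
    have h1 := (htend.eventually_gt_atTop (2 * (N * 2 ^ N) * 2 ^ N / ε)).and
      (Filter.eventually_ge_atTop 1)
    obtain ⟨M, hM1, hM2⟩ := h1.exists
    refine ⟨M, hM2, ?_⟩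
    have hpos := hs_pos hM2
    rw [div_lt_iff₀ hε] at hM1
    have h2 : 2 * (N * 2 ^ N / hs M) * 2 ^ N = (2 * (N * 2 ^ N) * 2 ^ N) / hs M := by ring
    rw [h2, div_lt_iff₀ hpos]
    linarith
  -- the one-variable polynomial
  set g : Polynomial ℂ := 1 - (gh M).map Complex.ofRealHom with hg
  have hroot : g.IsRoot 1 := by
    rw [Polynomial.IsRoot, hg, Polynomial.eval_sub, Polynomial.eval_one]
    have h1 := eval_one_gh hM1
    have h2 : ((gh M).map Complex.ofRealHom).eval 1 = (((gh M).eval 1 : ℝ) : ℂ) := by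
      have := Polynomial.eval_map_apply (f := Complex.ofRealHom) (p := gh M) (x := 1)
      simpa using this
    rw [h2, h1]; simp
  obtain ⟨q0, hq0⟩ := Polynomial.dvd_iff_isRoot.mpr hroot
  have hq : ∀ w : ℂ, (- q0).eval w * (1 - w) = g.eval w := by
    intro w
    rw [hq0]
    simp
    ring
  obtain ⟨Q0, hQ0s, hQ0⟩ := exists_multiplier P hP h0 s hs' (- q0)
  refine ⟨C (coeff 0 P)⁻¹ * Q0, Subalgebra.mul_mem _ (Subalgebra.algebraMap_mem _ _) hQ0s, ?_⟩
  set H := 1 - C (coeff 0 P)⁻¹ * Q0 * P with hH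
  -- homogeneous components
  have hcomp : ∀ ζ : Fin d → ℂ, (∀ j, ‖ζ j‖ = 1) → ∀ n, ‖eval ζ (homogeneousComponent n H)‖ ≤
      if n = 0 then 0 else (dm M N).coeff n := by
    intro ζ hζ n
    obtain ⟨b, hb, hbe⟩ := hQ0 ζ hζ
    have hsl : sl H ζ = 1 - ∏ i, g.comp (Polynomial.C (b i) * Polynomial.X) := by
      apply Polynomial.funext
      intro c
      rw [eval_sl, hH, map_sub, map_one, mul_assoc, map_mul, eval_C, hbe c,
        Polynomial.eval_sub, Polynomial.eval_one, Polynomial.eval_prod]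
      congr 1
      rw [← mul_assoc, inv_mul_cancel₀ h0, one_mul]
      apply Finset.prod_congr rfl
      intro i _
      rw [hq, Polynomial.eval_comp]
      simp
    rw [← coeff_sl, hsl, Polynomial.coeff_sub, Polynomial.coeff_one]
    have hg0 : g.coeff 0 = 1 := by
      rw [hg, Polynomial.coeff_sub, Polynomial.coeff_one, Polynomial.coeff_map, coeff_gh_zero]
      simp
    split_ifs with hn
    · subst hn
      have : (∏ i, g.comp (Polynomial.C (b i) * Polynomial.X)).coeff 0 = 1 := by
        rw [Polynomial.coeff_zero_eq_eval_zero, Polynomial.eval_prod]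
        apply Finset.prod_eq_one
        intro i _
        rw [Polynomial.eval_comp]
        simp only [Polynomial.eval_mul, Polynomial.eval_C, Polynomial.eval_X, mul_zero]
        rw [← Polynomial.coeff_zero_eq_eval_zero, hg0]
      rw [this]; simp
    · rw [zero_sub, norm_neg]
      have hd : Dom (∏ i : Fin P.totalDegree, g.comp (Polynomial.C (b i) * Polynomial.X))
          ((1 + gh M) ^ (Finset.univ : Finset (Fin P.totalDegree)).card) := by
        apply Dom.prod
        intro i _ k
        rw [Polynomial.comp_C_mul_X_coeff, norm_mul, norm_pow]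
        have h1 : ‖b i‖ ^ k ≤ 1 := pow_le_one₀ (norm_nonneg _) (hb i)
        have h2 : ‖g.coeff k‖ ≤ (1 + gh M).coeff k := by
          by_cases hk : k = 0
          · subst hk
            rw [hg0, norm_one, Polynomial.coeff_add, Polynomial.coeff_one, coeff_gh_zero]
            simp
          · rw [hg, Polynomial.coeff_sub, Polynomial.coeff_one, if_neg hk, zero_sub, norm_neg,
              Polynomial.coeff_map, Polynomial.coeff_add, Polynomial.coeff_one, if_neg hk, zero_add]
            simp only [Complex.ofRealHom_eq_coe, Complex.norm_real, Real.norm_eq_abs]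
            rw [abs_of_nonneg (coeff_gh_nonneg M k)]
        calc ‖g.coeff k‖ * ‖b i‖ ^ k ≤ ‖g.coeff k‖ * 1 :=
              mul_le_mul_of_nonneg_left h1 (norm_nonneg _)
          _ ≤ _ := by rw [mul_one]; exact h2
      have := hd n
      rw [Finset.card_univ, Fintype.card_fin] at this
      exact this
  have hnn : NN (dm M N) := (nn_one_add_gh M).pow N
  -- sum over components
  have hsum : ∑ k ∈ H.support, (1 + ((∑ j, k j : ℕ) : ℝ)) * ‖coeff k H‖ ^ 2 ≤
      ∑ n ∈ (Finset.range (H.totalDegree + 1)).erase 0, (1 + (n : ℝ)) * (dm M N).coeff n ^ 2 := by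
    have hfib : ∑ k ∈ H.support, (1 + ((∑ j, k j : ℕ) : ℝ)) * ‖coeff k H‖ ^ 2 =
        ∑ n ∈ Finset.range (H.totalDegree + 1), ∑ k ∈ H.support.filter (fun k => ∑ j, k j = n),
          (1 + ((∑ j, k j : ℕ) : ℝ)) * ‖coeff k H‖ ^ 2 := by
      symm
      apply Finset.sum_fiberwise_of_maps_to
      intro k hk
      rw [Finset.mem_range]
      have := MvPolynomial.le_totalDegree hk
      have h2 : (k.sum fun _ e => e) = ∑ j, k j := by
        rw [Finsupp.sum_fintype _ _ (fun _ => rfl)]
      omega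
    rw [hfib]
    have hin : ∀ n, ∑ k ∈ H.support.filter (fun k => ∑ j, k j = n),
          (1 + ((∑ j, k j : ℕ) : ℝ)) * ‖coeff k H‖ ^ 2 ≤
        (1 + (n : ℝ)) * (if n = 0 then 0 else (dm M N).coeff n) ^ 2 := by
      intro n
      have h1 : ∑ k ∈ H.support.filter (fun k => ∑ j, k j = n),
          (1 + ((∑ j, k j : ℕ) : ℝ)) * ‖coeff k H‖ ^ 2 =
          (1 + (n : ℝ)) * ∑ k ∈ (homogeneousComponent n H).support,
            ‖coeff k (homogeneousComponent n H)‖ ^ 2 := by
        rw [Finset.mul_sum]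
        have hsup : (homogeneousComponent n H).support =
            H.support.filter (fun k => ∑ j, k j = n) := by
          ext k
          rw [mem_support_iff, coeff_homogeneousComponent, Finset.mem_filter, mem_support_iff]
          have : k.degree = ∑ j, k j := by
            rw [Finsupp.degree_eq_sum]
          rw [this]
          split_ifs with h <;> simp [h]
        rw [hsup]
        apply Finset.sum_congr rfl
        intro k hk
        have hk2 := (Finset.mem_filter.mp hk).2
        rw [hk2, coeff_homogeneousComponent]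
        have : k.degree = ∑ j, k j := by
          rw [Finsupp.degree_eq_sum]
        rw [this, if_pos hk2]
      rw [h1]
      apply mul_le_mul_of_nonneg_left _ (by positivity)
      exact coeff_norm_le_sup _ _ (fun ζ hζ => hcomp ζ hζ n)
    calc _ ≤ ∑ n ∈ Finset.range (H.totalDegree + 1),
          (1 + (n : ℝ)) * (if n = 0 then 0 else (dm M N).coeff n) ^ 2 :=
          Finset.sum_le_sum fun n _ => hin n
      _ = ∑ n ∈ (Finset.range (H.totalDegree + 1)).erase 0,
          (1 + (n : ℝ)) * (if n = 0 then 0 else (dm M N).coeff n) ^ 2 := by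
          rw [Finset.sum_erase]
          simp
      _ = _ := by
          apply Finset.sum_congr rfl
          intro n hn
          rw [if_neg (Finset.ne_of_mem_erase hn)]
  refine lt_of_le_of_lt hsum (lt_of_le_of_lt (dm_energy hM1 N _ ?_) hM2)
  intro n hn
  exact Nat.one_le_iff_ne_zero.mpr (Finset.ne_of_mem_erase hn)

/-- comparison of weights -/
lemma wt_le_total (J : Finset (Fin d)) (t : ℝ) (ht : t * J.card ≤ 1) (k : Fin d →₀ ℕ)
    (hk : k.support ⊆ J) : wt t k ≤ 1 + ((∑ j, k j : ℕ) : ℝ) := by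
  classical
  have h1 : wt t k = ∏ j ∈ J, ((k j : ℝ) + 1) ^ t := by
    unfold wt
    symm
    apply Finset.prod_subset (Finset.subset_univ J)
    intro j _ hj
    have : k j = 0 := by
      by_contra h
      exact hj (hk (Finsupp.mem_support_iff.mpr h))
    rw [this]; simp
  rcases J.eq_empty_or_nonempty with hJ | hJ
  · rw [h1, hJ, Finset.prod_empty]
    have : (0 : ℝ) ≤ ((∑ j, k j : ℕ) : ℝ) := by positivity
    linarith
  · have hm : (0 : ℝ) < J.card := by exact_mod_cast hJ.card_pos
    have hm1 : (1 : ℝ) ≤ J.card := by exact_mod_cast hJ.card_pos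
    have ht' : t ≤ 1 / J.card := by rw [le_div_iff₀ hm]; exact ht
    have h2 := Real.geom_mean_le_arith_mean_weighted J (fun _ => 1 / (J.card : ℝ))
      (fun j => (k j : ℝ) + 1) (fun _ _ => by positivity)
      (by rw [Finset.sum_const, nsmul_eq_mul]; field_simp) (fun _ _ => by positivity)
    have h3 : ∑ j ∈ J, (k j : ℝ) = ((∑ j, k j : ℕ) : ℝ) := by
      push_cast
      apply Finset.sum_subset (Finset.subset_univ J)
      intro j _ hj
      have : k j = 0 := by
        by_contra h
        exact hj (hk (Finsupp.mem_support_iff.mpr h))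
      rw [this]; simp
    rw [h1]
    calc ∏ j ∈ J, ((k j : ℝ) + 1) ^ t ≤ ∏ j ∈ J, ((k j : ℝ) + 1) ^ (1 / (J.card : ℝ)) := by
          apply Finset.prod_le_prod
          · intro j _; positivity
          · intro j _
            apply Real.rpow_le_rpow_of_exponent_le _ ht'
            have : (0 : ℝ) ≤ k j := by positivity
            linarith
      _ ≤ ∑ j ∈ J, 1 / (J.card : ℝ) * ((k j : ℝ) + 1) := h2
      _ = 1 + (1 / (J.card : ℝ)) * ∑ j ∈ J, (k j : ℝ) := by
          rw [← Finset.mul_sum, Finset.sum_add_distrib, Finset.sum_const, nsmul_eq_mul, mul_one]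
          field_simp
          ring
      _ ≤ 1 + ((∑ j, k j : ℕ) : ℝ) := by
          rw [h3]
          have h4 : (0 : ℝ) ≤ ((∑ j, k j : ℕ) : ℝ) := by positivity
          have h5 : 1 / (J.card : ℝ) ≤ 1 := by rw [div_le_one hm]; exact hm1
          nlinarith

theorem cyclic_of_few_vars (t : ℝ) (P : MvPolynomial (Fin d) ℂ)
    (hP : ∀ z : Fin d → ℂ, (∀ j, ‖z j‖ < 1) → eval z P ≠ 0)
    (ht : t * (P.vars.card : ℝ) ≤ 1) : ShiftCyclic t P := by
  classical
  rw [shiftCyclic_iff]
  intro ε hε
  have hPs : P ∈ supported ℂ (P.vars : Set (Fin d)) := mem_supported_vars P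
  obtain ⟨Q, hQs, hQ⟩ := exists_good_multiplier P hP _ hPs (ε ^ 2) (by positivity)
  refine ⟨Q, ?_⟩
  have hHs : (1 - Q * P) ∈ supported ℂ (P.vars : Set (Fin d)) :=
    Subalgebra.sub_mem _ (Subalgebra.one_mem _) (Subalgebra.mul_mem _ hQs hPs)
  have h1 : ‖W t (1 - Q * P)‖ ^ 2 < ε ^ 2 := by
    refine lt_of_le_of_lt ?_ hQ
    rw [norm_W_sq]
    apply Finset.sum_le_sum
    intro k hk
    apply mul_le_mul_of_nonneg_right _ (sq_nonneg _)
    apply wt_le_total P.vars t ht
    intro j hj
    rw [mem_supported] at hHs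
    exact hHs ((mem_vars_iff_mem_support j).mpr ⟨k, hk, hj⟩)
  exact lt_of_pow_lt_pow_left₀ 2 hε.le h1

end Pool.MP4ac1fb
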