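import Pool.Agent.H.MP_4ac1fb_an.NonCyclic
import Pool.Agent.H.MP_4ac1fb_an.Upper

/-!
The critical exponent of an irreducible toral polynomial is the reciprocal of the number of its
variables.
-/

namespace Pool.MP4ac1fb

open MvPolynomial

variable {d : ℕ}

lemma gp_update {M : ℕ} (a : Fin d → Fin M) (j : Fin d) (b : Fin M) :
    gp M (Function.update a j b) = Function.update (gp M a) j (rt M ^ (b : ℕ)) := by
  funext i
  by_cases hij : i = j
  · subst hij; simp [gp]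
  · simp [gp, hij]

/-- the thin piece of the grid near the zero set -/
noncomputable def thinSet (Q : MvPolynomial (Fin d) ℂ) (p : Fin d → ℂ) (δ ε : ℝ) (M : ℕ) :
    Finset (Fin d → Fin M) := by
  classical
  exact Finset.univ.filter fun a => (∀ i, ‖gp M a i - p i‖ < δ) ∧ ‖eval (gp M a) Q‖ < ε

lemma mem_thinSet {Q : MvPolynomial (Fin d) ℂ} {p : Fin d → ℂ} {δ ε : ℝ} {M : ℕ}
    {a : Fin d → Fin M} : a ∈ thinSet Q p δ ε M ↔
      (∀ i, ‖gp M a i - p i‖ < δ) ∧ ‖eval (gp M a) Q‖ < ε := by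
  classical
  simp [thinSet]

lemma thin_fibre {Q : MvPolynomial (Fin d) ℂ} {p : Fin d → ℂ} {J : Finset (Fin d)} {δ c : ℝ}
    (hc : 0 < c)
    (hlow : ∀ j ∈ J, ∀ z : Fin d → ℂ, (∀ i, ‖z i - p i‖ < δ) → ∀ w w' : ℂ,
      ‖w - p j‖ < δ → ‖w' - p j‖ < δ →
      c * ‖w - w'‖ ≤ ‖eval (Function.update z j w) Q - eval (Function.update z j w') Q‖)
    {ε : ℝ} (hε : 0 < ε) (hεc : 4 * ε ≤ c) {M : ℕ} (hM : c / (2 * ε) ≤ M) (j : Fin d)
    (hj : j ∈ J) (a : Fin d → Fin M) :
    ((Finset.univ.filter fun b => Function.update a j b ∈ thinSet Q p δ ε M).card : ℝ) ≤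
      16 * ε / c * M := by
  classical
  rcases (Finset.univ.filter fun b => Function.update a j b ∈ thinSet Q p δ ε M).eq_empty_or_nonempty
    with h0 | ⟨b0, hb0⟩
  · rw [h0, Finset.card_empty, Nat.cast_zero]; positivity
  have hb0' : Function.update a j b0 ∈ thinSet Q p δ ε M := (Finset.mem_filter.mp hb0).2
  set a0 := Function.update a j b0 with ha0
  obtain ⟨h1, h2⟩ := mem_thinSet.mp hb0'
  have hM0 : M ≠ 0 := by
    intro h
    have : 0 < c / (2 * ε) := by positivity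
    rw [h, Nat.cast_zero] at hM; linarith
  set N := ⌊c / (2 * ε)⌋₊ with hN
  have h3 : (N : ℝ) ≤ c / (2 * ε) := Nat.floor_le (by positivity)
  have h4 : c / (2 * ε) < N + 1 := Nat.lt_floor_add_one _
  have h5 : 2 ≤ c / (2 * ε) := by rw [le_div_iff₀ (by positivity)]; linarith
  have hN1 : 1 ≤ N := by
    have : (1 : ℝ) < N + 1 := by linarith
    by_contra h
    have h' : N = 0 := by omega
    rw [h', Nat.cast_zero] at this
    linarith
  have hNM : N ≤ M := by
    have : (N : ℝ) ≤ M := h3.trans hM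
    exact_mod_cast this
  have hNpos : (0 : ℝ) < N := by exact_mod_cast hN1
  have hsub : (Finset.univ.filter fun b => Function.update a j b ∈ thinSet Q p δ ε M) ⊆
      Finset.univ.filter fun b : Fin M => ‖rt M ^ (b : ℕ) - rt M ^ (b0 : ℕ)‖ ≤ 1 / N := by
    intro b hb
    have hb' : Function.update a j b ∈ thinSet Q p δ ε M := (Finset.mem_filter.mp hb).2
    obtain ⟨h6, h7⟩ := mem_thinSet.mp hb'
    refine Finset.mem_filter.mpr ⟨Finset.mem_univ _, ?_⟩
    have h8 : gp M (Function.update a j b) =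
        Function.update (gp M a0) j (rt M ^ (b : ℕ)) := by
      rw [ha0, gp_update, gp_update, Function.update_idem]
    have h9 : gp M a0 = Function.update (gp M a0) j (rt M ^ (b0 : ℕ)) := by
      rw [ha0, gp_update, Function.update_idem]
    have h10 : ‖rt M ^ (b : ℕ) - p j‖ < δ := by
      have := h6 j
      rwa [h8, Function.update_self] at this
    have h11 : ‖rt M ^ (b0 : ℕ) - p j‖ < δ := by
      have := h1 j
      rwa [h9, Function.update_self] at this
    have h12 := hlow j hj (gp M a0) h1 _ _ h10 h11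
    rw [← h8, ← h9] at h12
    have h13 : ‖eval (gp M (Function.update a j b)) Q - eval (gp M a0) Q‖ ≤ 2 * ε :=
      (norm_sub_le _ _).trans (by linarith)
    have h14 : c * ‖rt M ^ (b : ℕ) - rt M ^ (b0 : ℕ)‖ ≤ 2 * ε := h12.trans h13
    have h15 : ‖rt M ^ (b : ℕ) - rt M ^ (b0 : ℕ)‖ ≤ 2 * ε / c := by
      rw [le_div_iff₀ hc]; linarith
    refine h15.trans ?_
    rw [div_le_div_iff₀ hc hNpos]
    rw [le_div_iff₀ (by positivity)] at h3
    linarith
  have h16 : ‖rt M ^ (b0 : ℕ)‖ = 1 := by rw [norm_pow, norm_rt hM0, one_pow]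
  have h17 := count_upper hN1 hNM (rt M ^ (b0 : ℕ)) h16
  have h18 : ((Finset.univ.filter fun b => Function.update a j b ∈ thinSet Q p δ ε M).card : ℝ) ≤
      4 * M / N := by
    refine le_trans ?_ h17
    exact_mod_cast Finset.card_le_card hsub
  refine h18.trans ?_
  rw [div_le_iff₀ hNpos]
  have h19 : c / (4 * ε) ≤ N := by
    have : c / (4 * ε) = (c / (2 * ε)) / 2 := by field_simp; ring
    rw [this]; linarith
  have hMpos : (0 : ℝ) ≤ M := Nat.cast_nonneg _
  calc (4 : ℝ) * M = 16 * ε / c * M * (c / (4 * ε)) := by field_simp; ring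
    _ ≤ 16 * ε / c * M * N := mul_le_mul_of_nonneg_left h19 (by positivity)

lemma thin_card {Q : MvPolynomial (Fin d) ℂ} (hin : NZIn Q) (hout : NZOut Q)
    {p : Fin d → ℂ} {δ δ' L η ε : ℝ} {j : Fin d}
    (hδ'1 : δ' ≤ 1) (hδ' : 0 < δ') (hδδ : δ' ≤ δ)
    (hL : ∀ z : Fin d → ℂ, (∀ i, ‖z i‖ = 1) → ∀ w w' : ℂ, ‖w‖ = 1 → ‖w'‖ = 1 →
      ‖eval (Function.update z j w) Q - eval (Function.update z j w') Q‖ ≤ L * ‖w - w'‖)
    (hroot : ∀ z : Fin d → ℂ, (∀ i, ‖z i - p i‖ < δ') →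
      ∃ u : ℂ, ‖u - p j‖ < δ / 2 ∧ eval (Function.update z j u) Q = 0 ∧ fib Q z j ≠ 0)
    (hp : ∀ i, ‖p i‖ = 1)
    (hL0 : 0 < L) (hη : 0 < η) (hη1 : η ≤ 1) (hηδ : η ≤ δ / 2) (hηε : L * η ≤ ε)
    {M : ℕ} (hM1 : 14 ≤ η * M) (hM2 : 14 ≤ δ' * M) :
    (δ' / 14) ^ d * (η / 14) * (M : ℝ) ^ d ≤ ((thinSet Q p δ ε M).card : ℝ) := by
  classical
  have hMpos : (0 : ℝ) < M := by
    by_contra h
    push Not at h
    nlinarith
  have hM0 : M ≠ 0 := by
    intro h; rw [h, Nat.cast_zero] at hMpos; exact lt_irrefl _ hMpos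
  set A : Finset (Fin d → Fin M) := Fintype.piFinset fun i =>
    Finset.univ.filter fun b : Fin M => ‖rt M ^ (b : ℕ) - p i‖ < δ' with hA
  have hAcard : (δ' * M / 14) ^ d ≤ (A.card : ℝ) := by
    rw [hA, Fintype.card_piFinset]
    push_cast
    calc (δ' * M / 14) ^ d = ∏ _i : Fin d, (δ' * M / 14) := by
          rw [Finset.prod_const, Finset.card_univ, Fintype.card_fin]
      _ ≤ _ := Finset.prod_le_prod (fun _ _ => by positivity)
          (fun i _ => count_lower δ' hδ' hδ'1 hM2 (p i) (hp i))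
  have hfib : ∀ a ∈ A, η * M / 14 ≤
      ((Finset.univ.filter fun b => Function.update a j b ∈ thinSet Q p δ ε M).card : ℝ) := by
    intro a ha
    have ha' : ∀ i, ‖gp M a i - p i‖ < δ' := by
      intro i
      have := (Fintype.mem_piFinset.mp ha) i
      exact (Finset.mem_filter.mp this).2
    obtain ⟨u, hu1, hu2, hu3⟩ := hroot (gp M a) ha'
    have hun := norm_root_eq Q hin hout (gp M a) (norm_gp hM0 a) j u hu2 hu3
    refine (count_lower η hη hη1 hM1 u hun).trans ?_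
    have hsub : (Finset.univ.filter fun b : Fin M => ‖rt M ^ (b : ℕ) - u‖ < η) ⊆
        Finset.univ.filter fun b => Function.update a j b ∈ thinSet Q p δ ε M := by
      intro b hb
      have hb' : ‖rt M ^ (b : ℕ) - u‖ < η := (Finset.mem_filter.mp hb).2
      refine Finset.mem_filter.mpr ⟨Finset.mem_univ _, ?_⟩
      rw [mem_thinSet, gp_update]
      constructor
      · intro i
        by_cases hij : i = j
        · rw [hij, Function.update_self]
          calc ‖rt M ^ (b : ℕ) - p j‖ ≤ ‖rt M ^ (b : ℕ) - u‖ + ‖u - p j‖ :=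
                norm_sub_le_norm_sub_add_norm_sub _ _ _
            _ < δ := by linarith
        · rw [Function.update_of_ne hij]
          exact lt_of_lt_of_le (ha' i) hδδ
      · have h1 : ‖rt M ^ (b : ℕ)‖ = 1 := by rw [norm_pow, norm_rt hM0, one_pow]
        have h2 := hL (gp M a) (norm_gp hM0 a) (rt M ^ (b : ℕ)) u h1 hun
        rw [hu2, sub_zero] at h2
        calc _ ≤ L * ‖rt M ^ (b : ℕ) - u‖ := h2
          _ < L * η := mul_lt_mul_of_pos_left hb' hL0
          _ ≤ ε := hηε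
    exact_mod_cast Finset.card_le_card hsub
  have h1 := sum_fibre_eq (thinSet Q p δ ε M) j (fun _ => (1 : ℝ)) (fun _ _ => rfl)
  simp only [Finset.sum_const, nsmul_eq_mul, mul_one] at h1
  have h2 : (A.card : ℝ) * (η * M / 14) ≤ (M : ℝ) * ((thinSet Q p δ ε M).card : ℝ) := by
    rw [h1]
    calc (A.card : ℝ) * (η * M / 14) = ∑ _a ∈ A, η * M / 14 := by
          rw [Finset.sum_const, nsmul_eq_mul]
      _ ≤ ∑ a ∈ A, ((Finset.univ.filter fun b =>
            Function.update a j b ∈ thinSet Q p δ ε M).card : ℝ) := Finset.sum_le_sum hfib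
      _ ≤ _ := Finset.sum_le_sum_of_subset_of_nonneg (Finset.subset_univ _)
          (fun _ _ _ => Nat.cast_nonneg _)
  have h3 : (δ' * M / 14) ^ d * (η * M / 14) ≤ (M : ℝ) * ((thinSet Q p δ ε M).card : ℝ) :=
    (mul_le_mul_of_nonneg_right hAcard (by positivity)).trans h2
  have h4 : (M : ℝ) * ((δ' / 14) ^ d * (η / 14) * (M : ℝ) ^ d) ≤
      (M : ℝ) * ((thinSet Q p δ ε M).card : ℝ) := by
    refine le_trans (le_of_eq ?_) h3
    rw [div_pow, div_pow, mul_pow]
    ring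
  exact le_of_mul_le_mul_left h4 hMpos

theorem not_cyclic_of_regular (t : ℝ) (Q : MvPolynomial (Fin d) ℂ) (hin : NZIn Q)
    (hout : NZOut Q) (p : Fin d → ℂ) (hp : ∀ i, ‖p i‖ = 1) (hp0 : eval p Q = 0)
    (J : Finset (Fin d)) (hJ : J.Nonempty) (hpJ : ∀ j ∈ J, eval p (pderiv j Q) ≠ 0)
    (ht : 0 ≤ t) (htJ : 1 < t * (J.card : ℝ)) : ¬ ShiftCyclic t Q := by
  classical
  obtain ⟨Z, hZ0, hZ⟩ := exists_zeta (t * (J.card : ℝ)) htJ
  obtain ⟨δ, hδ, c, hc, hlow⟩ := low_lip Q p J hJ hpJ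
  obtain ⟨j, hj⟩ := hJ
  obtain ⟨L, hL1, hL⟩ := up_lip Q j
  obtain ⟨δ1, hδ1, hroot⟩ := root_near Q p hp0 j (hpJ j hj) (δ / 2) (by positivity)
  set δ' := min δ1 (min δ 1) with hδ'
  have hδ'0 : 0 < δ' := lt_min hδ1 (lt_min hδ one_pos)
  have hδ'δ : δ' ≤ δ := (min_le_right _ _).trans (min_le_left _ _)
  have hδ'1 : δ' ≤ 1 := (min_le_right _ _).trans (min_le_right _ _)
  have hδ'2 : δ' ≤ δ1 := min_le_left _ _
  set K := 16 / c * Real.sqrt (J.card * Z) with hK
  have hK0 : 0 ≤ K := by rw [hK]; positivity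
  set c0 := (δ' / 14) ^ d * (1 / (14 * L)) with hc0
  have hL0 : 0 < L := by linarith
  have hc0pos : 0 < c0 := by rw [hc0]; positivity
  intro hcyc
  rw [shiftCyclic_iff] at hcyc
  obtain ⟨R, hR⟩ := hcyc (c0 / (4 * (K + 1))) (by positivity)
  set AR := ∑ k ∈ R.support, ‖coeff k R‖ with hAR
  have hAR0 : 0 ≤ AR := Finset.sum_nonneg fun _ _ => norm_nonneg _
  -- choose ε
  set ε := min (c / 4) (min (min (δ / 2) 1) (1 / (2 * (AR + 1)))) with hε
  have hε0 : 0 < ε := by
    rw [hε]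
    refine lt_min (by positivity) (lt_min (lt_min (by positivity) one_pos) (by positivity))
  have hε1 : 4 * ε ≤ c := by
    have := min_le_left (c / 4) (min (min (δ / 2) 1) (1 / (2 * (AR + 1))))
    rw [← hε] at this; linarith
  have hε2 : ε ≤ min (δ / 2) 1 := by
    have := min_le_right (c / 4) (min (min (δ / 2) 1) (1 / (2 * (AR + 1))))
    rw [← hε] at this
    exact this.trans (min_le_left _ _)
  have hε3 : ε * AR ≤ 1 / 2 := by
    have h1 : ε ≤ 1 / (2 * (AR + 1)) := by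
      have := min_le_right (c / 4) (min (min (δ / 2) 1) (1 / (2 * (AR + 1))))
      rw [← hε] at this
      exact this.trans (min_le_right _ _)
    calc ε * AR ≤ 1 / (2 * (AR + 1)) * AR := mul_le_mul_of_nonneg_right h1 hAR0
      _ ≤ 1 / 2 := by
          rw [div_mul_eq_mul_div, div_le_div_iff₀ (by positivity) (by norm_num)]
          linarith
  set η := ε / L with hη
  have hη0 : 0 < η := by positivity
  have hηε : η ≤ ε := by
    rw [hη, div_le_iff₀ hL0]
    nlinarith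
  -- choose M
  obtain ⟨M, hM1, hM2, hM3, hM4⟩ : ∃ M : ℕ, 14 ≤ η * M ∧ 14 ≤ δ' * M ∧ c / (2 * ε) ≤ M ∧
      ∀ k ∈ (1 - R * Q).support, ∀ i, k i < M := by
    set B := (∑ k ∈ (1 - R * Q).support, ∑ i, k i) + 1 with hB
    set M := max (max ⌈14 / η⌉₊ ⌈14 / δ'⌉₊) (max ⌈c / (2 * ε)⌉₊ B) with hM
    have h1 : 14 / η ≤ (M : ℝ) := (Nat.le_ceil _).trans (by
      exact_mod_cast (le_max_left _ _).trans (le_max_left _ _))
    have h2 : 14 / δ' ≤ (M : ℝ) := (Nat.le_ceil _).trans (by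
      exact_mod_cast (le_max_right _ _).trans (le_max_left _ _))
    have h3 : c / (2 * ε) ≤ (M : ℝ) := (Nat.le_ceil _).trans (by
      exact_mod_cast (le_max_left _ _).trans (le_max_right _ _))
    refine ⟨M, ?_, ?_, h3, ?_⟩
    · rw [div_le_iff₀ hη0] at h1; linarith
    · rw [div_le_iff₀ hδ'0] at h2; linarith
    · intro k hk i
      have h4 : k i ≤ ∑ i, k i := Finset.single_le_sum (f := fun i => k i)
        (fun _ _ => Nat.zero_le _) (Finset.mem_univ i)
      have h5 : ∑ i, k i ≤ ∑ k ∈ (1 - R * Q).support, ∑ i, k i := Finset.single_le_sum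
        (f := fun k : Fin d →₀ ℕ => ∑ i, k i) (fun _ _ => Nat.zero_le _) hk
      have h6 : B ≤ M := (le_max_right _ _).trans (le_max_right _ _)
      omega
  have hMpos : (0 : ℝ) < M := by
    by_contra h
    push Not at h
    nlinarith
  have hM0 : M ≠ 0 := by
    intro h; rw [h, Nat.cast_zero] at hMpos; exact lt_irrefl _ hMpos
  set S := thinSet Q p δ ε M with hS
  have hcard : c0 * ε * (M : ℝ) ^ d ≤ (S.card : ℝ) := by
    have h1 := thin_card (ε := ε) (M := M) hin hout hδ'1 hδ'0 hδ'δ hL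
      (fun z hz => hroot z fun i => lt_of_lt_of_le (hz i) hδ'2) hp hL0 hη0
      (hηε.trans (hε2.trans (min_le_right _ _))) (hηε.trans (hε2.trans (min_le_left _ _)))
      (by rw [hη]; field_simp; exact le_refl _) hM1 hM2
    refine le_trans (le_of_eq ?_) h1
    rw [hc0, hη]
    field_simp
  have hthin := thin_bound hM0 J ⟨j, hj⟩ S (16 * ε / c * M) (by positivity)
    (fun i hi a => thin_fibre hc hlow hε0 hε1 hM3 i hi a) t ht Z (hZ M) (1 - R * Q) hM4
  have hbound : ‖∑ a ∈ S, eval (gp M a) (1 - R * Q)‖ ≤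
      K * ε * (M : ℝ) ^ d * ‖W t (1 - R * Q)‖ := by
    have h1 : (M : ℝ) * ‖∑ a ∈ S, eval (gp M a) (1 - R * Q)‖ ≤
        M * (K * ε * (M : ℝ) ^ d * ‖W t (1 - R * Q)‖) := by
      refine hthin.trans (le_of_eq ?_)
      rw [hK]; ring
    exact le_of_mul_le_mul_left h1 hMpos
  have hRQ : ‖∑ a ∈ S, eval (gp M a) (R * Q)‖ ≤ (S.card : ℝ) * (1 / 2) := by
    refine (norm_sum_le _ _).trans ?_
    calc ∑ a ∈ S, ‖eval (gp M a) (R * Q)‖ ≤ ∑ _a ∈ S, (1 / 2 : ℝ) := by
          apply Finset.sum_le_sum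
          intro a ha
          obtain ⟨-, h2⟩ := mem_thinSet.mp ha
          rw [map_mul, norm_mul]
          have h3 := norm_eval_le R (gp M a) (fun i => (norm_gp hM0 a i).le)
          calc ‖eval (gp M a) R‖ * ‖eval (gp M a) Q‖ ≤ AR * ε :=
                mul_le_mul h3 h2.le (norm_nonneg _) hAR0
            _ ≤ 1 / 2 := by linarith
      _ = _ := by rw [Finset.sum_const, nsmul_eq_mul]
  have hone : (S.card : ℝ) ≤ ‖∑ a ∈ S, eval (gp M a) (1 - R * Q)‖ +
      ‖∑ a ∈ S, eval (gp M a) (R * Q)‖ := by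
    have h1 : ((S.card : ℝ) : ℂ) = ∑ a ∈ S, eval (gp M a) (1 - R * Q) +
        ∑ a ∈ S, eval (gp M a) (R * Q) := by
      rw [← Finset.sum_add_distrib]
      simp only [map_sub, map_one, sub_add_cancel, Finset.sum_const, nsmul_eq_mul, mul_one]
      push_cast
      rfl
    have h2 : (S.card : ℝ) = ‖((S.card : ℝ) : ℂ)‖ := by
      rw [Complex.norm_real, Real.norm_of_nonneg (Nat.cast_nonneg _)]
    rw [h2, h1]
    exact norm_add_le _ _
  have hfin : c0 * ε * (M : ℝ) ^ d / 2 ≤ K * ε * (M : ℝ) ^ d * ‖W t (1 - R * Q)‖ := by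
    linarith
  have hpos : 0 < ε * (M : ℝ) ^ d := by positivity
  have hfin2 : c0 / 2 ≤ K * ‖W t (1 - R * Q)‖ := by
    have h1 : ε * (M : ℝ) ^ d * (c0 / 2) ≤ ε * (M : ℝ) ^ d * (K * ‖W t (1 - R * Q)‖) := by
      linarith
    exact le_of_mul_le_mul_left h1 hpos
  have h1 : K * ‖W t (1 - R * Q)‖ ≤ K * (c0 / (4 * (K + 1))) :=
    mul_le_mul_of_nonneg_left hR.le hK0
  have h2 : K * (c0 / (4 * (K + 1))) ≤ c0 / 4 := by
    rw [mul_div_assoc', div_le_div_iff₀ (by positivity) (by norm_num)]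
    nlinarith
  linarith

theorem toral_iff (t : ℝ) (Q : MvPolynomial (Fin d) ℂ) (hirr : Irreducible Q) (hin : NZIn Q)
    (hout : NZOut Q) : ShiftCyclic t Q ↔ t * (Q.vars.card : ℝ) ≤ 1 := by
  constructor
  · intro h
    by_contra hcon
    push Not at hcon
    have hJ : Q.vars.Nonempty := by
      rw [Finset.nonempty_iff_ne_empty]
      intro h0
      rw [h0, Finset.card_empty, Nat.cast_zero, mul_zero] at hcon
      linarith
    have hcard : (0 : ℝ) < Q.vars.card := by exact_mod_cast hJ.card_pos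
    have ht : 0 ≤ t := by
      by_contra h'
      push Not at h'
      nlinarith
    obtain ⟨j, hj⟩ := hJ
    obtain ⟨p, hp, hp0, hpJ⟩ := exists_regular Q hirr hin hout j hj
    exact not_cyclic_of_regular t Q hin hout p hp hp0 Q.vars ⟨j, hj⟩ hpJ ht hcon h
  · intro h
    exact cyclic_of_few_vars t Q hin h

end Pool.MP4ac1fb
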