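import Mathlib

/-!
Dirichlet-type spaces on the polydisc, described by Taylor coefficients.
-/

namespace Pool.MP4ac1fb

open MvPolynomial

variable {d : ℕ}

/-- The weight `∏ (k_j + 1)^t`. -/
noncomputable def wt (t : ℝ) (k : Fin d →₀ ℕ) : ℝ := ∏ j, ((k j : ℝ) + 1) ^ t

/-- The function with Taylor coefficients `c` lies in `D_t(D^d)`. -/
def InDir (t : ℝ) (c : (Fin d →₀ ℕ) → ℂ) : Prop :=
  Summable fun k => wt t k * ‖c k‖ ^ 2

/-- The square of the norm of `D_t(D^d)`. -/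
noncomputable def normSq (t : ℝ) (c : (Fin d →₀ ℕ) → ℂ) : ℝ :=
  ∑' k, wt t k * ‖c k‖ ^ 2

/-- `P` is shift-cyclic in `D_t(D^d)`: the polynomial multiples of `P` are dense. -/
def ShiftCyclic (t : ℝ) (P : MvPolynomial (Fin d) ℂ) : Prop :=
  ∀ c : (Fin d →₀ ℕ) → ℂ, InDir t c → ∀ ε > 0, ∃ Q : MvPolynomial (Fin d) ℂ,
    normSq t (fun k => c k - coeff k (Q * P)) < ε

/-- An exponent `k` as an integer vector. -/
def toZ (k : Fin d →₀ ℕ) : Fin d → ℤ := fun j => (k j : ℤ)

/-- The lattice `Λ(P)`: the subgroup of `ℤ^d` generated by the exponents of `P`. -/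
def lattice (P : MvPolynomial (Fin d) ℂ) : Submodule ℤ (Fin d → ℤ) :=
  Submodule.span ℤ (toZ '' (P.support : Set (Fin d →₀ ℕ)))

/-- The integer vectors supported in `J`. -/
def coordSub (J : Finset (Fin d)) : Submodule ℤ (Fin d → ℤ) where
  carrier := {v | ∀ j ∉ J, v j = 0}
  zero_mem' := fun _ _ => rfl
  add_mem' := fun {v w} hv hw j hj => by rw [Pi.add_apply, hv j hj, hw j hj, add_zero]
  smul_mem' := fun a v hv j hj => by rw [Pi.smul_apply, hv j hj, smul_zero]

/-- The rank of the subgroup of the vectors of `Λ` supported in `J`. -/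
noncomputable def rk (Λ : Submodule ℤ (Fin d → ℤ)) (J : Finset (Fin d)) : ℕ :=
  Module.finrank ℤ (Λ ⊓ coordSub J : Submodule ℤ (Fin d → ℤ))

/-- `J` is the support of a nonzero vector of `Λ` with nonnegative entries. -/
def PosSupp (Λ : Submodule ℤ (Fin d → ℤ)) (J : Finset (Fin d)) : Prop :=
  J.Nonempty ∧ ∃ k : Fin d →₀ ℕ, toZ k ∈ Λ ∧ k.support = J

/-- The constant coefficient of `P` is nonzero and its modulus is at least the sum of the moduli of
all other coefficients. -/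
def ConstDominated (P : MvPolynomial (Fin d) ℂ) : Prop :=
  coeff 0 P ≠ 0 ∧ ∑ k ∈ P.support.erase 0, ‖coeff k P‖ ≤ ‖coeff 0 P‖

lemma wt_pos (t : ℝ) (k : Fin d →₀ ℕ) : 0 < wt t k :=
  Finset.prod_pos fun j _ => by positivity

end Pool.MP4ac1fb
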