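import Pool.Agent.H.MP_4ac1fb_an.Grid

/-!
One-variable fibres of a polynomial; roots of fibres of toral polynomials lie on the circle.
-/

namespace Pool.MP4ac1fb

open MvPolynomial

variable {d : ℕ}

/-- the polynomial as a polynomial in the variable `j` -/
noncomputable def phi (j : Fin d) :
    MvPolynomial (Fin d) ℂ ≃ₐ[ℂ] Polynomial (MvPolynomial {b : Fin d // b ≠ j} ℂ) :=
  (renameEquiv ℂ (Equiv.optionSubtypeNe j).symm).trans (optionEquivLeft ℂ _)

/-- the fibre in direction `j` through `z` -/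
noncomputable def fib (Q : MvPolynomial (Fin d) ℂ) (z : Fin d → ℂ) (j : Fin d) : Polynomial ℂ :=
  (phi j Q).map (eval fun b : {b : Fin d // b ≠ j} => z b)

lemma eval_fib (Q : MvPolynomial (Fin d) ℂ) (z : Fin d → ℂ) (j : Fin d) (w : ℂ) :
    (fib Q z j).eval w = eval (Function.update z j w) Q := by
  have h : ((Polynomial.evalRingHom w).comp
      ((Polynomial.mapRingHom (eval fun b : {b : Fin d // b ≠ j} => z b)).comp
        ((phi j : MvPolynomial (Fin d) ℂ ≃ₐ[ℂ] _) :
          MvPolynomial (Fin d) ℂ →+* Polynomial (MvPolynomial {b : Fin d // b ≠ j} ℂ)))) =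
      eval (Function.update z j w) := by
    apply MvPolynomial.ringHom_ext
    · intro r
      simp [phi]
    · intro i
      by_cases hij : i = j
      · subst hij
        simp [phi]
      · simp [phi, hij, Equiv.optionSubtypeNe_symm_of_ne hij]
  exact congrArg (fun f => f Q) (congrArg DFunLike.coe h)

lemma natDegree_fib_le (Q : MvPolynomial (Fin d) ℂ) (z : Fin d → ℂ) (j : Fin d) :
    (fib Q z j).natDegree ≤ (phi j Q).natDegree := Polynomial.natDegree_map_le

lemma norm_eval_le_of_roots (f : Polynomial ℂ) (w w' : ℂ) (K : ℝ) (hK : 0 ≤ K)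
    (h : ∀ u, f.eval u = 0 → ‖w' - u‖ ≤ K * ‖w - u‖) :
    ‖f.eval w'‖ ≤ K ^ f.natDegree * ‖f.eval w‖ := by
  rcases eq_or_ne f 0 with hf | hf
  · simp [hf]
  have hs := IsAlgClosed.splits f
  rw [hs.eval_eq_prod_roots, hs.eval_eq_prod_roots, norm_mul, norm_mul]
  have key : ∀ s : Multiset ℂ, (∀ u ∈ s, ‖w' - u‖ ≤ K * ‖w - u‖) →
      ‖(s.map (fun a => w' - a)).prod‖ ≤ K ^ (Multiset.card s) *
        ‖(s.map (fun a => w - a)).prod‖ := by
    intro s
    induction s using Multiset.induction_on with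
    | empty => intro _; simp
    | cons a s ih =>
      intro hs
      rw [Multiset.map_cons, Multiset.prod_cons, Multiset.map_cons, Multiset.prod_cons,
        Multiset.card_cons, norm_mul, norm_mul, pow_succ]
      have h1 := hs a (Multiset.mem_cons_self a s)
      have h2 := ih fun u hu => hs u (Multiset.mem_cons_of_mem hu)
      calc _ ≤ (K * ‖w - a‖) * (K ^ (Multiset.card s) * ‖(s.map (fun a => w - a)).prod‖) :=
            mul_le_mul h1 h2 (norm_nonneg _) (by positivity)
        _ = _ := by ring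
  have h1 := key f.roots (fun u hu => h u (Polynomial.isRoot_of_mem_roots hu))
  rw [Polynomial.splits_iff_card_roots.mp hs] at h1
  calc _ ≤ ‖f.leadingCoeff‖ * (K ^ f.natDegree * ‖(f.roots.map (fun a => w - a)).prod‖) :=
        mul_le_mul_of_nonneg_left h1 (norm_nonneg _)
    _ = _ := by ring

lemma continuous_update_smul (z : Fin d → ℂ) (j : Fin d) (w : ℂ) (Q : MvPolynomial (Fin d) ℂ) :
    Continuous fun r : ℝ => eval (Function.update (fun i => (r : ℂ) * z i) j w) Q := by
  have h1 : Continuous fun x : Fin d → ℂ => eval x Q := MvPolynomial.continuous_eval Q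
  apply h1.comp
  apply Continuous.update
  · apply continuous_pi
    intro i
    exact Complex.continuous_ofReal.mul continuous_const
  · exact continuous_const

/-- no zeros in the polydisc -/
def NZIn (Q : MvPolynomial (Fin d) ℂ) : Prop := ∀ z : Fin d → ℂ, (∀ j, ‖z j‖ < 1) → eval z Q ≠ 0

/-- no zeros in the exterior polydisc -/
def NZOut (Q : MvPolynomial (Fin d) ℂ) : Prop := ∀ z : Fin d → ℂ, (∀ j, 1 < ‖z j‖) → eval z Q ≠ 0

lemma norm_root_ge (Q : MvPolynomial (Fin d) ℂ) (hQ : NZIn Q) (z : Fin d → ℂ)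
    (hz : ∀ i, ‖z i‖ = 1) (j : Fin d) (w : ℂ) (hw : eval (Function.update z j w) Q = 0)
    (hne : fib Q z j ≠ 0) : 1 ≤ ‖w‖ := by
  by_contra hcon
  push Not at hcon
  apply hne
  apply Polynomial.funext
  intro w'
  rw [Polynomial.eval_zero, eval_fib]
  set K : ℝ := (1 + ‖w'‖) / (1 - ‖w‖) with hK
  have hw1 : 0 < 1 - ‖w‖ := by linarith
  have hK1 : 1 ≤ K := by
    rw [hK, le_div_iff₀ hw1]
    have := norm_nonneg w
    have := norm_nonneg w'
    linarith
  have hlim : ∀ v : ℂ, Filter.Tendsto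
      (fun r : ℝ => ‖eval (Function.update (fun i => (r : ℂ) * z i) j v) Q‖)
      (nhdsWithin 1 (Set.Iio 1)) (nhds ‖eval (Function.update z j v) Q‖) := by
    intro v
    have h1 := ((continuous_update_smul z j v Q).norm).tendsto (1 : ℝ)
    simp only [Complex.ofReal_one, one_mul] at h1
    exact h1.mono_left nhdsWithin_le_nhds
  have hev : ∀ᶠ r : ℝ in nhdsWithin 1 (Set.Iio 1),
      ‖eval (Function.update (fun i => (r : ℂ) * z i) j w') Q‖ ≤
      K ^ (phi j Q).natDegree * ‖eval (Function.update (fun i => (r : ℂ) * z i) j w) Q‖ := by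
    have h0 : ∀ᶠ r : ℝ in nhdsWithin 1 (Set.Iio 1), (0 : ℝ) < r :=
      nhdsWithin_le_nhds (lt_mem_nhds zero_lt_one)
    filter_upwards [h0, self_mem_nhdsWithin] with r hr0 hr1
    rw [Set.mem_Iio] at hr1
    have hnz : ∀ u : ℂ, ‖u‖ < 1 →
        eval (Function.update (fun i => (r : ℂ) * z i) j u) Q ≠ 0 := by
      intro u hu
      apply hQ
      intro i
      by_cases hij : i = j
      · subst hij; rw [Function.update_self]; exact hu
      · rw [Function.update_of_ne hij, norm_mul, hz i, mul_one, Complex.norm_real,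
          Real.norm_of_nonneg hr0.le]
        exact hr1
    rw [← eval_fib, ← eval_fib]
    refine (norm_eval_le_of_roots _ w w' K (by linarith) ?_).trans ?_
    · intro u hu
      rw [eval_fib] at hu
      have hu1 : 1 ≤ ‖u‖ := by
        by_contra h
        push Not at h
        exact hnz u h hu
      have h1 : ‖w' - u‖ ≤ ‖u‖ * (1 + ‖w'‖) := by
        calc ‖w' - u‖ ≤ ‖w'‖ + ‖u‖ := norm_sub_le _ _
          _ ≤ ‖u‖ * (1 + ‖w'‖) := by nlinarith [norm_nonneg w']
      have h2 : ‖u‖ * (1 - ‖w‖) ≤ ‖w - u‖ := by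
        have h3 : ‖u‖ - ‖w‖ ≤ ‖w - u‖ := by
          rw [norm_sub_rev]; exact norm_sub_norm_le _ _
        nlinarith [norm_nonneg w]
      calc ‖w' - u‖ ≤ ‖u‖ * (1 + ‖w'‖) := h1
        _ = K * (‖u‖ * (1 - ‖w‖)) := by rw [hK]; field_simp
        _ ≤ K * ‖w - u‖ := mul_le_mul_of_nonneg_left h2 (by linarith)
    · apply mul_le_mul_of_nonneg_right _ (norm_nonneg _)
      exact pow_le_pow_right₀ hK1 (natDegree_fib_le _ _ _)
  have := le_of_tendsto_of_tendsto (hlim w') ((hlim w).const_mul (K ^ (phi j Q).natDegree)) hev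
  rw [hw, norm_zero, mul_zero] at this
  exact norm_le_zero_iff.mp this

lemma norm_root_le (Q : MvPolynomial (Fin d) ℂ) (hQ : NZOut Q) (z : Fin d → ℂ)
    (hz : ∀ i, ‖z i‖ = 1) (j : Fin d) (w : ℂ) (hw : eval (Function.update z j w) Q = 0)
    (hne : fib Q z j ≠ 0) : ‖w‖ ≤ 1 := by
  by_contra hcon
  push Not at hcon
  apply hne
  apply Polynomial.funext
  intro w'
  rw [Polynomial.eval_zero, eval_fib]
  set K : ℝ := max 1 ((1 + ‖w'‖) / (‖w‖ - 1)) with hK
  have hw1 : 0 < ‖w‖ - 1 := by linarith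
  have hK1 : 1 ≤ K := le_max_left _ _
  have hlim : ∀ v : ℂ, Filter.Tendsto
      (fun r : ℝ => ‖eval (Function.update (fun i => (r : ℂ) * z i) j v) Q‖)
      (nhdsWithin 1 (Set.Ioi 1)) (nhds ‖eval (Function.update z j v) Q‖) := by
    intro v
    have h1 := ((continuous_update_smul z j v Q).norm).tendsto (1 : ℝ)
    simp only [Complex.ofReal_one, one_mul] at h1
    exact h1.mono_left nhdsWithin_le_nhds
  have hev : ∀ᶠ r : ℝ in nhdsWithin 1 (Set.Ioi 1),
      ‖eval (Function.update (fun i => (r : ℂ) * z i) j w') Q‖ ≤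
      K ^ (phi j Q).natDegree * ‖eval (Function.update (fun i => (r : ℂ) * z i) j w) Q‖ := by
    filter_upwards [self_mem_nhdsWithin] with r hr1
    rw [Set.mem_Ioi] at hr1
    have hnz : ∀ u : ℂ, 1 < ‖u‖ →
        eval (Function.update (fun i => (r : ℂ) * z i) j u) Q ≠ 0 := by
      intro u hu
      apply hQ
      intro i
      by_cases hij : i = j
      · subst hij; rw [Function.update_self]; exact hu
      · rw [Function.update_of_ne hij, norm_mul, hz i, mul_one, Complex.norm_real,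
          Real.norm_of_nonneg (by linarith)]
        exact hr1
    rw [← eval_fib, ← eval_fib]
    refine (norm_eval_le_of_roots _ w w' K (by linarith) ?_).trans ?_
    · intro u hu
      rw [eval_fib] at hu
      have hu1 : ‖u‖ ≤ 1 := by
        by_contra h
        push Not at h
        exact hnz u h hu
      have h1 : ‖w' - u‖ ≤ 1 + ‖w'‖ := by
        calc ‖w' - u‖ ≤ ‖w'‖ + ‖u‖ := norm_sub_le _ _
          _ ≤ 1 + ‖w'‖ := by linarith
      have h2 : ‖w‖ - 1 ≤ ‖w - u‖ := by
        have h3 : ‖w‖ - ‖u‖ ≤ ‖w - u‖ := norm_sub_norm_le _ _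
        linarith
      calc ‖w' - u‖ ≤ 1 + ‖w'‖ := h1
        _ = ((1 + ‖w'‖) / (‖w‖ - 1)) * (‖w‖ - 1) := by field_simp
        _ ≤ K * ‖w - u‖ := by
            apply mul_le_mul (le_max_right _ _) h2 hw1.le (by linarith)
    · apply mul_le_mul_of_nonneg_right _ (norm_nonneg _)
      exact pow_le_pow_right₀ hK1 (natDegree_fib_le _ _ _)
  have := le_of_tendsto_of_tendsto (hlim w') ((hlim w).const_mul (K ^ (phi j Q).natDegree)) hev
  rw [hw, norm_zero, mul_zero] at this
  exact norm_le_zero_iff.mp this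

lemma norm_root_eq (Q : MvPolynomial (Fin d) ℂ) (h1 : NZIn Q) (h2 : NZOut Q) (z : Fin d → ℂ)
    (hz : ∀ i, ‖z i‖ = 1) (j : Fin d) (w : ℂ) (hw : eval (Function.update z j w) Q = 0)
    (hne : fib Q z j ≠ 0) : ‖w‖ = 1 :=
  le_antisymm (norm_root_le Q h2 z hz j w hw hne) (norm_root_ge Q h1 z hz j w hw hne)

end Pool.MP4ac1fb
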