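import Pool.Agent.H.MP_4ac1fb_an.Products

/-!
Parseval on the grid of roots of unity.
-/

namespace Pool.MP4ac1fb

open MvPolynomial

variable {d : ℕ}

/-- the standard root of unity -/
noncomputable def rt (M : ℕ) : ℂ := Complex.exp (2 * Real.pi * Complex.I / M)

lemma rt_prim {M : ℕ} (hM : M ≠ 0) : IsPrimitiveRoot (rt M) M := Complex.isPrimitiveRoot_exp M hM

lemma norm_rt {M : ℕ} (hM : M ≠ 0) : ‖rt M‖ = 1 :=
  Complex.norm_eq_one_of_pow_eq_one (rt_prim hM).pow_eq_one hM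

/-- grid points of the torus -/
noncomputable def gp (M : ℕ) (a : Fin d → Fin M) : Fin d → ℂ := fun j => rt M ^ (a j : ℕ)

lemma norm_gp {M : ℕ} (hM : M ≠ 0) (a : Fin d → Fin M) (j : Fin d) : ‖gp M a j‖ = 1 := by
  rw [gp, norm_pow, norm_rt hM, one_pow]

lemma geom_orth {M : ℕ} (hM : M ≠ 0) {k l : ℕ} (hk : k < M) (hl : l < M) :
    ∑ x : Fin M, (rt M ^ (x : ℕ)) ^ k * (starRingEnd ℂ) ((rt M ^ (x : ℕ)) ^ l) =
      if k = l then (M : ℂ) else 0 := by
  have hn := norm_rt hM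
  have hne : rt M ≠ 0 := by
    intro h; rw [h, norm_zero] at hn; exact zero_ne_one hn
  have hconj : (starRingEnd ℂ) (rt M) = (rt M)⁻¹ := by
    rw [Complex.inv_def, Complex.normSq_eq_norm_sq, hn]; simp
  set η := rt M ^ k * ((rt M)⁻¹) ^ l with hη
  have h1 : ∀ x : Fin M, (rt M ^ (x : ℕ)) ^ k * (starRingEnd ℂ) ((rt M ^ (x : ℕ)) ^ l) =
      η ^ (x : ℕ) := by
    intro x
    rw [map_pow, map_pow, hconj, hη, mul_pow, ← pow_mul, ← pow_mul, ← pow_mul, ← pow_mul,
      mul_comm (x : ℕ) k, mul_comm (x : ℕ) l]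
  rw [Finset.sum_congr rfl (fun x _ => h1 x), Fin.sum_univ_eq_sum_range (fun x => η ^ x) M]
  split_ifs with hkl
  · have : η = 1 := by
      rw [hη, hkl, ← mul_pow, mul_inv_cancel₀ hne, one_pow]
    simp [this]
  · have hη1 : η ≠ 1 := by
      intro h
      apply hkl
      rw [hη, inv_pow, mul_inv_eq_one₀ (pow_ne_zero _ hne)] at h
      exact (rt_prim hM).pow_inj hk hl h
    have hηM : η ^ M = 1 := by
      rw [hη, mul_pow, ← pow_mul, ← pow_mul, mul_comm k, mul_comm l, pow_mul, pow_mul, inv_pow,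
        (rt_prim hM).pow_eq_one]
      simp
    have := mul_neg_geom_sum η M
    rw [hηM, sub_self] at this
    rcases mul_eq_zero.mp this with h | h
    · exact absurd (sub_eq_zero.mp h).symm hη1
    · exact h

lemma grid_parseval {M : ℕ} (hM : M ≠ 0) (f : MvPolynomial (Fin d) ℂ)
    (hf : ∀ k ∈ f.support, ∀ j, k j < M) :
    ∑ a : Fin d → Fin M, ‖eval (gp M a) f‖ ^ 2 =
      (M : ℝ) ^ d * ∑ k ∈ f.support, ‖coeff k f‖ ^ 2 := by
  have hC : ∑ a : Fin d → Fin M, (eval (gp M a) f * (starRingEnd ℂ) (eval (gp M a) f)) =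
      (M : ℂ) ^ d * ∑ k ∈ f.support, (coeff k f * (starRingEnd ℂ) (coeff k f)) := by
    have h1 : ∀ a : Fin d → Fin M, eval (gp M a) f * (starRingEnd ℂ) (eval (gp M a) f) =
        ∑ k ∈ f.support, ∑ l ∈ f.support, (coeff k f * (starRingEnd ℂ) (coeff l f)) *
          ∏ j, ((rt M ^ (a j : ℕ)) ^ (k j) * (starRingEnd ℂ) ((rt M ^ (a j : ℕ)) ^ (l j))) := by
      intro a
      rw [eval_eq_zp, map_sum, Finset.sum_mul_sum]
      apply Finset.sum_congr rfl
      intro k _
      apply Finset.sum_congr rfl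
      intro l _
      rw [Finset.prod_mul_distrib, map_mul]
      simp only [zp, map_prod, gp]
      ring
    rw [Finset.sum_congr rfl (fun a _ => h1 a), Finset.sum_comm, Finset.mul_sum]
    apply Finset.sum_congr rfl
    intro k hk
    rw [Finset.sum_comm]
    have h2 : ∀ l ∈ f.support, ∑ a : Fin d → Fin M, (coeff k f * (starRingEnd ℂ) (coeff l f)) *
          ∏ j, ((rt M ^ (a j : ℕ)) ^ (k j) * (starRingEnd ℂ) ((rt M ^ (a j : ℕ)) ^ (l j))) =
        if l = k then (M : ℂ) ^ d * (coeff k f * (starRingEnd ℂ) (coeff k f)) else 0 := by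
      intro l hl
      rw [← Finset.mul_sum]
      have h3 := Finset.prod_univ_sum (fun _ : Fin d => (Finset.univ : Finset (Fin M)))
        (fun j x => (rt M ^ (x : ℕ)) ^ (k j) * (starRingEnd ℂ) ((rt M ^ (x : ℕ)) ^ (l j)))
      rw [Fintype.piFinset_univ] at h3
      rw [← h3, Finset.prod_congr rfl (fun j _ => geom_orth hM (hf k hk j) (hf l hl j))]
      split_ifs with hlk
      · subst hlk
        simp only [if_true, Finset.prod_const, Finset.card_univ, Fintype.card_fin]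
        ring
      · obtain ⟨j, hj⟩ : ∃ j, k j ≠ l j := by
          by_contra hcon
          push Not at hcon
          exact hlk (Finsupp.ext fun j => (hcon j).symm)
        rw [Finset.prod_eq_zero (Finset.mem_univ j) (by rw [if_neg hj]), mul_zero]
    rw [Finset.sum_congr rfl h2, Finset.sum_ite_eq' f.support k, if_pos hk]
  have hre : ∀ z : ℂ, z * (starRingEnd ℂ) z = ((‖z‖ ^ 2 : ℝ) : ℂ) := by
    intro z
    rw [Complex.mul_conj, Complex.normSq_eq_norm_sq]
  simp only [hre] at hC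
  exact_mod_cast hC

/-- the coefficient norm is at most the supremum over the torus -/
lemma coeff_norm_le_sup (f : MvPolynomial (Fin d) ℂ) (B : ℝ)
    (hB : ∀ ζ : Fin d → ℂ, (∀ j, ‖ζ j‖ = 1) → ‖eval ζ f‖ ≤ B) :
    ∑ k ∈ f.support, ‖coeff k f‖ ^ 2 ≤ B ^ 2 := by
  obtain ⟨M, hM0, hM⟩ : ∃ M : ℕ, M ≠ 0 ∧ ∀ k ∈ f.support, ∀ j, k j < M := by
    refine ⟨(∑ k ∈ f.support, ∑ j, k j) + 1, by omega, fun k hk j => ?_⟩
    have h1 : k j ≤ ∑ j, k j := Finset.single_le_sum (f := fun j => k j)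
      (fun _ _ => Nat.zero_le _) (Finset.mem_univ j)
    have h2 : ∑ j, k j ≤ ∑ k ∈ f.support, ∑ j, k j := Finset.single_le_sum
      (f := fun k : Fin d →₀ ℕ => ∑ j, k j) (fun _ _ => Nat.zero_le _) hk
    omega
  have h := grid_parseval hM0 f hM
  have hMpos : (0 : ℝ) < (M : ℝ) ^ d := by
    have : (0 : ℝ) < M := by exact_mod_cast Nat.pos_of_ne_zero hM0
    positivity
  have h1 : ∑ a : Fin d → Fin M, ‖eval (gp M a) f‖ ^ 2 ≤ (M : ℝ) ^ d * B ^ 2 := by
    calc _ ≤ ∑ _a : Fin d → Fin M, B ^ 2 := by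
          apply Finset.sum_le_sum
          intro a _
          exact pow_le_pow_left₀ (norm_nonneg _) (hB _ (norm_gp hM0 a)) 2
      _ = (M : ℝ) ^ d * B ^ 2 := by
          rw [Finset.sum_const, Finset.card_univ, Fintype.card_pi, Finset.prod_const,
            Finset.card_univ, Fintype.card_fin, Fintype.card_fin, nsmul_eq_mul]
          push_cast; ring
  rw [h] at h1
  exact le_of_mul_le_mul_left h1 hMpos

end Pool.MP4ac1fb
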