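import Pool.Agent.H.MP_4ac1fb_an.Convergence

/-!
Cyclicity of products.
-/

namespace Pool.MP4ac1fb

open MvPolynomial

variable {d : ℕ}

lemma cl_mono {t : ℝ} {f g : MvPolynomial (Fin d) ℂ} (h : f ∈ cl t g) : cl t f ≤ cl t g := by
  intro x hx
  apply mem_cl_of_approx
  intro ε hε
  obtain ⟨Q, hQ⟩ := hx ε hε
  exact ⟨Q * f, (cl t g).mul_mem_left _ h, hQ⟩

lemma one_mem_cl_mul_iff (t : ℝ) (f g : MvPolynomial (Fin d) ℂ) :
    (1 : MvPolynomial (Fin d) ℂ) ∈ cl t (f * g) ↔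
      (1 : MvPolynomial (Fin d) ℂ) ∈ cl t f ∧ (1 : MvPolynomial (Fin d) ℂ) ∈ cl t g := by
  constructor
  · intro h
    exact ⟨cl_mono ((cl t f).mul_mem_right g (self_mem_cl t f)) h,
      cl_mono ((cl t g).mul_mem_left f (self_mem_cl t g)) h⟩
  · rintro ⟨hf, hg⟩
    have hgm : g ∈ cl t (f * g) := by
      intro ε hε
      obtain ⟨C, hC, hCb⟩ := norm_W_mul t g
      obtain ⟨Q, hQ⟩ := hf (ε / (C + 1)) (by positivity)
      refine ⟨Q, ?_⟩
      have : g - Q * (f * g) = g * (1 - Q * f) := by ring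
      rw [this]
      calc ‖W t (g * (1 - Q * f))‖ ≤ C * ‖W t (1 - Q * f)‖ := hCb _
        _ ≤ (C + 1) * ‖W t (1 - Q * f)‖ := by
            apply mul_le_mul_of_nonneg_right _ (norm_nonneg _); linarith
        _ < (C + 1) * (ε / (C + 1)) := by
            apply mul_lt_mul_of_pos_left hQ; linarith
        _ = ε := by field_simp
    exact cl_mono hgm hg

lemma shiftCyclic_mul_iff (t : ℝ) (f g : MvPolynomial (Fin d) ℂ) :
    ShiftCyclic t (f * g) ↔ ShiftCyclic t f ∧ ShiftCyclic t g := by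
  rw [shiftCyclic_iff, shiftCyclic_iff, shiftCyclic_iff, one_mem_cl_mul_iff]

lemma shiftCyclic_one (t : ℝ) : ShiftCyclic t (1 : MvPolynomial (Fin d) ℂ) := by
  rw [shiftCyclic_iff]
  exact self_mem_cl t 1

lemma shiftCyclic_prod_iff {ι : Type*} (t : ℝ) (s : Finset ι) (p : ι → MvPolynomial (Fin d) ℂ) :
    ShiftCyclic t (∏ i ∈ s, p i) ↔ ∀ i ∈ s, ShiftCyclic t (p i) := by
  classical
  induction s using Finset.induction_on with
  | empty => simp [shiftCyclic_one]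
  | insert a s ha ih => rw [Finset.prod_insert ha, shiftCyclic_mul_iff, ih]; simp

theorem constDominated_iff (t : ℝ) (P : MvPolynomial (Fin d) ℂ) (hP : ConstDominated P) :
    ShiftCyclic t P ↔ (∀ ζ : Fin d → ℂ, (∀ j, ‖ζ j‖ = 1) → eval ζ P ≠ 0) ∨
      ∃ J, PosSupp (lattice P) J ∧ t * J.card ≤ rk (lattice P) J := by
  rw [cyclic_iff_latSummable t P hP.1 hP.2, latSummable_iff]

end Pool.MP4ac1fb
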