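import Pool.Agent.H.MP_4ac1fb_an.Energy

/-!
Cyclicity of constant-dominated polynomials in terms of a lattice sum.
-/

namespace Pool.MP4ac1fb

open MvPolynomial

variable {d : ℕ}

/-- normalised lazy version of `P` -/
noncomputable def lazy (P : MvPolynomial (Fin d) ℂ) : MvPolynomial (Fin d) ℂ :=
  1 - C (1 / (2 * coeff 0 P)) * P

lemma coeff_lazy_zero (P : MvPolynomial (Fin d) ℂ) (h0 : coeff 0 P ≠ 0) :
    coeff 0 (lazy P) = 1 / 2 := by
  rw [lazy, coeff_sub, coeff_C_mul, coeff_zero_one]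
  field_simp
  norm_num

lemma coeff_lazy (P : MvPolynomial (Fin d) ℂ) (k : Fin d →₀ ℕ) (hk : k ≠ 0) :
    coeff k (lazy P) = - (coeff k P / (2 * coeff 0 P)) := by
  rw [lazy, coeff_sub, coeff_C_mul, coeff_one, if_neg (Ne.symm hk)]
  ring

lemma support_lazy (P : MvPolynomial (Fin d) ℂ) (h0 : coeff 0 P ≠ 0) :
    (lazy P).support = P.support := by
  ext k
  by_cases hk : k = 0
  · subst hk
    rw [mem_support_iff, mem_support_iff, coeff_lazy_zero P h0]
    simp [h0]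
  · rw [mem_support_iff, mem_support_iff, coeff_lazy P k hk]
    simp [h0]

lemma sum_lazy (P : MvPolynomial (Fin d) ℂ) (h0 : coeff 0 P ≠ 0) :
    ∑ k ∈ (lazy P).support, ‖coeff k (lazy P)‖ =
      1 / 2 + (∑ k ∈ P.support.erase 0, ‖coeff k P‖) / (2 * ‖coeff 0 P‖) := by
  rw [support_lazy P h0]
  have h0m : (0 : Fin d →₀ ℕ) ∈ P.support := mem_support_iff.mpr h0
  rw [← Finset.add_sum_erase _ _ h0m, coeff_lazy_zero P h0, Finset.sum_div]
  congr 1
  · norm_num
  · apply Finset.sum_congr rfl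
    intro k hk
    rw [coeff_lazy P k (Finset.ne_of_mem_erase hk), norm_neg, norm_div, norm_mul]
    norm_num

lemma one_sub_lazy_mem (t : ℝ) (P : MvPolynomial (Fin d) ℂ) : 1 - lazy P ∈ cl t P := by
  have : 1 - lazy P = C (1 / (2 * coeff 0 P)) * P := by rw [lazy]; ring
  rw [this]
  exact (cl t P).mul_mem_left _ (self_mem_cl t P)

/-- phase of the coefficient at `a` -/
noncomputable def ph (P : MvPolynomial (Fin d) ℂ) (a : Fin d →₀ ℕ) : ℂ :=
  coeff a (lazy P) / ‖coeff a (lazy P)‖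

lemma norm_ph (P : MvPolynomial (Fin d) ℂ) (h0 : coeff 0 P ≠ 0) (a : Fin d →₀ ℕ)
    (ha : a ∈ P.support) : ‖ph P a‖ = 1 := by
  have h : coeff a (lazy P) ≠ 0 := by
    rw [← support_lazy P h0] at ha
    exact mem_support_iff.mp ha
  have hn : ‖coeff a (lazy P)‖ ≠ 0 := norm_ne_zero_iff.mpr h
  rw [ph, norm_div, Complex.norm_real, norm_norm, div_self hn]

/-- the ideal of the differences -/
noncomputable def JJ (P : MvPolynomial (Fin d) ℂ) : Ideal (MvPolynomial (Fin d) ℂ) :=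
  Ideal.span ((fun a => 1 - monomial a (ph P a)) '' (P.support.erase 0 : Finset (Fin d →₀ ℕ)))

lemma JJ_pow_le (t : ℝ) (P : MvPolynomial (Fin d) ℂ) (h0 : coeff 0 P ≠ 0)
    (hdom : ∑ k ∈ P.support.erase 0, ‖coeff k P‖ ≤ ‖coeff 0 P‖) :
    ∃ N : ℕ, (JJ P) ^ N ≤ cl t P := by
  classical
  have hfg : (JJ P).FG := by
    refine ⟨(P.support.erase 0).image (fun a => 1 - monomial a (ph P a)), ?_⟩
    rw [JJ, Finset.coe_image]
  apply Ideal.exists_pow_le_of_le_radical_of_fg _ hfg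
  rw [JJ, Ideal.span_le]
  rintro f ⟨a, ha, rfl⟩
  have ha' := Finset.mem_erase.mp (Finset.mem_coe.mp ha)
  refine ⟨d * ⌈t⌉₊ + 1, ?_⟩
  apply diff_pow_mem t P (lazy P) (one_sub_lazy_mem t P) (coeff_lazy_zero P h0) _ a ha'.1
  · rw [← mem_support_iff, support_lazy P h0]
    exact ha'.2
  · rw [sum_lazy P h0]
    have hpos : 0 < ‖coeff 0 P‖ := norm_pos_iff.mpr h0
    have : (∑ k ∈ P.support.erase 0, ‖coeff k P‖) / (2 * ‖coeff 0 P‖) ≤ 1 / 2 := by
      rw [div_le_iff₀ (by positivity)]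
      linarith
    linarith

/-- If the coefficients are strictly dominated, `P` is cyclic. -/
lemma cyclic_of_strict (t : ℝ) (P : MvPolynomial (Fin d) ℂ) (h0 : coeff 0 P ≠ 0)
    (hdom : ∑ k ∈ P.support.erase 0, ‖coeff k P‖ < ‖coeff 0 P‖) :
    (1 : MvPolynomial (Fin d) ℂ) ∈ cl t P := by
  set R := lazy P with hR
  set ρ := ∑ k ∈ R.support, ‖coeff k R‖ with hρ
  have hρ1 : ρ < 1 := by
    rw [hρ, hR, sum_lazy P h0]
    have hpos : 0 < ‖coeff 0 P‖ := norm_pos_iff.mpr h0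
    have : (∑ k ∈ P.support.erase 0, ‖coeff k P‖) / (2 * ‖coeff 0 P‖) < 1 / 2 := by
      rw [div_lt_iff₀ (by positivity)]
      linarith
    linarith
  have hρ0 : 0 ≤ ρ := Finset.sum_nonneg fun _ _ => norm_nonneg _
  have hmul : ∀ f, ‖W 0 (R * f)‖ ≤ ρ * ‖W 0 f‖ := by
    intro f
    have h1 : R * f = ∑ a ∈ R.support, monomial a (coeff a R) * f := by
      rw [← Finset.sum_mul]
      congr 1
      exact MvPolynomial.as_sum R
    rw [h1, map_sum]
    refine (norm_sum_le _ _).trans ?_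
    simp only [norm_W0_monomial_mul]
    rw [← Finset.sum_mul]
  have hpow : ∀ n : ℕ, ‖W 0 (R ^ n)‖ ≤ ρ ^ n * ‖W 0 (1 : MvPolynomial (Fin d) ℂ)‖ := by
    intro n
    induction n with
    | zero => simp
    | succ n ih =>
      rw [pow_succ']
      refine (hmul _).trans ?_
      rw [pow_succ', mul_assoc]
      exact mul_le_mul_of_nonneg_left ih hρ0
  set T := ⌈t⌉₊ with hT
  obtain ⟨M, hM⟩ : ∃ M : ℕ, ∀ j, R.degreeOf j ≤ M :=
    ⟨∑ j, R.degreeOf j, fun j => Finset.single_le_sum (f := fun j => R.degreeOf j)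
      (fun _ _ => Nat.zero_le _) (Finset.mem_univ j)⟩
  have hdeg : ∀ n, ∀ k ∈ (R ^ n).support, ∀ j, k j ≤ n * M := by
    intro n
    apply support_le_degree
    intro j
    exact (MvPolynomial.degreeOf_pow_le j R n).trans (Nat.mul_le_mul_left n (hM j))
  set A := ‖W 0 (1 : MvPolynomial (Fin d) ℂ)‖ with hA
  have hb : ∀ n : ℕ, 1 ≤ n → ‖W t (R ^ n)‖ ^ 2 ≤
      ((M : ℝ) + 1) ^ (d * T) * A ^ 2 * ((n : ℝ) ^ (d * T) * (ρ ^ 2) ^ n) := by
    intro n hn
    have hnr : (1 : ℝ) ≤ n := by exact_mod_cast hn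
    have h1 := norm_W_le_of_degree t T (Nat.le_ceil t) (R ^ n) (n * M) (hdeg n)
    have h2 : ‖W 0 (R ^ n)‖ ^ 2 ≤ (ρ ^ n * A) ^ 2 := pow_le_pow_left₀ (norm_nonneg _) (hpow n) 2
    have h3 : (((n * M : ℕ) : ℝ) + 1) ≤ ((M : ℝ) + 1) * n := by
      push_cast; nlinarith
    have h4 : (((n * M : ℕ) : ℝ) + 1) ^ (d * T) ≤ (((M : ℝ) + 1) * n) ^ (d * T) :=
      pow_le_pow_left₀ (by positivity) h3 _
    calc ‖W t (R ^ n)‖ ^ 2 ≤ (((M : ℝ) + 1) * n) ^ (d * T) * (ρ ^ n * A) ^ 2 :=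
          h1.trans (mul_le_mul h4 h2 (sq_nonneg _) (by positivity))
      _ = _ := by rw [mul_pow, mul_pow, ← pow_mul, ← pow_mul, mul_comm n 2]; ring
  have hlim : Filter.Tendsto (fun n : ℕ => ((M : ℝ) + 1) ^ (d * T) * A ^ 2 *
      ((n : ℝ) ^ (d * T) * (ρ ^ 2) ^ n)) Filter.atTop (nhds 0) := by
    have h1 : |ρ ^ 2| < 1 := by
      rw [abs_of_nonneg (sq_nonneg _)]
      nlinarith
    have := tendsto_pow_const_mul_const_pow_of_abs_lt_one (d * T) h1
    simpa using this.const_mul (((M : ℝ) + 1) ^ (d * T) * A ^ 2)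
  apply mem_cl_of_approx
  intro ε hε
  have hev := (hlim.eventually (gt_mem_nhds (show (0 : ℝ) < ε ^ 2 by positivity))).and
    (Filter.eventually_ge_atTop 1)
  obtain ⟨n, hn1, hn2⟩ := hev.exists
  refine ⟨1 - R ^ n, ?_, ?_⟩
  · have : (1 - R) ∣ (1 - R ^ n) := by
      have := sub_dvd_pow_sub_pow (1 : MvPolynomial (Fin d) ℂ) R n
      rwa [one_pow] at this
    obtain ⟨q, hq⟩ := this
    rw [hq]
    exact (cl t P).mul_mem_right _ (one_sub_lazy_mem t P)
  · have h1 : (1 : MvPolynomial (Fin d) ℂ) - (1 - R ^ n) = R ^ n := by ring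
    rw [h1]
    exact lt_of_pow_lt_pow_left₀ 2 hε.le ((hb n hn2).trans_lt hn1)

/-- value of the monomial `z^k` at `ζ` -/
noncomputable def zp (ζ : Fin d → ℂ) (k : Fin d →₀ ℕ) : ℂ := ∏ j, ζ j ^ (k j)

lemma zp_add (ζ : Fin d → ℂ) (k l : Fin d →₀ ℕ) : zp ζ (k + l) = zp ζ k * zp ζ l := by
  simp [zp, pow_add, Finset.prod_mul_distrib]

lemma zp_zero (ζ : Fin d → ℂ) : zp ζ 0 = 1 := by simp [zp]

lemma norm_zp (ζ : Fin d → ℂ) (hζ : ∀ j, ‖ζ j‖ = 1) (k : Fin d →₀ ℕ) : ‖zp ζ k‖ = 1 := by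
  simp [zp, hζ]

lemma eval_eq_zp (ζ : Fin d → ℂ) (P : MvPolynomial (Fin d) ℂ) :
    eval ζ P = ∑ k ∈ P.support, coeff k P * zp ζ k := by
  rw [eval_eq']
  rfl

lemma eval_monomial_zp (ζ : Fin d → ℂ) (k : Fin d →₀ ℕ) (c : ℂ) :
    eval ζ (monomial k c) = c * zp ζ k := by
  rw [eval_monomial, zp, Finsupp.prod_fintype _ _ (fun _ => pow_zero _)]

/-- At a zero on the torus, the phases are consistent. -/
lemma phase_at_zero (P : MvPolynomial (Fin d) ℂ) (h0 : coeff 0 P ≠ 0)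
    (hdom : ∑ k ∈ P.support.erase 0, ‖coeff k P‖ ≤ ‖coeff 0 P‖)
    (ζ : Fin d → ℂ) (hζ : ∀ j, ‖ζ j‖ = 1) (hz : eval ζ P = 0) (a : Fin d →₀ ℕ)
    (ha : a ∈ P.support.erase 0) : ph P a = (zp ζ a)⁻¹ := by
  classical
  set q : (Fin d →₀ ℕ) → ℂ := fun k => - (coeff k P / coeff 0 P) * zp ζ k with hq
  have h0m : (0 : Fin d →₀ ℕ) ∈ P.support := mem_support_iff.mpr h0
  have hsumq : ∑ k ∈ P.support.erase 0, q k = 1 := by
    have h1 := hz
    rw [eval_eq_zp, ← Finset.add_sum_erase _ _ h0m, zp_zero, mul_one] at h1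
    have h2 : ∑ k ∈ P.support.erase 0, q k =
        - ((∑ k ∈ P.support.erase 0, coeff k P * zp ζ k) / coeff 0 P) := by
      rw [Finset.sum_div, ← Finset.sum_neg_distrib]
      apply Finset.sum_congr rfl
      intro k _
      simp only [hq]; ring
    rw [h2]
    have h3 : ∑ k ∈ P.support.erase 0, coeff k P * zp ζ k = - coeff 0 P := by
      linear_combination h1
    rw [h3, neg_div, div_self h0]; ring
  have hnq : ∀ k, ‖q k‖ = ‖coeff k P‖ / ‖coeff 0 P‖ := by
    intro k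
    simp only [hq]
    rw [norm_mul, norm_neg, norm_div, norm_zp ζ hζ, mul_one]
  have hsumn : ∑ k ∈ P.support.erase 0, ‖q k‖ ≤ 1 := by
    simp only [hnq]
    rw [← Finset.sum_div, div_le_one (norm_pos_iff.mpr h0)]
    exact hdom
  have hre : ∑ k ∈ P.support.erase 0, (‖q k‖ - (q k).re) ≤ 0 := by
    rw [Finset.sum_sub_distrib, ← Complex.re_sum, hsumq]
    simp only [Complex.one_re]
    linarith
  have hterm : ∀ k ∈ P.support.erase 0, 0 ≤ ‖q k‖ - (q k).re := fun k _ => by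
    have := Complex.re_le_norm (q k); linarith
  have hzero := (Finset.sum_eq_zero_iff_of_nonneg hterm).mp
    (le_antisymm hre (Finset.sum_nonneg hterm)) a ha
  have hqa : q a = ((‖q a‖ : ℝ) : ℂ) := by
    have h1 : (q a).re = ‖q a‖ := by linarith
    have h2 : (q a).im = 0 := by
      have h3 := Complex.sq_norm (q a)
      rw [Complex.normSq_apply] at h3
      rw [h1] at h3
      nlinarith
    apply Complex.ext
    · simpa using h1
    · simpa using h2
  have ha0 := Finset.ne_of_mem_erase ha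
  have haP : coeff a P ≠ 0 := mem_support_iff.mp (Finset.mem_of_mem_erase ha)
  have hzpne : zp ζ a ≠ 0 := by
    intro h
    have := norm_zp ζ hζ a
    rw [h, norm_zero] at this
    norm_num at this
  have hl : coeff a (lazy P) = (q a / 2) * (zp ζ a)⁻¹ := by
    rw [coeff_lazy P a ha0]
    simp only [hq]
    field_simp
  have hln : ‖coeff a (lazy P)‖ = ‖q a‖ / 2 := by
    rw [hl, norm_mul, norm_inv, norm_zp ζ hζ, norm_div]
    norm_num
  have hqn : (‖q a‖ : ℂ) ≠ 0 := by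
    have : ‖q a‖ ≠ 0 := by
      rw [hnq]
      exact div_ne_zero (norm_ne_zero_iff.mpr haP) (norm_ne_zero_iff.mpr h0)
    exact_mod_cast this
  rw [ph, hln, hl, hqa]
  push_cast
  rw [Complex.norm_real, norm_norm]
  field_simp

/-- Without zeros on the torus, the ideal of differences is everything, or there is strict
domination. -/
lemma JJ_eq_top (P : MvPolynomial (Fin d) ℂ) (h0 : coeff 0 P ≠ 0)
    (hdom : ∑ k ∈ P.support.erase 0, ‖coeff k P‖ = ‖coeff 0 P‖)
    (hz : ∀ ζ : Fin d → ℂ, (∀ j, ‖ζ j‖ = 1) → eval ζ P ≠ 0) : JJ P = ⊤ := by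
  classical
  by_contra hne
  obtain ⟨M, hM, hJM⟩ := Ideal.exists_le_maximal _ hne
  obtain ⟨x, hx⟩ := MvPolynomial.isMaximal_iff_eq_vanishingIdeal_singleton.mp hM
  have hxa : ∀ a ∈ P.support.erase 0, ph P a * zp x a = 1 := by
    intro a ha
    have h1 : (1 - monomial a (ph P a) : MvPolynomial (Fin d) ℂ) ∈ M :=
      hJM (Ideal.subset_span ⟨a, ha, rfl⟩)
    rw [hx, mem_vanishingIdeal_singleton_iff] at h1
    have h2 : eval x (1 - monomial a (ph P a)) = 0 := by
      simpa [MvPolynomial.aeval_eq_eval] using h1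
    rw [map_sub, map_one, eval_monomial_zp] at h2
    linear_combination -h2
  -- project to the torus
  set ζ : Fin d → ℂ := fun j => if x j = 0 then 1 else x j / ‖x j‖ with hζ
  have hζn : ∀ j, ‖ζ j‖ = 1 := by
    intro j
    simp only [hζ]
    split_ifs with h
    · exact norm_one
    · rw [norm_div, Complex.norm_real, norm_norm, div_self (norm_ne_zero_iff.mpr h)]
  have hzpa : ∀ a ∈ P.support.erase 0, zp ζ a = zp x a := by
    intro a ha
    have h1 := hxa a ha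
    have hne : zp x a ≠ 0 := by
      intro h; rw [h, mul_zero] at h1; exact zero_ne_one h1
    have hnorm : ‖zp x a‖ = 1 := by
      have h2 := congrArg norm h1
      rw [norm_mul, norm_ph P h0 a (Finset.mem_of_mem_erase ha), one_mul, norm_one] at h2
      exact h2
    have hj : ∀ j, ζ j ^ (a j) = x j ^ (a j) / ((‖x j‖ ^ (a j) : ℝ) : ℂ) := by
      intro j
      by_cases haj : a j = 0
      · simp [haj]
      · have hxj : x j ≠ 0 := by
          intro h
          apply hne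
          rw [zp]
          apply Finset.prod_eq_zero (Finset.mem_univ j)
          rw [h, zero_pow haj]
        simp only [hζ, if_neg hxj]
        rw [div_pow]
        push_cast
        rfl
    have h3 : zp ζ a = zp x a / ((‖zp x a‖ : ℝ) : ℂ) := by
      unfold zp
      rw [Finset.prod_congr rfl (fun j _ => hj j), Finset.prod_div_distrib]
      congr 1
      rw [norm_prod]
      push_cast
      apply Finset.prod_congr rfl
      intro j _
      rw [norm_pow]
      push_cast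
      rfl
    rw [h3, hnorm]
    simp
  apply hz ζ hζn
  have h0m : (0 : Fin d →₀ ℕ) ∈ P.support := mem_support_iff.mpr h0
  rw [eval_eq_zp, ← Finset.add_sum_erase _ _ h0m, zp_zero, mul_one]
  have hterm : ∀ a ∈ P.support.erase 0, coeff a P * zp ζ a =
      - coeff 0 P * ((‖coeff a P‖ / ‖coeff 0 P‖ : ℝ) : ℂ) := by
    intro a ha
    have h1 := hxa a ha
    rw [← hzpa a ha] at h1
    have ha0 := Finset.ne_of_mem_erase ha
    have haP : coeff a P ≠ 0 := mem_support_iff.mp (Finset.mem_of_mem_erase ha)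
    have hln : ‖coeff a (lazy P)‖ = ‖coeff a P‖ / (2 * ‖coeff 0 P‖) := by
      rw [coeff_lazy P a ha0, norm_neg, norm_div, norm_mul]; norm_num
    have hne1 : (‖coeff a P‖ : ℂ) ≠ 0 := by exact_mod_cast norm_ne_zero_iff.mpr haP
    have hne0 : (‖coeff 0 P‖ : ℂ) ≠ 0 := by exact_mod_cast norm_ne_zero_iff.mpr h0
    rw [ph, hln, coeff_lazy P a ha0] at h1
    push_cast at h1 ⊢
    field_simp at h1
    field_simp
    linear_combination -h1
  rw [Finset.sum_congr rfl hterm, ← Finset.mul_sum, ← Complex.ofReal_sum, ← Finset.sum_div, hdom,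
    div_self (norm_ne_zero_iff.mpr h0)]
  simp

/-- If `P` has no zero on the torus then it is cyclic for every `t`. -/
lemma cyclic_of_no_zero (t : ℝ) (P : MvPolynomial (Fin d) ℂ) (h0 : coeff 0 P ≠ 0)
    (hdom : ∑ k ∈ P.support.erase 0, ‖coeff k P‖ ≤ ‖coeff 0 P‖)
    (hz : ∀ ζ : Fin d → ℂ, (∀ j, ‖ζ j‖ = 1) → eval ζ P ≠ 0) :
    (1 : MvPolynomial (Fin d) ℂ) ∈ cl t P := by
  rcases hdom.lt_or_eq with h | h
  · exact cyclic_of_strict t P h0 h
  · obtain ⟨N, hN⟩ := JJ_pow_le t P h0 hdom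
    rw [JJ_eq_top P h0 h hz] at hN
    apply hN
    rw [Ideal.top_pow]
    trivial

end Pool.MP4ac1fb
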