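import Pool.Agent.H.MP_4ac1fb_an.Lattice

/-!
Constant-dominated polynomials with a zero on the torus: cyclic iff a lattice sum diverges.
-/

namespace Pool.MP4ac1fb

open MvPolynomial

variable {d : ℕ}

/-- normalised monomial -/
noncomputable def ee (ζ : Fin d → ℂ) (k : Fin d →₀ ℕ) : MvPolynomial (Fin d) ℂ :=
  monomial k (zp ζ k)⁻¹

lemma ee_add (ζ : Fin d → ℂ) (k l : Fin d →₀ ℕ) : ee ζ (k + l) = ee ζ k * ee ζ l := by
  rw [ee, ee, ee, monomial_mul, zp_add, mul_inv]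

lemma ee_zero (ζ : Fin d → ℂ) : ee ζ 0 = 1 := by
  rw [ee, zp_zero, inv_one]; rfl

lemma ee_pow (ζ : Fin d → ℂ) (k : Fin d →₀ ℕ) (i : ℕ) : ee ζ k ^ i = ee ζ (i • k) := by
  induction i with
  | zero => rw [pow_zero, zero_smul, ee_zero]
  | succ i ih => rw [pow_succ, ih, succ_nsmul, ee_add]

/-- exponents whose difference `1 - e` lies in the ideal `I` form a monoid -/
lemma one_sub_ee_add {I : Ideal (MvPolynomial (Fin d) ℂ)} {ζ : Fin d → ℂ} {k l : Fin d →₀ ℕ}
    (hk : 1 - ee ζ k ∈ I) (hl : 1 - ee ζ l ∈ I) : 1 - ee ζ (k + l) ∈ I := by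
  have : 1 - ee ζ (k + l) = (1 - ee ζ k) + ee ζ k * (1 - ee ζ l) := by rw [ee_add]; ring
  rw [this]
  exact I.add_mem hk (I.mul_mem_left _ hl)

lemma one_sub_ee_sub {I : Ideal (MvPolynomial (Fin d) ℂ)} {ζ : Fin d → ℂ} {k l : Fin d →₀ ℕ}
    (hl : 1 - ee ζ l ∈ I) (hkl : 1 - ee ζ (k + l) ∈ I) : 1 - ee ζ k ∈ I := by
  have : 1 - ee ζ k = (1 - ee ζ k) * (1 - ee ζ l) + ((1 - ee ζ (k + l)) - (1 - ee ζ l)) := by
    rw [ee_add]; ring
  rw [this]
  exact I.add_mem (I.mul_mem_left _ hl) (I.sub_mem hkl hl)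

lemma toZ_add (k l : Fin d →₀ ℕ) : toZ (k + l) = toZ k + toZ l := by
  funext j; simp [toZ]

lemma toZ_injective : Function.Injective (toZ : (Fin d →₀ ℕ) → (Fin d → ℤ)) := by
  intro k l h
  ext j
  have := congrFun h j
  simpa [toZ] using this

/-- the subgroup of differences -/
def diffGroup (I : Ideal (MvPolynomial (Fin d) ℂ)) (ζ : Fin d → ℂ) : AddSubgroup (Fin d → ℤ) where
  carrier := {v | ∃ A B : Fin d →₀ ℕ, 1 - ee ζ A ∈ I ∧ 1 - ee ζ B ∈ I ∧ v + toZ B = toZ A}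
  zero_mem' := ⟨0, 0, by rw [ee_zero, sub_self]; exact I.zero_mem,
    by rw [ee_zero, sub_self]; exact I.zero_mem, by simp⟩
  add_mem' := by
    rintro v w ⟨A, B, hA, hB, h⟩ ⟨A', B', hA', hB', h'⟩
    refine ⟨A + A', B + B', one_sub_ee_add hA hA', one_sub_ee_add hB hB', ?_⟩
    rw [toZ_add, toZ_add, ← h, ← h']
    abel
  neg_mem' := by
    rintro v ⟨A, B, hA, hB, h⟩
    refine ⟨B, A, hB, hA, ?_⟩
    rw [← h]
    abel

lemma one_sub_ee_mem {P : MvPolynomial (Fin d) ℂ} (h0 : coeff 0 P ≠ 0)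
    (hdom : ∑ k ∈ P.support.erase 0, ‖coeff k P‖ ≤ ‖coeff 0 P‖)
    (ζ : Fin d → ℂ) (hζ : ∀ j, ‖ζ j‖ = 1) (hz : eval ζ P = 0) (k : Fin d →₀ ℕ)
    (hk : toZ k ∈ lattice P) : 1 - ee ζ k ∈ JJ P := by
  classical
  have hle : lattice P ≤ AddSubgroup.toIntSubmodule (diffGroup (JJ P) ζ) := by
    rw [lattice, Submodule.span_le]
    rintro v ⟨a, ha, rfl⟩
    change toZ a ∈ diffGroup (JJ P) ζ
    by_cases ha0 : a = 0
    · subst ha0
      have : toZ (0 : Fin d →₀ ℕ) = 0 := by funext j; simp [toZ]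
      rw [this]
      exact (diffGroup (JJ P) ζ).zero_mem
    · refine ⟨a, 0, ?_, by rw [ee_zero, sub_self]; exact (JJ P).zero_mem, ?_⟩
      · have ha' : a ∈ P.support.erase 0 := Finset.mem_erase.mpr ⟨ha0, ha⟩
        rw [ee, ← phase_at_zero P h0 hdom ζ hζ hz a ha']
        exact Ideal.subset_span ⟨a, ha', rfl⟩
      · have : toZ (0 : Fin d →₀ ℕ) = 0 := by funext j; simp [toZ]
        rw [this, add_zero]
  obtain ⟨A, B, hA, hB, h⟩ := hle hk
  rw [← toZ_add] at h
  have hAB := toZ_injective h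
  apply one_sub_ee_sub hB
  rw [hAB]
  exact hA

lemma wt_smul_le (t : ℝ) (T : ℕ) (hT : t ≤ T) (i : ℕ) (hi : 1 ≤ i) (k : Fin d →₀ ℕ) :
    wt t (i • k) ≤ ((i : ℝ) ^ T) ^ d * wt t k := by
  have hir : (1 : ℝ) ≤ i := by exact_mod_cast hi
  have hprod : ((i : ℝ) ^ T) ^ d = ∏ _j : Fin d, ((i : ℝ) ^ T) := by
    rw [Finset.prod_const, Finset.card_univ, Fintype.card_fin]
  unfold wt
  rw [hprod, ← Finset.prod_mul_distrib]
  apply Finset.prod_le_prod
  · intro j _; positivity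
  · intro j _
    have hk0 : (0 : ℝ) ≤ (k j : ℝ) := by positivity
    have hcast : (((i • k) j : ℕ) : ℝ) = (i : ℝ) * (k j : ℝ) := by simp
    rw [hcast]
    rcases le_total 0 t with ht | ht
    · have h1 : (i : ℝ) * (k j : ℝ) + 1 ≤ i * ((k j : ℝ) + 1) := by nlinarith
      calc ((i : ℝ) * (k j : ℝ) + 1) ^ t ≤ (i * ((k j : ℝ) + 1)) ^ t :=
            Real.rpow_le_rpow (by positivity) h1 ht
        _ = (i : ℝ) ^ t * ((k j : ℝ) + 1) ^ t := Real.mul_rpow (by positivity) (by positivity)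
        _ ≤ (i : ℝ) ^ T * ((k j : ℝ) + 1) ^ t := by
            apply mul_le_mul_of_nonneg_right _ (by positivity)
            rw [← Real.rpow_natCast]
            exact Real.rpow_le_rpow_of_exponent_le hir hT
    · have h1 : (k j : ℝ) + 1 ≤ (i : ℝ) * (k j : ℝ) + 1 := by nlinarith
      calc ((i : ℝ) * (k j : ℝ) + 1) ^ t ≤ ((k j : ℝ) + 1) ^ t :=
            Real.rpow_le_rpow_of_nonpos (by positivity) h1 ht
        _ = 1 * ((k j : ℝ) + 1) ^ t := (one_mul _).symm
        _ ≤ (i : ℝ) ^ T * ((k j : ℝ) + 1) ^ t := by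
            apply mul_le_mul_of_nonneg_right _ (by positivity)
            exact one_le_pow₀ hir

/-- the lattice sum -/
def LatSummable (t : ℝ) (Λ : Submodule ℤ (Fin d → ℤ)) : Prop :=
  Summable fun k : {k : Fin d →₀ ℕ // toZ k ∈ Λ} => (wt t k.1)⁻¹

/-- divergence of the lattice sum gives cyclicity -/
lemma cyclic_of_not_summable (t : ℝ) (P : MvPolynomial (Fin d) ℂ) (h0 : coeff 0 P ≠ 0)
    (hdom : ∑ k ∈ P.support.erase 0, ‖coeff k P‖ ≤ ‖coeff 0 P‖)
    (ζ : Fin d → ℂ) (hζ : ∀ j, ‖ζ j‖ = 1) (hz : eval ζ P = 0)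
    (hs : ¬ LatSummable t (lattice P)) :
    (1 : MvPolynomial (Fin d) ℂ) ∈ cl t P := by
  classical
  obtain ⟨N, hN⟩ := JJ_pow_le t P h0 hdom
  -- strengthen to `1 ≤ N`
  have hmem : ∀ k : Fin d →₀ ℕ, toZ k ∈ lattice P → (1 - ee ζ k) ^ N ∈ cl t P := fun k hk =>
    hN (Ideal.pow_mem_pow (one_sub_ee_mem h0 hdom ζ hζ hz k hk) N)
  set T := ⌈t⌉₊ with hT
  have hbig : ∀ B : ℝ, ∃ F : Finset {k : Fin d →₀ ℕ // toZ k ∈ lattice P},
      B < ∑ k ∈ F, (wt t k.1)⁻¹ := by
    intro B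
    by_contra hcon
    push Not at hcon
    apply hs
    exact summable_of_sum_le (fun k => inv_nonneg.mpr (wt_pos t k.1).le) hcon
  -- coefficients of `1 - (1 - x)^N`
  set cf : ℕ → ℂ := fun i => - ((-1 : ℂ) ^ (i + 1) * (N.choose (i + 1) : ℂ)) with hcf
  have hbinom : ∀ x : MvPolynomial (Fin d) ℂ, 1 - (1 - x) ^ N =
      ∑ i ∈ Finset.range N, C (cf i) * x ^ (i + 1) := by
    intro x
    have h1 : (1 - x) ^ N = ∑ i ∈ Finset.range (N + 1), C ((-1 : ℂ) ^ i * (N.choose i : ℂ)) * x ^ i := by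
      have : (1 - x) = (-x) + 1 := by ring
      rw [this, add_pow]
      apply Finset.sum_congr rfl
      intro i _
      rw [one_pow, mul_one, neg_pow]
      simp only [C_mul, C_pow, C_neg, C_1, map_natCast]
      ring
    rw [h1, Finset.sum_range_succ', pow_zero, pow_zero, Nat.choose_zero_right]
    simp only [Nat.cast_one, mul_one, C_1]
    rw [← sub_sub, sub_right_comm, sub_self, zero_sub, ← Finset.sum_neg_distrib]
    apply Finset.sum_congr rfl
    intro i _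
    simp only [hcf, C_neg]
    ring
  set K : ℝ := ∑ i ∈ Finset.range N, ‖cf i‖ * Real.sqrt ((((i + 1 : ℕ) : ℝ) ^ T) ^ d) with hK
  have hKn : 0 ≤ K := Finset.sum_nonneg fun _ _ => by positivity
  apply mem_cl_of_approx
  intro ε hε
  obtain ⟨F, hF⟩ := hbig ((K / ε) ^ 2 + 1)
  set Z := ∑ k ∈ F, (wt t k.1)⁻¹ with hZ
  have hZpos : 0 < Z := by have := sq_nonneg (K / ε); linarith
  set w : {k : Fin d →₀ ℕ // toZ k ∈ lattice P} → ℝ := fun k => (wt t k.1)⁻¹ / Z with hw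
  have hwsum : ∑ k ∈ F, w k = 1 := by
    simp only [hw]
    rw [← Finset.sum_div, ← hZ, div_self hZpos.ne']
  set g : MvPolynomial (Fin d) ℂ := ∑ k ∈ F, C ((w k : ℝ) : ℂ) * (1 - ee ζ k.1) ^ N with hg
  refine ⟨g, Submodule.sum_mem _ fun k _ => (cl t P).mul_mem_left _ (hmem k.1 k.2), ?_⟩
  have h1g : 1 - g = ∑ i ∈ Finset.range N, C (cf i) *
      ∑ k ∈ F, C ((w k : ℝ) : ℂ) * ee ζ ((i + 1) • k.1) := by
    have h2 : (1 : MvPolynomial (Fin d) ℂ) = ∑ k ∈ F, C ((w k : ℝ) : ℂ) := by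
      rw [← map_sum, ← Complex.ofReal_sum, hwsum]; simp
    calc 1 - g = ∑ k ∈ F, C ((w k : ℝ) : ℂ) - g := by rw [← h2]
      _ = ∑ k ∈ F, C ((w k : ℝ) : ℂ) * (1 - (1 - ee ζ k.1) ^ N) := by
          rw [hg, ← Finset.sum_sub_distrib]
          apply Finset.sum_congr rfl
          intro k _; ring
      _ = ∑ k ∈ F, ∑ i ∈ Finset.range N, C (cf i) * (C ((w k : ℝ) : ℂ) * ee ζ ((i + 1) • k.1)) := by
          apply Finset.sum_congr rfl
          intro k _
          rw [hbinom, Finset.mul_sum]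
          apply Finset.sum_congr rfl
          intro i _
          rw [ee_pow]; ring
      _ = _ := by
          rw [Finset.sum_comm]
          apply Finset.sum_congr rfl
          intro i _
          rw [Finset.mul_sum]
  have hinner : ∀ i : ℕ, ‖W t (∑ k ∈ F, C ((w k : ℝ) : ℂ) * ee ζ ((i + 1) • k.1))‖ ≤
      Real.sqrt ((((i + 1 : ℕ) : ℝ) ^ T) ^ d) / Real.sqrt Z := by
    intro i
    have hsq : ‖W t (∑ k ∈ F, C ((w k : ℝ) : ℂ) * ee ζ ((i + 1) • k.1))‖ ^ 2 ≤
        (((i + 1 : ℕ) : ℝ) ^ T) ^ d / Z := by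
      have hinj : ∀ x ∈ F, ∀ y ∈ F, (i + 1) • x.1 = (i + 1) • y.1 → x = y := by
        intro x _ y _ hxy
        apply Subtype.ext
        ext j
        have := DFunLike.congr_fun hxy j
        simp only [Finsupp.smul_apply, smul_eq_mul] at this
        exact Nat.eq_of_mul_eq_mul_left (Nat.succ_pos i) this
      have hcoeff : ∀ l : Fin d →₀ ℕ, coeff l (∑ k ∈ F, C ((w k : ℝ) : ℂ) * ee ζ ((i + 1) • k.1)) =
          ∑ k ∈ F, if (i + 1) • k.1 = l then ((w k : ℝ) : ℂ) * (zp ζ ((i + 1) • k.1))⁻¹ else 0 := by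
        intro l
        rw [coeff_sum]
        apply Finset.sum_congr rfl
        intro k _
        rw [ee, C_mul_monomial, coeff_monomial]
      have hsupp : (∑ k ∈ F, C ((w k : ℝ) : ℂ) * ee ζ ((i + 1) • k.1)).support ⊆
          F.image (fun k => (i + 1) • k.1) := by
        intro l hl
        rw [mem_support_iff, hcoeff] at hl
        by_contra hcon
        apply hl
        apply Finset.sum_eq_zero
        intro k hk
        rw [if_neg]
        intro h
        exact hcon (Finset.mem_image.mpr ⟨k, hk, h⟩)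
      rw [norm_W_sq' t _ _ hsupp, Finset.sum_image hinj]
      have hval : ∀ k ∈ F, coeff ((i + 1) • k.1)
          (∑ k ∈ F, C ((w k : ℝ) : ℂ) * ee ζ ((i + 1) • k.1)) =
          ((w k : ℝ) : ℂ) * (zp ζ ((i + 1) • k.1))⁻¹ := by
        intro k hk
        rw [hcoeff, Finset.sum_eq_single k]
        · rw [if_pos rfl]
        · intro k' hk' hne
          rw [if_neg]
          intro h
          exact hne (hinj k' hk' k hk h)
        · intro h; exact absurd hk h
      have hterm : ∀ k ∈ F, wt t ((i + 1) • k.1) * ‖coeff ((i + 1) • k.1)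
          (∑ k ∈ F, C ((w k : ℝ) : ℂ) * ee ζ ((i + 1) • k.1))‖ ^ 2 ≤
          (((i + 1 : ℕ) : ℝ) ^ T) ^ d * ((wt t k.1)⁻¹ / Z ^ 2) := by
        intro k hk
        rw [hval k hk, norm_mul, norm_inv, norm_zp ζ hζ, inv_one, mul_one, Complex.norm_real,
          Real.norm_eq_abs, sq_abs]
        have h3 := wt_smul_le t T (Nat.le_ceil t) (i + 1) (by omega) k.1
        have h4 : wt t k.1 ≠ 0 := (wt_pos t k.1).ne'
        calc wt t ((i + 1) • k.1) * w k ^ 2
            ≤ ((((i + 1 : ℕ) : ℝ) ^ T) ^ d * wt t k.1) * w k ^ 2 :=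
              mul_le_mul_of_nonneg_right h3 (sq_nonneg _)
          _ = (((i + 1 : ℕ) : ℝ) ^ T) ^ d * ((wt t k.1)⁻¹ / Z ^ 2) := by
              simp only [hw]
              field_simp
      refine (Finset.sum_le_sum hterm).trans ?_
      rw [← Finset.mul_sum, ← Finset.sum_div, ← hZ]
      apply le_of_eq
      field_simp
    rw [← Real.sqrt_div (by positivity)]
    exact Real.le_sqrt_of_sq_le hsq
  have hnorm : ‖W t (1 - g)‖ ≤ K / Real.sqrt Z := by
    rw [h1g, map_sum, hK, Finset.sum_div]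
    refine (norm_sum_le _ _).trans (Finset.sum_le_sum fun i _ => ?_)
    rw [← smul_eq_C_mul, map_smul, norm_smul, mul_div_assoc]
    exact mul_le_mul_of_nonneg_left (hinner i) (norm_nonneg _)
  refine hnorm.trans_lt ?_
  rw [div_lt_iff₀ (Real.sqrt_pos.mpr hZpos)]
  have h5 : K / ε < Real.sqrt Z := by
    apply Real.lt_sqrt_of_sq_lt
    linarith
  rw [div_lt_iff₀ hε] at h5
  linarith

/-- convergence of the lattice sum obstructs cyclicity -/
lemma not_cyclic_of_summable (t : ℝ) (P : MvPolynomial (Fin d) ℂ)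
    (ζ : Fin d → ℂ) (hζ : ∀ j, ‖ζ j‖ = 1) (hz : eval ζ P = 0)
    (hs : LatSummable t (lattice P)) :
    (1 : MvPolynomial (Fin d) ℂ) ∉ cl t P := by
  classical
  intro hone
  set L : MvPolynomial (Fin d) ℂ →ₗ[ℂ] ℂ := (basisMonomials (Fin d) ℂ).constr ℂ
    (fun k => if toZ k ∈ lattice P then zp ζ k else 0) with hL
  have hLm : ∀ (k : Fin d →₀ ℕ) (c : ℂ), L (monomial k c) =
      c * (if toZ k ∈ lattice P then zp ζ k else 0) := by
    intro k c
    have h1 : (monomial k c : MvPolynomial (Fin d) ℂ) = c • (basisMonomials (Fin d) ℂ) k := by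
      rw [coe_basisMonomials, smul_monomial, smul_eq_mul, mul_one]
    rw [h1, map_smul, hL, Module.Basis.constr_basis, smul_eq_mul]
  have hLf : ∀ f : MvPolynomial (Fin d) ℂ, L f = ∑ k ∈ f.support,
      coeff k f * (if toZ k ∈ lattice P then zp ζ k else 0) := by
    intro f
    conv_lhs => rw [MvPolynomial.as_sum f]
    rw [map_sum]
    exact Finset.sum_congr rfl fun k _ => hLm k _
  have hPmem : ∀ a ∈ P.support, toZ a ∈ lattice P := fun a ha =>
    Submodule.subset_span ⟨a, ha, rfl⟩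
  have hann : ∀ Q : MvPolynomial (Fin d) ℂ, L (Q * P) = 0 := by
    intro Q
    induction Q using MvPolynomial.induction_on' with
    | monomial b c =>
      have h1 : monomial b c * P = ∑ a ∈ P.support, monomial (b + a) (c * coeff a P) := by
        conv_lhs => rw [MvPolynomial.as_sum P]
        rw [Finset.mul_sum]
        exact Finset.sum_congr rfl fun a _ => monomial_mul
      rw [h1, map_sum]
      have h2 : ∀ a ∈ P.support, L (monomial (b + a) (c * coeff a P)) =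
          (c * if toZ b ∈ lattice P then zp ζ b else 0) * (coeff a P * zp ζ a) := by
        intro a ha
        rw [hLm]
        have h3 : toZ (b + a) ∈ lattice P ↔ toZ b ∈ lattice P := by
          rw [toZ_add]
          exact Submodule.add_mem_iff_left _ (hPmem a ha)
        by_cases hb : toZ b ∈ lattice P
        · rw [if_pos (h3.mpr hb), if_pos hb, zp_add]; ring
        · rw [if_neg (fun h => hb (h3.mp h)), if_neg hb]; ring
      rw [Finset.sum_congr rfl h2, ← Finset.mul_sum, ← eval_eq_zp, hz, mul_zero]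
    | add p q hp hq => rw [add_mul, map_add, hp, hq, add_zero]
  -- boundedness
  set S : ℝ := ∑' k : {k : Fin d →₀ ℕ // toZ k ∈ lattice P}, (wt t k.1)⁻¹ with hS
  have hSn : 0 ≤ S := tsum_nonneg fun k => inv_nonneg.mpr (wt_pos t k.1).le
  have hbd : ∀ f : MvPolynomial (Fin d) ℂ, ‖L f‖ ^ 2 ≤ S * ‖W t f‖ ^ 2 := by
    intro f
    rw [hLf, norm_W_sq]
    have h1 : ‖∑ k ∈ f.support, coeff k f * (if toZ k ∈ lattice P then zp ζ k else 0)‖ ≤
        ∑ k ∈ f.support, (if toZ k ∈ lattice P then sw t k else 0)⁻¹ * (sw t k * ‖coeff k f‖) := by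
      refine (norm_sum_le _ _).trans (Finset.sum_le_sum fun k _ => ?_)
      rw [norm_mul]
      split_ifs with h
      · rw [norm_zp ζ hζ, mul_one, ← mul_assoc, inv_mul_cancel₀ (sw_pos t k).ne', one_mul]
      · simp
    have h2 := Finset.sum_mul_sq_le_sq_mul_sq f.support
      (fun k => (if toZ k ∈ lattice P then sw t k else 0)⁻¹) (fun k => sw t k * ‖coeff k f‖)
    have h3 : ∑ k ∈ f.support, ((if toZ k ∈ lattice P then sw t k else 0)⁻¹) ^ 2 ≤ S := by
      have h4 : ∑ k ∈ f.support, ((if toZ k ∈ lattice P then sw t k else 0)⁻¹) ^ 2 =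
          ∑ k ∈ f.support.filter (fun k => toZ k ∈ lattice P), (wt t k)⁻¹ := by
        rw [Finset.sum_filter]
        apply Finset.sum_congr rfl
        intro k _
        split_ifs with h
        · rw [inv_pow, sw_sq]
        · simp
      rw [h4, hS]
      have h5 : ∑ k ∈ f.support.filter (fun k => toZ k ∈ lattice P), (wt t k)⁻¹ =
          ∑ k ∈ f.support.subtype (fun k => toZ k ∈ lattice P), (wt t k.1)⁻¹ :=
        (Finset.sum_subtype_eq_sum_filter (s := f.support) (p := fun k => toZ k ∈ lattice P)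
          (f := fun k => (wt t k)⁻¹)).symm
      rw [h5]
      exact hs.sum_le_tsum _ (fun k _ => inv_nonneg.mpr (wt_pos t k.1).le)
    calc _ ≤ (∑ k ∈ f.support, (if toZ k ∈ lattice P then sw t k else 0)⁻¹ *
            (sw t k * ‖coeff k f‖)) ^ 2 := pow_le_pow_left₀ (norm_nonneg _) h1 2
      _ ≤ _ := h2
      _ ≤ S * ∑ k ∈ f.support, (sw t k * ‖coeff k f‖) ^ 2 :=
          mul_le_mul_of_nonneg_right h3 (Finset.sum_nonneg fun _ _ => sq_nonneg _)
      _ = _ := by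
          congr 1
          apply Finset.sum_congr rfl
          intro k _
          rw [mul_pow, sw_sq]
  have hL1 : L 1 = 1 := by
    have h1 : (1 : MvPolynomial (Fin d) ℂ) = monomial 0 1 := rfl
    have h2 : toZ (0 : Fin d →₀ ℕ) = 0 := by funext j; simp [toZ]
    rw [h1, hLm, h2, if_pos (lattice P).zero_mem, zp_zero, mul_one]
  obtain ⟨Q, hQ⟩ := hone (1 / (S + 1)) (by positivity)
  have h1 := hbd (1 - Q * P)
  rw [map_sub, hann, hL1, sub_zero, norm_one, one_pow] at h1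
  have h2 : ‖W t (1 - Q * P)‖ ^ 2 ≤ (1 / (S + 1)) ^ 2 :=
    pow_le_pow_left₀ (norm_nonneg _) hQ.le 2
  have h3 : S * (1 / (S + 1)) ^ 2 < 1 := by
    rw [div_pow, one_pow, mul_one_div, div_lt_one (by positivity)]
    nlinarith
  have h4 : S * ‖W t (1 - Q * P)‖ ^ 2 ≤ S * (1 / (S + 1)) ^ 2 :=
    mul_le_mul_of_nonneg_left h2 hSn
  linarith

theorem cyclic_iff_latSummable (t : ℝ) (P : MvPolynomial (Fin d) ℂ) (h0 : coeff 0 P ≠ 0)
    (hdom : ∑ k ∈ P.support.erase 0, ‖coeff k P‖ ≤ ‖coeff 0 P‖) :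
    ShiftCyclic t P ↔ (∀ ζ : Fin d → ℂ, (∀ j, ‖ζ j‖ = 1) → eval ζ P ≠ 0) ∨
      ¬ LatSummable t (lattice P) := by
  rw [shiftCyclic_iff]
  constructor
  · intro h
    by_contra hcon
    push Not at hcon
    obtain ⟨⟨ζ, hζ, hz⟩, hs⟩ := hcon
    exact not_cyclic_of_summable t P ζ hζ hz hs h
  · rintro (h | h)
    · exact cyclic_of_no_zero t P h0 hdom h
    · by_cases hz : ∀ ζ : Fin d → ℂ, (∀ j, ‖ζ j‖ = 1) → eval ζ P ≠ 0
      · exact cyclic_of_no_zero t P h0 hdom hz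
      · push Not at hz
        obtain ⟨ζ, hζ, hz⟩ := hz
        exact cyclic_of_not_summable t P h0 hdom ζ hζ hz h

end Pool.MP4ac1fb
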