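import Pool.Agent.H.MP_4ac1fb_an.Thin

/-!
Toral polynomials with a regular point on their real zero set are not cyclic for large `t`.
-/

namespace Pool.MP4ac1fb

open MvPolynomial

variable {d : ℕ}

/-- the fibre as a ring homomorphism -/
noncomputable def fibHom (z : Fin d → ℂ) (j : Fin d) : MvPolynomial (Fin d) ℂ →+* Polynomial ℂ :=
  (Polynomial.mapRingHom (eval fun b : {b : Fin d // b ≠ j} => z b)).comp
    ((phi j : MvPolynomial (Fin d) ℂ ≃ₐ[ℂ] _) :
      MvPolynomial (Fin d) ℂ →+* Polynomial (MvPolynomial {b : Fin d // b ≠ j} ℂ))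

lemma fib_eq (Q : MvPolynomial (Fin d) ℂ) (z : Fin d → ℂ) (j : Fin d) :
    fib Q z j = fibHom z j Q := rfl

lemma derivative_fib (Q : MvPolynomial (Fin d) ℂ) (z : Fin d → ℂ) (j : Fin d) :
    Polynomial.derivative (fib Q z j) = fib (pderiv j Q) z j := by
  simp only [fib_eq]
  have hC : ∀ a : ℂ, fibHom z j (C a) = Polynomial.C a := by
    intro a; simp [fibHom, phi]
  have hXj : fibHom z j (X j) = Polynomial.X := by
    simp [fibHom, phi]
  have hXi : ∀ i, i ≠ j → fibHom z j (X i) = Polynomial.C (z i) := by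
    intro i hij
    simp [fibHom, phi, Equiv.optionSubtypeNe_symm_of_ne hij]
  induction Q using MvPolynomial.induction_on with
  | C a => rw [hC, Polynomial.derivative_C, pderiv_C, map_zero]
  | add p q hp hq => rw [map_add, map_add, map_add, map_add, hp, hq]
  | mul_X p i hp =>
    rw [map_mul, Polynomial.derivative_mul, hp, Derivation.leibniz, smul_eq_mul, smul_eq_mul,
      map_add, map_mul, map_mul]
    by_cases hij : i = j
    · subst hij
      rw [hXj, Polynomial.derivative_X, pderiv_X_self, map_one]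
      ring
    · rw [hXi i hij, Polynomial.derivative_C, pderiv_X_of_ne hij, map_zero]
      ring

lemma hasDerivAt_fib (Q : MvPolynomial (Fin d) ℂ) (z : Fin d → ℂ) (j : Fin d) (w : ℂ) :
    HasDerivAt (fun u => eval (Function.update z j u) Q)
      (eval (Function.update z j w) (pderiv j Q)) w := by
  have h := (fib Q z j).hasDerivAt w
  rw [derivative_fib, eval_fib] at h
  have h2 : (fun u => eval (Function.update z j u) Q) = fun u => (fib Q z j).eval u := by
    funext u; rw [eval_fib]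
  rw [h2]
  exact h

lemma low_lip (Q : MvPolynomial (Fin d) ℂ) (p : Fin d → ℂ) (J : Finset (Fin d))
    (hJ : J.Nonempty) (hp : ∀ j ∈ J, eval p (pderiv j Q) ≠ 0) :
    ∃ δ > 0, ∃ c > 0, ∀ j ∈ J, ∀ z : Fin d → ℂ, (∀ i, ‖z i - p i‖ < δ) → ∀ w w' : ℂ,
      ‖w - p j‖ < δ → ‖w' - p j‖ < δ →
      c * ‖w - w'‖ ≤ ‖eval (Function.update z j w) Q - eval (Function.update z j w') Q‖ := by
  classical
  obtain ⟨j1, hj1, hmin⟩ := Finset.exists_min_image J (fun j => ‖eval p (pderiv j Q)‖ / 2) hJ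
  have hev : ∀ᶠ x in nhds p, ∀ j ∈ J,
      ‖eval x (pderiv j Q) - eval p (pderiv j Q)‖ ≤ ‖eval p (pderiv j Q)‖ / 2 := by
    rw [Filter.eventually_all_finset]
    intro j hj
    have hc : Continuous fun x : Fin d → ℂ => ‖eval x (pderiv j Q) - eval p (pderiv j Q)‖ :=
      ((MvPolynomial.continuous_eval (pderiv j Q)).sub continuous_const).norm
    have h1 := hc.tendsto p
    rw [sub_self, norm_zero] at h1
    have h2 : 0 < ‖eval p (pderiv j Q)‖ / 2 := by
      have := norm_pos_iff.mpr (hp j hj); positivity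
    filter_upwards [h1.eventually_lt_const h2] with x hx using hx.le
  obtain ⟨δ, hδ, hball⟩ := Metric.eventually_nhds_iff.mp hev
  refine ⟨δ, hδ, ‖eval p (pderiv j1 Q)‖ / 2, by
    have := norm_pos_iff.mpr (hp j1 hj1); positivity, ?_⟩
  intro j hj z hz w w' hw hw'
  set α := eval p (pderiv j Q) with hα
  have hder : ∀ x ∈ Metric.ball (p j) δ, HasDerivWithinAt
      (fun u => eval (Function.update z j u) Q - α * u)
      (eval (Function.update z j x) (pderiv j Q) - α) (Metric.ball (p j) δ) x := by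
    intro x _
    have h1 := hasDerivAt_fib Q z j x
    have h2 : HasDerivAt (fun u : ℂ => α * u) α x := by
      simpa using (hasDerivAt_id x).const_mul α
    exact (h1.sub h2).hasDerivWithinAt
  have hbd : ∀ x ∈ Metric.ball (p j) δ,
      ‖eval (Function.update z j x) (pderiv j Q) - α‖ ≤ ‖α‖ / 2 := by
    intro x hx
    apply hball _ j hj
    rw [dist_pi_lt_iff hδ]
    intro i
    by_cases hij : i = j
    · subst hij; rw [Function.update_self]; exact hx
    · rw [Function.update_of_ne hij, dist_eq_norm]; exact hz i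
  have hmv := Convex.norm_image_sub_le_of_norm_hasDerivWithin_le hder hbd (convex_ball _ _)
    (Metric.mem_ball.mpr (by rw [dist_eq_norm]; exact hw') : w' ∈ Metric.ball (p j) δ)
    (Metric.mem_ball.mpr (by rw [dist_eq_norm]; exact hw) : w ∈ Metric.ball (p j) δ)
  have h3 : α * (w - w') = (eval (Function.update z j w) Q - eval (Function.update z j w') Q) -
      ((eval (Function.update z j w) Q - α * w) - (eval (Function.update z j w') Q - α * w')) := by
    ring
  have h4 : ‖α‖ * ‖w - w'‖ ≤ ‖eval (Function.update z j w) Q - eval (Function.update z j w') Q‖ +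
      ‖α‖ / 2 * ‖w - w'‖ := by
    rw [← norm_mul, h3]
    exact (norm_sub_le _ _).trans (by linarith)
  have h5 := hmin j hj
  have h6 : ‖eval p (pderiv j1 Q)‖ / 2 * ‖w - w'‖ ≤ ‖α‖ / 2 * ‖w - w'‖ :=
    mul_le_mul_of_nonneg_right h5 (norm_nonneg _)
  linarith

lemma norm_eval_le (f : MvPolynomial (Fin d) ℂ) (z : Fin d → ℂ) (hz : ∀ i, ‖z i‖ ≤ 1) :
    ‖eval z f‖ ≤ ∑ k ∈ f.support, ‖coeff k f‖ := by
  rw [eval_eq_zp]
  refine (norm_sum_le _ _).trans (Finset.sum_le_sum fun k _ => ?_)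
  rw [norm_mul]
  have h1 : ‖zp z k‖ ≤ 1 := by
    rw [zp, norm_prod]
    apply Finset.prod_le_one
    · intro i _; exact norm_nonneg _
    · intro i _
      rw [norm_pow]
      exact pow_le_one₀ (norm_nonneg _) (hz i)
  exact mul_le_of_le_one_right (norm_nonneg _) h1

lemma up_lip (Q : MvPolynomial (Fin d) ℂ) (j : Fin d) :
    ∃ L : ℝ, 1 ≤ L ∧ ∀ z : Fin d → ℂ, (∀ i, ‖z i‖ = 1) → ∀ w w' : ℂ, ‖w‖ = 1 → ‖w'‖ = 1 →
      ‖eval (Function.update z j w) Q - eval (Function.update z j w') Q‖ ≤ L * ‖w - w'‖ := by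
  classical
  obtain ⟨B, hB⟩ : ∃ B : ℝ, ∀ z : Fin d → ℂ, (∀ i, ‖z i‖ ≤ 1) → ‖eval z (pderiv j Q)‖ ≤ B :=
    ⟨_, norm_eval_le (pderiv j Q)⟩
  refine ⟨max B 1, le_max_right _ _, ?_⟩
  intro z hz w w' hw hw'
  have hder : ∀ x ∈ Metric.closedBall (0 : ℂ) 1, HasDerivWithinAt
      (fun u => eval (Function.update z j u) Q)
      (eval (Function.update z j x) (pderiv j Q)) (Metric.closedBall (0 : ℂ) 1) x :=
    fun x _ => (hasDerivAt_fib Q z j x).hasDerivWithinAt
  have hbd : ∀ x ∈ Metric.closedBall (0 : ℂ) 1,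
      ‖eval (Function.update z j x) (pderiv j Q)‖ ≤ max B 1 := by
    intro x hx
    have hx1 : ‖x‖ ≤ 1 := mem_closedBall_zero_iff.mp hx
    have hx2 : ∀ i, ‖Function.update z j x i‖ ≤ 1 := by
      intro i
      by_cases hij : i = j
      · rw [hij, Function.update_self]; exact hx1
      · rw [Function.update_of_ne hij]; exact (hz i).le
    exact (hB (Function.update z j x) hx2).trans (le_max_left _ _)
  have h1 : w ∈ Metric.closedBall (0 : ℂ) 1 := mem_closedBall_zero_iff.mpr hw.le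
  have h2 : w' ∈ Metric.closedBall (0 : ℂ) 1 := mem_closedBall_zero_iff.mpr hw'.le
  have h3 : Convex ℝ (Metric.closedBall (0 : ℂ) 1) := convex_closedBall _ _
  have h4 := Convex.norm_image_sub_le_of_norm_hasDerivWithin_le hder hbd h3 h2 h1
  exact h4

lemma root_near (Q : MvPolynomial (Fin d) ℂ) (p : Fin d → ℂ) (hp0 : eval p Q = 0) (j : Fin d)
    (hp : eval p (pderiv j Q) ≠ 0) (ρ : ℝ) (hρ : 0 < ρ) :
    ∃ δ > 0, ∀ z : Fin d → ℂ, (∀ i, ‖z i - p i‖ < δ) →
      ∃ u : ℂ, ‖u - p j‖ < ρ ∧ eval (Function.update z j u) Q = 0 ∧ fib Q z j ≠ 0 := by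
  classical
  obtain ⟨δ0, hδ0, c, hc, hlow⟩ := low_lip Q p {j} (Finset.singleton_nonempty j)
    (by intro i hi; rw [Finset.mem_singleton] at hi; subst hi; exact hp)
  set r : ℝ := min δ0 ρ / 2 with hr
  have hr0 : 0 < r := by rw [hr]; positivity
  have hrδ : r < δ0 := by
    have := min_le_left δ0 ρ
    have h2 : 0 < min δ0 ρ := lt_min hδ0 hρ
    rw [hr]; linarith
  have hrρ : r < ρ := by
    have := min_le_right δ0 ρ
    have h2 : 0 < min δ0 ρ := lt_min hδ0 hρ
    rw [hr]; linarith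
  set x : ℂ := p j + r with hx
  have hxp : ‖x - p j‖ = r := by
    rw [hx, add_sub_cancel_left, Complex.norm_real, Real.norm_of_nonneg hr0.le]
  have hQx : 0 < ‖eval (Function.update p j x) Q‖ := by
    have h1 := hlow j (Finset.mem_singleton_self j) p (by intro i; simpa using hδ0) x (p j)
      (by rw [hxp]; exact hrδ) (by simpa using hδ0)
    rw [Function.update_eq_self, hp0, sub_zero, hxp] at h1
    have : 0 < c * r := by positivity
    linarith
  set N := (phi j Q).natDegree with hN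
  have hcont : ∀ v : ℂ, Continuous fun z : Fin d → ℂ => ‖eval (Function.update z j v) Q‖ := by
    intro v
    apply Continuous.norm
    exact (MvPolynomial.continuous_eval Q).comp (continuous_id.update j continuous_const)
  have hev : ∀ᶠ z in nhds p, 2 ^ N * ‖eval (Function.update z j (p j)) Q‖ <
      ‖eval (Function.update z j x) Q‖ := by
    have h1 : Filter.Tendsto (fun z : Fin d → ℂ => 2 ^ N * ‖eval (Function.update z j (p j)) Q‖)
        (nhds p) (nhds (2 ^ N * ‖eval (Function.update p j (p j)) Q‖)) :=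
      ((hcont (p j)).tendsto p).const_mul _
    have h2 := (hcont x).tendsto p
    apply h1.eventually_lt h2
    rw [Function.update_eq_self, hp0, norm_zero, mul_zero]
    exact hQx
  obtain ⟨δ, hδ, hball⟩ := Metric.eventually_nhds_iff.mp hev
  refine ⟨δ, hδ, fun z hz => ?_⟩
  have hzp : dist z p < δ := by
    rw [dist_pi_lt_iff hδ]
    intro i; rw [dist_eq_norm]; exact hz i
  have hlt := hball hzp
  have hne : fib Q z j ≠ 0 := by
    intro h0
    have h1 : eval (Function.update z j x) Q = 0 := by rw [← eval_fib, h0, Polynomial.eval_zero]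
    rw [h1, norm_zero] at hlt
    have : 0 ≤ 2 ^ N * ‖eval (Function.update z j (p j)) Q‖ := by positivity
    linarith
  by_contra hcon
  push Not at hcon
  have hroots : ∀ u, (fib Q z j).eval u = 0 → ‖x - u‖ ≤ 2 * ‖p j - u‖ := by
    intro u hu
    rw [eval_fib] at hu
    have h1 : ρ ≤ ‖u - p j‖ := by
      by_contra h
      push Not at h
      exact hne (hcon u h hu)
    have h2 : ‖x - u‖ ≤ ‖x - p j‖ + ‖p j - u‖ := norm_sub_le_norm_sub_add_norm_sub _ _ _
    rw [norm_sub_rev u] at h1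
    linarith
  have h1 := norm_eval_le_of_roots (fib Q z j) (p j) x 2 (by norm_num) hroots
  rw [eval_fib, eval_fib] at h1
  have h2 : (2 : ℝ) ^ (fib Q z j).natDegree ≤ 2 ^ N :=
    pow_le_pow_right₀ (by norm_num) (natDegree_fib_le _ _ _)
  have h3 : (2 : ℝ) ^ (fib Q z j).natDegree * ‖eval (Function.update z j (p j)) Q‖ ≤
      2 ^ N * ‖eval (Function.update z j (p j)) Q‖ :=
    mul_le_mul_of_nonneg_right h2 (norm_nonneg _)
  linarith

lemma exists_zeta (e : ℝ) (he : 1 < e) : ∃ Z : ℝ, 0 ≤ Z ∧ ∀ M : ℕ,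
    ∑ n ∈ Finset.range M, (((n : ℝ) + 1) ^ e)⁻¹ ≤ Z := by
  have h1 : Summable fun n : ℕ => ((n : ℝ) ^ e)⁻¹ := Real.summable_nat_rpow_inv.mpr he
  have h2 : Summable fun n : ℕ => (((n : ℝ) + 1) ^ e)⁻¹ := by
    have := (summable_nat_add_iff 1).mpr h1
    simpa using this
  refine ⟨∑' n : ℕ, (((n : ℝ) + 1) ^ e)⁻¹, tsum_nonneg fun n => by positivity, fun M => ?_⟩
  exact h2.sum_le_tsum _ fun n _ => by positivity

end Pool.MP4ac1fb
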