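import Pool.Agent.H.MP_4ac1fb_an.Fibre

/-!
Existence of a regular point, in every variable, on the real zero set of a toral polynomial.
-/

namespace Pool.MP4ac1fb

open MvPolynomial

variable {d : ℕ}

lemma natDegree_phi (j : Fin d) (Q : MvPolynomial (Fin d) ℂ) :
    (phi j Q).natDegree = degreeOf j Q := by
  rw [degreeOf_eq_natDegree]
  rfl

lemma degreeOf_pos {j : Fin d} {Q : MvPolynomial (Fin d) ℂ} (hj : j ∈ Q.vars) :
    degreeOf j Q ≠ 0 := by
  rw [mem_vars_iff_mem_support] at hj
  obtain ⟨k, hk, hkj⟩ := hj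
  have h1 := monomial_le_degreeOf j hk
  rw [Finsupp.mem_support_iff] at hkj
  omega

lemma phi_rename (j : Fin d) (R : MvPolynomial {b : Fin d // b ≠ j} ℂ) :
    phi j (rename Subtype.val R) = Polynomial.C R := by
  have h : ((phi j : MvPolynomial (Fin d) ℂ ≃ₐ[ℂ] _) :
      MvPolynomial (Fin d) ℂ →+* Polynomial (MvPolynomial {b : Fin d // b ≠ j} ℂ)).comp
        (rename (Subtype.val : {b : Fin d // b ≠ j} → Fin d)).toRingHom = Polynomial.C := by
    apply MvPolynomial.ringHom_ext
    · intro r
      simp [phi]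
    · intro i
      simp [phi, Equiv.optionSubtypeNe_symm_of_ne i.2]
  exact congrArg (fun f => f R) (congrArg DFunLike.coe h)

lemma resultant_ne_zero_of {R : Type*} [CommRing R] [IsDomain R] [UniqueFactorizationMonoid R]
    (K : Type*) [Field K] [Algebra R K] [IsFractionRing R K] (f g : Polynomial R)
    (hf : Irreducible f) (hdeg : f.natDegree ≠ 0) (hd : ¬ f ∣ g) :
    Polynomial.resultant f g ≠ 0 := by
  intro h0
  have hfprim : f.IsPrimitive := hf.isPrimitive hdeg
  have hinj : Function.Injective (algebraMap R K) := IsFractionRing.injective _ _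
  have h1 : Polynomial.resultant (f.map (algebraMap R K)) (g.map (algebraMap R K)) = 0 := by
    rw [Polynomial.natDegree_map_eq_of_injective hinj,
      Polynomial.natDegree_map_eq_of_injective hinj, Polynomial.resultant_map_map, h0,
      map_zero]
  rw [Polynomial.resultant_eq_zero_iff] at h1
  apply h1.2
  have h2 : Irreducible (f.map (algebraMap R K)) :=
    (hfprim.irreducible_iff_irreducible_map_fraction_map (K := K)).mp hf
  rw [h2.coprime_iff_not_dvd]
  exact fun h => hd ((hfprim.dvd_iff_fraction_map_dvd_fraction_map K).mpr h)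

lemma exists_elim (Q D : MvPolynomial (Fin d) ℂ) (hQ : Irreducible Q) (j : Fin d)
    (hj : j ∈ Q.vars) (hD : ¬ Q ∣ D) :
    ∃ A B : MvPolynomial (Fin d) ℂ, ∃ R : MvPolynomial {b : Fin d // b ≠ j} ℂ, R ≠ 0 ∧
      A * Q + B * D = rename Subtype.val R := by
  classical
  set f := phi j Q with hf
  set g := phi j D with hg
  have hfirr : Irreducible f := (MulEquiv.irreducible_iff (phi j)).mpr hQ
  have hfdeg : f.natDegree ≠ 0 := by rw [hf, natDegree_phi]; exact degreeOf_pos hj
  have hfprim : f.IsPrimitive := hfirr.isPrimitive hfdeg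
  have hndvd : ¬ f ∣ g := by
    intro h
    apply hD
    have := map_dvd (phi j).symm h
    rwa [hf, hg, AlgEquiv.symm_apply_apply, AlgEquiv.symm_apply_apply] at this
  obtain ⟨p, q, -, -, hpq⟩ := Polynomial.exists_mul_add_mul_eq_C_resultant f g le_rfl le_rfl
    (Or.inl hfdeg)
  set R := Polynomial.resultant f g with hR
  have hR0 : R ≠ 0 := resultant_ne_zero_of
    (FractionRing (MvPolynomial {b : Fin d // b ≠ j} ℂ)) f g hfirr hfdeg hndvd
  refine ⟨(phi j).symm p, (phi j).symm q, R, hR0, ?_⟩
  apply (phi j).injective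
  rw [map_add, map_mul, map_mul, AlgEquiv.apply_symm_apply, AlgEquiv.apply_symm_apply,
    phi_rename, ← hf, ← hg, ← hpq]
  ring

lemma pderiv_ne_zero_of_mem_vars {Q : MvPolynomial (Fin d) ℂ} {i : Fin d} (hi : i ∈ Q.vars) :
    pderiv i Q ≠ 0 := by
  classical
  rw [mem_vars_iff_mem_support] at hi
  obtain ⟨k, hk, hki⟩ := hi
  rw [Finsupp.mem_support_iff] at hki
  rw [mem_support_iff] at hk
  intro h0
  have h1 := coeff_pderiv (i := i) Q (k - Finsupp.single i 1)
  have h2 : k - Finsupp.single i 1 + Finsupp.single i 1 = k := by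
    apply tsub_add_cancel_of_le
    rw [Finsupp.single_le_iff]
    omega
  rw [h0, h2, coeff_zero] at h1
  rcases mul_eq_zero.mp h1.symm with h | h
  · exact hk h
  · have h3 : ∀ n : ℕ, (n : ℂ) + 1 ≠ 0 := fun n => by exact_mod_cast Nat.succ_ne_zero n
    exact h3 _ h

lemma totalDegree_pderiv_lt {Q : MvPolynomial (Fin d) ℂ} {i : Fin d} (hi : i ∈ Q.vars) :
    (pderiv i Q).totalDegree < Q.totalDegree := by
  classical
  have hpos : 0 < Q.totalDegree := by
    have := degreeOf_le_totalDegree Q i
    have := degreeOf_pos hi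
    omega
  rw [totalDegree, Finset.sup_lt_iff (by simpa using hpos)]
  intro k hk
  rw [mem_support_iff, coeff_pderiv] at hk
  have h1 : k + Finsupp.single i 1 ∈ Q.support := by
    rw [mem_support_iff]
    intro h; exact hk (by rw [h, zero_mul])
  have h2 := le_totalDegree h1
  have h3 : ((k + Finsupp.single i 1).sum fun _ e => e) = (k.sum fun _ e => e) + 1 := by
    rw [Finsupp.sum_add_index' (fun _ => rfl) (fun _ _ _ => rfl), Finsupp.sum_single_index rfl]
  omega

lemma not_dvd_prod_pderiv {Q : MvPolynomial (Fin d) ℂ} (hQ : Irreducible Q)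
    (J : Finset (Fin d)) (hJ : J ⊆ Q.vars) : ¬ Q ∣ ∏ i ∈ J, pderiv i Q := by
  intro h
  have hp : Prime Q := hQ.prime
  rw [hp.dvd_finsetProd_iff] at h
  obtain ⟨i, hi, hd⟩ := h
  have h1 := totalDegree_le_of_dvd_of_isDomain hd (pderiv_ne_zero_of_mem_vars (hJ hi))
  have h2 := totalDegree_pderiv_lt (hJ hi)
  omega

lemma infinite_circle : (Metric.sphere (0 : ℂ) 1).Infinite := by
  have h : IsPreconnected (Metric.sphere (0 : ℂ) 1) := by
    apply isPreconnected_sphere
    rw [Complex.rank_real_complex]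
    exact Nat.one_lt_ofNat
  apply h.infinite_of_nontrivial
  refine ⟨1, by simp, -1, by simp, ?_⟩
  norm_num

theorem exists_regular (Q : MvPolynomial (Fin d) ℂ) (hQ : Irreducible Q) (h1 : NZIn Q)
    (h2 : NZOut Q) (j : Fin d) (hj : j ∈ Q.vars) :
    ∃ p : Fin d → ℂ, (∀ i, ‖p i‖ = 1) ∧ eval p Q = 0 ∧ ∀ i ∈ Q.vars, eval p (pderiv i Q) ≠ 0 := by
  classical
  by_contra hcon
  push Not at hcon
  set D := ∏ i ∈ Q.vars, pderiv i Q with hD
  have hDz : ∀ p : Fin d → ℂ, (∀ i, ‖p i‖ = 1) → eval p Q = 0 → eval p D = 0 := by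
    intro p hp hpQ
    obtain ⟨i, hi, hpi⟩ := hcon p hp hpQ
    rw [hD, map_prod]
    exact Finset.prod_eq_zero hi hpi
  obtain ⟨A, B, R, hR0, hAB⟩ := exists_elim Q D hQ j hj (not_dvd_prod_pderiv hQ _ subset_rfl)
  have hlc0 : (phi j Q).leadingCoeff ≠ 0 := by
    rw [Polynomial.leadingCoeff_ne_zero]
    intro h0
    have := (map_eq_zero_iff (phi j) (phi j).injective).mp h0
    exact hQ.ne_zero this
  have hzero : R * (phi j Q).leadingCoeff = 0 := by
    apply MvPolynomial.funext_set (fun _ => Metric.sphere (0 : ℂ) 1) (fun _ => infinite_circle)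
    intro x hx
    rw [map_zero, map_mul, mul_eq_zero]
    by_cases hlc : eval x (phi j Q).leadingCoeff = 0
    · exact Or.inr hlc
    left
    set z : Fin d → ℂ := fun i => if h : i ≠ j then x ⟨i, h⟩ else 1 with hz
    have hzx : (fun b : {b : Fin d // b ≠ j} => z b) = x := by
      funext b
      rw [hz]
      simp only [dif_pos b.2]
    have hz1 : ∀ i, ‖z i‖ = 1 := by
      intro i
      rw [hz]
      by_cases h : i ≠ j
      · simp only [dif_pos h]
        have := hx ⟨i, h⟩ (Set.mem_univ _)
        simpa using this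
      · simp only [dif_neg h, norm_one]
    have hcoef : (fib Q z j).coeff (phi j Q).natDegree ≠ 0 := by
      rw [fib, Polynomial.coeff_map, hzx]
      exact hlc
    have hne : fib Q z j ≠ 0 := by
      intro h; rw [h, Polynomial.coeff_zero] at hcoef; exact hcoef rfl
    have hdeg : (fib Q z j).degree ≠ 0 := by
      have h3 := Polynomial.le_natDegree_of_ne_zero hcoef
      have h4 : (phi j Q).natDegree ≠ 0 := by rw [natDegree_phi]; exact degreeOf_pos hj
      intro h5
      have h6 : (fib Q z j).natDegree = 0 := Polynomial.natDegree_eq_of_degree_eq_some h5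
      omega
    obtain ⟨w, hw⟩ := IsAlgClosed.exists_root (fib Q z j) hdeg
    rw [Polynomial.IsRoot, eval_fib] at hw
    have hw1 := norm_root_eq Q h1 h2 z hz1 j w hw hne
    have hu1 : ∀ i, ‖Function.update z j w i‖ = 1 := by
      intro i
      by_cases hij : i = j
      · subst hij; rw [Function.update_self]; exact hw1
      · rw [Function.update_of_ne hij]; exact hz1 i
    have h5 := hDz _ hu1 hw
    have h6 := congrArg (eval (Function.update z j w)) hAB
    rw [map_add, map_mul, map_mul, hw, h5, mul_zero, mul_zero, add_zero, eval_rename] at h6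
    have h7 : (Function.update z j w) ∘ (Subtype.val : {b : Fin d // b ≠ j} → Fin d) = x := by
      funext b
      simp only [Function.comp_apply]
      rw [Function.update_of_ne b.2]
      exact congrFun hzx b
    rw [h7] at h6
    exact h6.symm
  rcases mul_eq_zero.mp hzero with h | h
  · exact hR0 h
  · exact hlc0 h

end Pool.MP4ac1fb
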