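import Pool.Agent.H.MP_4ac1fb_an.Count

/-!
Sums of a polynomial over subsets of the grid with short fibres in several directions.
-/

namespace Pool.MP4ac1fb

open MvPolynomial

variable {d : ℕ}

lemma sum_fibre_eq {M : ℕ} (S : Finset (Fin d → Fin M)) (j : Fin d)
    (G : (Fin d → Fin M) → ℝ) (hG : ∀ a b, G (Function.update a j b) = G a) :
    (M : ℝ) * ∑ a ∈ S, G a =
      ∑ a, ((Finset.univ.filter fun b => Function.update a j b ∈ S).card : ℝ) * G a := by
  classical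
  set h : (Fin d → Fin M) × Fin M → ℝ := fun x => if x.1 ∈ S then G x.1 else 0 with hh
  have hinv : Function.Involutive (fun x : (Fin d → Fin M) × Fin M =>
      (Function.update x.1 j x.2, x.1 j)) := by
    intro x
    simp
  have h1 : ∑ x, h x = (M : ℝ) * ∑ a ∈ S, G a := by
    rw [Fintype.sum_prod_type]
    simp only [hh, Finset.sum_const, Finset.card_univ, Fintype.card_fin, nsmul_eq_mul]
    rw [← Finset.mul_sum, Finset.sum_ite_mem, Finset.univ_inter]
  have h2 : ∑ x, h x = ∑ x : (Fin d → Fin M) × Fin M, h (Function.update x.1 j x.2, x.1 j) :=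
    (Equiv.sum_comp (Function.Involutive.toPerm _ hinv) h).symm
  rw [← h1, h2, Fintype.sum_prod_type]
  apply Finset.sum_congr rfl
  intro a _
  simp only [hh, hG]
  rw [← Finset.sum_filter, Finset.sum_const, nsmul_eq_mul]

lemma sum_fibre_le {M : ℕ} (S : Finset (Fin d → Fin M)) (j : Fin d) (B : ℝ)
    (hB : ∀ a, ((Finset.univ.filter fun b => Function.update a j b ∈ S).card : ℝ) ≤ B)
    (G : (Fin d → Fin M) → ℝ) (hG0 : ∀ a, 0 ≤ G a) (hG : ∀ a b, G (Function.update a j b) = G a) :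
    (M : ℝ) * ∑ a ∈ S, G a ≤ B * ∑ a, G a := by
  rw [sum_fibre_eq S j G hG, Finset.mul_sum]
  exact Finset.sum_le_sum fun a _ => mul_le_mul_of_nonneg_right (hB a) (hG0 a)

lemma norm_eval_update {M : ℕ} (hM : M ≠ 0) (j : Fin d) (h : MvPolynomial (Fin d) ℂ) (n : ℕ)
    (hn : ∀ k ∈ h.support, k j = n) (a : Fin d → Fin M) (b : Fin M) :
    ‖eval (gp M (Function.update a j b)) h‖ = ‖eval (gp M a) h‖ := by
  classical
  have key : ∀ c : Fin M, eval (gp M (Function.update a j c)) h =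
      (rt M ^ (c : ℕ)) ^ n * ∑ k ∈ h.support, coeff k h *
        ∏ i ∈ Finset.univ.erase j, gp M a i ^ k i := by
    intro c
    rw [eval_eq_zp, Finset.mul_sum]
    apply Finset.sum_congr rfl
    intro k hk
    have h1 : ∏ i, gp M (Function.update a j c) i ^ k i =
        (rt M ^ (c : ℕ)) ^ n * ∏ i ∈ Finset.univ.erase j, gp M a i ^ k i := by
      rw [← Finset.mul_prod_erase Finset.univ _ (Finset.mem_univ j), hn k hk]
      congr 1
      · simp [gp]
      · apply Finset.prod_congr rfl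
        intro i hi
        simp only [gp]
        rw [Function.update_of_ne (Finset.ne_of_mem_erase hi)]
    simp only [zp]
    rw [h1]; ring
  have hun : ∀ c : Fin M, ‖(rt M ^ (c : ℕ)) ^ n‖ = 1 := by
    intro c
    rw [norm_pow, norm_pow, norm_rt hM, one_pow, one_pow]
  have h2 : eval (gp M a) h = eval (gp M (Function.update a j (a j))) h := by
    rw [Function.update_eq_self]
  rw [h2, key, key, norm_mul, norm_mul, hun, hun]

lemma thin_bound_one {M : ℕ} (hM : M ≠ 0) (S : Finset (Fin d → Fin M)) (j : Fin d) (B : ℝ)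
    (hB0 : 0 ≤ B)
    (hB : ∀ a, ((Finset.univ.filter fun b => Function.update a j b ∈ S).card : ℝ) ≤ B)
    (h : MvPolynomial (Fin d) ℂ) (n : ℕ)
    (hn : ∀ k ∈ h.support, k j = n) (hM' : ∀ k ∈ h.support, ∀ i, k i < M) :
    (M : ℝ) * ∑ a ∈ S, ‖eval (gp M a) h‖ ≤
      B * ((M : ℝ) ^ d * Real.sqrt (∑ k ∈ h.support, ‖coeff k h‖ ^ 2)) := by
  refine (sum_fibre_le S j B hB (fun a => ‖eval (gp M a) h‖) (fun _ => norm_nonneg _)
    (fun a b => norm_eval_update hM j h n hn a b)).trans ?_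
  apply mul_le_mul_of_nonneg_left _ hB0
  have h1 := sq_sum_le_card_mul_sum_sq (s := (Finset.univ : Finset (Fin d → Fin M)))
    (f := fun a => ‖eval (gp M a) h‖)
  rw [grid_parseval hM h hM', Finset.card_univ, Fintype.card_pi, Finset.prod_const,
    Finset.card_univ, Fintype.card_fin, Fintype.card_fin] at h1
  push_cast at h1
  have hc : 0 ≤ ∑ k ∈ h.support, ‖coeff k h‖ ^ 2 := Finset.sum_nonneg fun _ _ => sq_nonneg _
  refine (pow_le_pow_iff_left₀ (Finset.sum_nonneg fun _ _ => norm_nonneg _)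
    (by positivity) two_ne_zero).mp ?_
  rw [mul_pow, Real.sq_sqrt hc]
  refine h1.trans (le_of_eq ?_)
  ring

/-- restriction of a polynomial to a set of exponents -/
noncomputable def rs (f : MvPolynomial (Fin d) ℂ) (s : Finset (Fin d →₀ ℕ)) :
    MvPolynomial (Fin d) ℂ := ∑ k ∈ s, monomial k (coeff k f)

lemma coeff_rs (f : MvPolynomial (Fin d) ℂ) (s : Finset (Fin d →₀ ℕ)) (k : Fin d →₀ ℕ) :
    coeff k (rs f s) = if k ∈ s then coeff k f else 0 := by
  classical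
  rw [rs, coeff_sum]
  simp only [coeff_monomial]
  rw [Finset.sum_ite_eq' s k]

lemma support_rs (f : MvPolynomial (Fin d) ℂ) (s : Finset (Fin d →₀ ℕ)) (hs : s ⊆ f.support) :
    (rs f s).support = s := by
  ext k
  rw [mem_support_iff, coeff_rs]
  constructor
  · intro h
    by_contra hk
    exact h (if_neg hk)
  · intro hk
    rw [if_pos hk]
    exact mem_support_iff.mp (hs hk)

lemma pow_le_wt (J : Finset (Fin d)) (t : ℝ) (ht : 0 ≤ t) (k : Fin d →₀ ℕ) (n : ℕ)
    (hk : ∀ i ∈ J, n ≤ k i) : ((n : ℝ) + 1) ^ (t * (J.card : ℝ)) ≤ wt t k := by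
  have h1 : ((n : ℝ) + 1) ^ (t * (J.card : ℝ)) = ∏ _i ∈ J, ((n : ℝ) + 1) ^ t := by
    rw [Finset.prod_const, Real.rpow_mul (by positivity), Real.rpow_natCast]
  rw [h1, wt]
  calc ∏ _i ∈ J, ((n : ℝ) + 1) ^ t ≤ ∏ i ∈ J, ((k i : ℝ) + 1) ^ t := by
        apply Finset.prod_le_prod
        · intro i _; positivity
        · intro i hi
          apply Real.rpow_le_rpow (by positivity) _ ht
          have : (n : ℝ) ≤ k i := by exact_mod_cast hk i hi
          linarith
    _ ≤ ∏ i, ((k i : ℝ) + 1) ^ t := by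
        rw [← Finset.prod_sdiff (Finset.subset_univ J)]
        have h2 : 1 ≤ ∏ i ∈ Finset.univ \ J, ((k i : ℝ) + 1) ^ t := by
          have : ∏ i ∈ Finset.univ \ J, (1 : ℝ) ≤ ∏ i ∈ Finset.univ \ J, ((k i : ℝ) + 1) ^ t := by
            apply Finset.prod_le_prod
            · intro i _; norm_num
            · intro i _
              apply Real.one_le_rpow _ ht
              have : (0 : ℝ) ≤ k i := Nat.cast_nonneg _
              linarith
          rwa [Finset.prod_const_one] at this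
        have h3 : 0 ≤ ∏ i ∈ J, ((k i : ℝ) + 1) ^ t := Finset.prod_nonneg fun i _ => by positivity
        nlinarith

theorem thin_bound {M : ℕ} (hM : M ≠ 0) (J : Finset (Fin d)) (hJ : J.Nonempty)
    (S : Finset (Fin d → Fin M)) (B : ℝ) (hB0 : 0 ≤ B)
    (hB : ∀ j ∈ J, ∀ a,
      ((Finset.univ.filter fun b => Function.update a j b ∈ S).card : ℝ) ≤ B)
    (t : ℝ) (ht : 0 ≤ t) (Z : ℝ)
    (hZ : ∑ n ∈ Finset.range M, (((n : ℝ) + 1) ^ (t * (J.card : ℝ)))⁻¹ ≤ Z)
    (f : MvPolynomial (Fin d) ℂ) (hM' : ∀ k ∈ f.support, ∀ i, k i < M) :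
    (M : ℝ) * ‖∑ a ∈ S, eval (gp M a) f‖ ≤
      B * (M : ℝ) ^ d * (Real.sqrt (J.card * Z) * ‖W t f‖) := by
  classical
  have hch : ∀ k : Fin d →₀ ℕ, ∃ j ∈ J, ∀ i ∈ J, k j ≤ k i :=
    fun k => Finset.exists_min_image J k hJ
  choose jm hjm hmin using hch
  set key : (Fin d →₀ ℕ) → Fin d × ℕ := fun k => (jm k, k (jm k)) with hkey
  set P := J ×ˢ Finset.range M with hP
  set K : Fin d × ℕ → Finset (Fin d →₀ ℕ) := fun p => f.support.filter (fun k => key k = p)
    with hK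
  have hKsub : ∀ p, K p ⊆ f.support := fun p => Finset.filter_subset _ _
  have hmaps : ∀ k ∈ f.support, key k ∈ P := by
    intro k hk
    rw [hP, Finset.mem_product]
    exact ⟨hjm k, Finset.mem_range.mpr (hM' k hk _)⟩
  have hf : f = ∑ p ∈ P, rs f (K p) := by
    conv_lhs => rw [f.as_sum]
    rw [← Finset.sum_fiberwise_of_maps_to hmaps]
    rfl
  set s : Fin d × ℕ → ℝ := fun p => Real.sqrt (∑ k ∈ K p, ‖coeff k f‖ ^ 2) with hs
  have hone : ∀ p ∈ P, (M : ℝ) * ∑ a ∈ S, ‖eval (gp M a) (rs f (K p))‖ ≤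
      B * ((M : ℝ) ^ d * s p) := by
    intro p hp
    have hp1 : p.1 ∈ J := (Finset.mem_product.mp hp).1
    have hsup := support_rs f (K p) (hKsub p)
    have h1 := thin_bound_one hM S p.1 B hB0 (hB p.1 hp1) (rs f (K p)) p.2 (by
      intro k hk
      rw [hsup, hK, Finset.mem_filter] at hk
      have := hk.2
      rw [hkey] at this
      rw [← this]) (by
      intro k hk i
      rw [hsup] at hk
      exact hM' k (hKsub p hk) i)
    rw [hsup] at h1
    have h2 : ∑ k ∈ K p, ‖coeff k (rs f (K p))‖ ^ 2 = ∑ k ∈ K p, ‖coeff k f‖ ^ 2 := by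
      apply Finset.sum_congr rfl
      intro k hk
      rw [coeff_rs, if_pos hk]
    rw [h2] at h1
    exact h1
  have hT : (M : ℝ) * ‖∑ a ∈ S, eval (gp M a) f‖ ≤ B * (M : ℝ) ^ d * ∑ p ∈ P, s p := by
    have h1 : ∑ a ∈ S, eval (gp M a) f = ∑ p ∈ P, ∑ a ∈ S, eval (gp M a) (rs f (K p)) := by
      rw [Finset.sum_comm]
      apply Finset.sum_congr rfl
      intro a _
      conv_lhs => rw [hf]
      rw [map_sum]
    rw [h1]
    calc _ ≤ (M : ℝ) * ∑ p ∈ P, ∑ a ∈ S, ‖eval (gp M a) (rs f (K p))‖ := by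
          apply mul_le_mul_of_nonneg_left _ (Nat.cast_nonneg _)
          refine (norm_sum_le _ _).trans (Finset.sum_le_sum fun p _ => norm_sum_le _ _)
      _ = ∑ p ∈ P, (M : ℝ) * ∑ a ∈ S, ‖eval (gp M a) (rs f (K p))‖ := by rw [Finset.mul_sum]
      _ ≤ ∑ p ∈ P, B * ((M : ℝ) ^ d * s p) := Finset.sum_le_sum hone
      _ = _ := by rw [Finset.mul_sum]; apply Finset.sum_congr rfl; intro p _; ring
  refine hT.trans ?_
  apply mul_le_mul_of_nonneg_left _ (by positivity)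
  -- Cauchy-Schwarz
  set e : ℝ := t * (J.card : ℝ) with he
  have hw : ∀ n : ℕ, 0 < ((n : ℝ) + 1) ^ e := fun n => by positivity
  have hCS := Finset.sum_mul_sq_le_sq_mul_sq P
    (fun p => Real.sqrt ((((p.2 : ℝ) + 1) ^ e)⁻¹))
    (fun p => Real.sqrt (((p.2 : ℝ) + 1) ^ e) * s p)
  have h1 : ∀ p ∈ P, Real.sqrt ((((p.2 : ℝ) + 1) ^ e)⁻¹) * (Real.sqrt (((p.2 : ℝ) + 1) ^ e) * s p)
      = s p := by
    intro p _
    rw [← mul_assoc, ← Real.sqrt_mul (by have := hw p.2; positivity),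
      inv_mul_cancel₀ (hw p.2).ne', Real.sqrt_one, one_mul]
  have h2 : ∀ p ∈ P, Real.sqrt ((((p.2 : ℝ) + 1) ^ e)⁻¹) ^ 2 = (((p.2 : ℝ) + 1) ^ e)⁻¹ := by
    intro p _
    rw [Real.sq_sqrt (by have := hw p.2; positivity)]
  have h3 : ∀ p ∈ P, (Real.sqrt (((p.2 : ℝ) + 1) ^ e) * s p) ^ 2 =
      ∑ k ∈ K p, ((p.2 : ℝ) + 1) ^ e * ‖coeff k f‖ ^ 2 := by
    intro p _
    rw [mul_pow, Real.sq_sqrt (hw p.2).le, hs, Real.sq_sqrt
      (Finset.sum_nonneg fun _ _ => sq_nonneg _), Finset.mul_sum]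
  rw [Finset.sum_congr rfl h1, Finset.sum_congr rfl h2, Finset.sum_congr rfl h3] at hCS
  have h4 : ∑ p ∈ P, (((p.2 : ℝ) + 1) ^ e)⁻¹ ≤ J.card * Z := by
    rw [hP, Finset.sum_product]
    refine (Finset.sum_le_sum fun _ _ => hZ).trans ?_
    rw [Finset.sum_const, nsmul_eq_mul]
  have h5 : ∑ p ∈ P, ∑ k ∈ K p, ((p.2 : ℝ) + 1) ^ e * ‖coeff k f‖ ^ 2 ≤ ‖W t f‖ ^ 2 := by
    rw [norm_W_sq, ← Finset.sum_fiberwise_of_maps_to hmaps]
    apply Finset.sum_le_sum
    intro p _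
    apply Finset.sum_le_sum
    intro k hk
    apply mul_le_mul_of_nonneg_right _ (sq_nonneg _)
    apply pow_le_wt J t ht k p.2
    intro i hi
    have hk2 : key k = p := (Finset.mem_filter.mp hk).2
    rw [← hk2]
    exact hmin k i hi
  have hZ0 : 0 ≤ (J.card : ℝ) * Z :=
    (Finset.sum_nonneg fun p _ => by have := hw p.2; positivity).trans h4
  have hs0 : 0 ≤ ∑ p ∈ P, s p := Finset.sum_nonneg fun p _ => Real.sqrt_nonneg _
  refine (pow_le_pow_iff_left₀ hs0 (mul_nonneg (Real.sqrt_nonneg _) (norm_nonneg _))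
    two_ne_zero).mp ?_
  rw [mul_pow, Real.sq_sqrt hZ0]
  refine hCS.trans ?_
  exact mul_le_mul h4 h5 (Finset.sum_nonneg fun p _ => Finset.sum_nonneg fun k _ => by
    have := hw p.2; positivity) hZ0

end Pool.MP4ac1fb
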