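import Pool.Agent.H.MP_4ac1fb_an.LatticeSum

/-!
Convergence of the lattice sum in terms of ranks.
-/

namespace Pool.MP4ac1fb

open MvPolynomial

variable {d : ℕ}

lemma toZ_zero : toZ (0 : Fin d →₀ ℕ) = 0 := by funext j; simp [toZ]

lemma toZ_nsmul (n : ℕ) (k : Fin d →₀ ℕ) : toZ (n • k) = n • toZ k := by
  funext j; simp [toZ]

lemma toZ_sum {ι : Type*} (s : Finset ι) (f : ι → (Fin d →₀ ℕ)) :
    toZ (∑ i ∈ s, f i) = ∑ i ∈ s, toZ (f i) := by
  classical
  induction s using Finset.induction_on with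
  | empty => simp [toZ_zero]
  | insert a s ha ih => rw [Finset.sum_insert ha, Finset.sum_insert ha, toZ_add, ih]

/-- the nonnegative part of `Λ` as a monoid -/
def posMonoid (Λ : Submodule ℤ (Fin d → ℤ)) : AddSubmonoid (Fin d →₀ ℕ) where
  carrier := {k | toZ k ∈ Λ}
  zero_mem' := by change toZ 0 ∈ Λ; rw [toZ_zero]; exact Λ.zero_mem
  add_mem' := fun {a b} ha hb => by
    change toZ (a + b) ∈ Λ; rw [toZ_add]; exact Λ.add_mem ha hb

lemma mem_posMonoid {Λ : Submodule ℤ (Fin d → ℤ)} {k : Fin d →₀ ℕ} :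
    k ∈ posMonoid Λ ↔ toZ k ∈ Λ := Iff.rfl

lemma posMonoid_fg (Λ : Submodule ℤ (Fin d → ℤ)) : (posMonoid Λ).FG := by
  apply AddSubmonoid.fg_of_subtractive
  intro x hx y hxy
  rw [mem_posMonoid] at *
  rw [toZ_add] at hxy
  exact (Submodule.add_mem_iff_right _ hx).mp hxy

/-! ### Divergence -/

lemma wt_mono_exp {s t : ℝ} (h : s ≤ t) (k : Fin d →₀ ℕ) : wt s k ≤ wt t k := by
  unfold wt
  apply Finset.prod_le_prod
  · intro j _; positivity
  · intro j _
    apply Real.rpow_le_rpow_of_exponent_le _ h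
    have : (0 : ℝ) ≤ k j := by positivity
    linarith

lemma latSummable_mono {s t : ℝ} (h : s ≤ t) {Λ : Submodule ℤ (Fin d → ℤ)}
    (hs : LatSummable s Λ) : LatSummable t Λ := by
  refine Summable.of_nonneg_of_le (fun k => inv_nonneg.mpr (wt_pos t k.1).le) (fun k => ?_) hs
  exact inv_anti₀ (wt_pos s k.1) (wt_mono_exp h k.1)

lemma wt_mono {t : ℝ} (ht : 0 ≤ t) {k l : Fin d →₀ ℕ} (h : k ≤ l) : wt t k ≤ wt t l := by
  unfold wt
  apply Finset.prod_le_prod
  · intro j _; positivity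
  · intro j _
    apply Real.rpow_le_rpow (by positivity) _ ht
    have : (k j : ℝ) ≤ l j := by exact_mod_cast h j
    linarith

lemma not_latSummable_of_rank (Λ : Submodule ℤ (Fin d → ℤ)) (J : Finset (Fin d))
    (hJ : PosSupp Λ J) (t : ℝ) (ht : t * J.card ≤ rk Λ J) : ¬ LatSummable t Λ := by
  classical
  obtain ⟨hne, u, hu, hsu⟩ := hJ
  set r := rk Λ J with hr
  have hJpos : (0 : ℝ) < J.card := by exact_mod_cast hne.card_pos
  intro hsum0
  set t0 : ℝ := (r : ℝ) / J.card with ht0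
  have hsum : LatSummable t0 Λ := latSummable_mono (by rw [ht0, le_div_iff₀ hJpos]; exact ht) hsum0
  have ht0n : 0 ≤ t0 := by positivity
  -- a basis of the part supported in `J`
  set M : Submodule ℤ (Fin d → ℤ) := Λ ⊓ coordSub J with hM
  let b : Module.Basis (Fin r) ℤ M := Module.finBasis ℤ M
  obtain ⟨B, hB⟩ : ∃ B : ℕ, ∀ i j, |((b i : M) : Fin d → ℤ) j| ≤ B := by
    refine ⟨∑ i, ∑ j, (|((b i : M) : Fin d → ℤ) j|).toNat, fun i j => ?_⟩
    have h1 : (|((b i : M) : Fin d → ℤ) j|).toNat ≤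
        ∑ j, (|((b i : M) : Fin d → ℤ) j|).toNat :=
      Finset.single_le_sum (f := fun j => (|((b i : M) : Fin d → ℤ) j|).toNat)
        (fun _ _ => Nat.zero_le _) (Finset.mem_univ j)
    have h2 : ∑ j, (|((b i : M) : Fin d → ℤ) j|).toNat ≤
        ∑ i, ∑ j, (|((b i : M) : Fin d → ℤ) j|).toNat :=
      Finset.single_le_sum (f := fun i => ∑ j, (|((b i : M) : Fin d → ℤ) j|).toNat)
        (fun _ _ => Nat.zero_le _) (Finset.mem_univ i)
    have h3 : (|((b i : M) : Fin d → ℤ) j|).toNat ≤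
        ∑ i, ∑ j, (|((b i : M) : Fin d → ℤ) j|).toNat := h1.trans h2
    have h4 : |((b i : M) : Fin d → ℤ) j| = ((|((b i : M) : Fin d → ℤ) j|).toNat : ℤ) :=
      (Int.toNat_of_nonneg (abs_nonneg _)).symm
    rw [h4]
    exact_mod_cast h3
  obtain ⟨U, hU⟩ : ∃ U : ℕ, ∀ j, u j ≤ U :=
    ⟨∑ j, u j, fun j => Finset.single_le_sum (f := fun j => u j)
      (fun _ _ => Nat.zero_le _) (Finset.mem_univ j)⟩
  set C1 : ℕ := r * B + 1 with hC1
  -- the vectors
  let vec : ℕ → (Fin r → ℕ) → (Fin d → ℤ) := fun n x =>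
    ((C1 * n : ℕ) : ℤ) • toZ u + ((∑ i, (x i : ℤ) • b i : M) : Fin d → ℤ)
  have hvecmem : ∀ n x, vec n x ∈ Λ := fun n x =>
    Λ.add_mem (Λ.smul_mem _ hu) (Submodule.mem_inf.mp (∑ i, (x i : ℤ) • b i : M).2).1
  have hsumcoord : ∀ (x : Fin r → ℕ) (j : Fin d), ((∑ i, (x i : ℤ) • b i : M) : Fin d → ℤ) j =
      ∑ i, (x i : ℤ) * ((b i : M) : Fin d → ℤ) j := by
    intro x j
    rw [Submodule.coe_sum, Finset.sum_apply]
    apply Finset.sum_congr rfl
    intro i _
    rw [Submodule.coe_smul, Pi.smul_apply, smul_eq_mul]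
  have hsumabs : ∀ (n : ℕ) (x : Fin r → ℕ), (∀ i, x i ≤ n) → ∀ j,
      |((∑ i, (x i : ℤ) • b i : M) : Fin d → ℤ) j| ≤ (r * B * n : ℕ) := by
    intro n x hx j
    rw [hsumcoord]
    refine (Finset.abs_sum_le_sum_abs _ _).trans ?_
    calc ∑ i, |(x i : ℤ) * ((b i : M) : Fin d → ℤ) j| ≤ ∑ _i : Fin r, ((n : ℤ) * B) := by
          apply Finset.sum_le_sum
          intro i _
          rw [abs_mul]
          apply mul_le_mul _ (hB i j) (abs_nonneg _) (by positivity)
          rw [abs_of_nonneg (by positivity)]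
          exact_mod_cast hx i
      _ = (r * B * n : ℕ) := by
          rw [Finset.sum_const, Finset.card_univ, Fintype.card_fin, nsmul_eq_mul]
          push_cast; ring
  have hlow : ∀ (n : ℕ) (x : Fin r → ℕ), (∀ i, x i ≤ n) → ∀ j ∈ J, (n : ℤ) ≤ vec n x j := by
    intro n x hx j hj
    have h1 := hsumabs n x hx j
    rw [abs_le] at h1
    have h2 : 1 ≤ u j := by
      rw [← hsu] at hj
      exact Nat.one_le_iff_ne_zero.mpr (Finsupp.mem_support_iff.mp hj)
    have h3 : (C1 * n : ℤ) * 1 ≤ (C1 * n : ℤ) * (u j : ℤ) :=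
      mul_le_mul_of_nonneg_left (by exact_mod_cast h2) (by positivity)
    change (n : ℤ) ≤ ((C1 * n : ℕ) : ℤ) * (u j : ℤ) +
      ((∑ i, (x i : ℤ) • b i : M) : Fin d → ℤ) j
    push_cast at h1 ⊢
    have h4 : (C1 : ℤ) * n = r * B * n + n := by rw [hC1]; push_cast; ring
    linarith [h1.1]
  have hzero : ∀ (n : ℕ) (x : Fin r → ℕ), ∀ j ∉ J, vec n x j = 0 := by
    intro n x j hj
    have h1 : u j = 0 := by
      rw [← hsu] at hj
      exact Finsupp.notMem_support_iff.mp hj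
    have h2 : ((∑ i, (x i : ℤ) • b i : M) : Fin d → ℤ) j = 0 :=
      (Submodule.mem_inf.mp (∑ i, (x i : ℤ) • b i : M).2).2 j hj
    change ((C1 * n : ℕ) : ℤ) * (u j : ℤ) + ((∑ i, (x i : ℤ) • b i : M) : Fin d → ℤ) j = 0
    rw [h1, h2]; simp
  set C2 : ℕ := C1 * U + r * B + 1 with hC2
  have hup : ∀ (n : ℕ) (x : Fin r → ℕ), (∀ i, x i ≤ n) → ∀ j, vec n x j ≤ (C2 * n : ℕ) := by
    intro n x hx j
    have h1 := hsumabs n x hx j
    rw [abs_le] at h1
    have h3 : (C1 * n : ℤ) * (u j : ℤ) ≤ (C1 * n : ℤ) * (U : ℤ) :=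
      mul_le_mul_of_nonneg_left (by exact_mod_cast hU j) (by positivity)
    change ((C1 * n : ℕ) : ℤ) * (u j : ℤ) +
      ((∑ i, (x i : ℤ) • b i : M) : Fin d → ℤ) j ≤ _
    push_cast at h1 ⊢
    have h4 : (C2 : ℤ) * n = C1 * n * U + r * B * n + n := by rw [hC2]; push_cast; ring
    have h5 : (0 : ℤ) ≤ n := by positivity
    linarith [h1.2]
  have hnonneg : ∀ (n : ℕ) (x : Fin r → ℕ), (∀ i, x i ≤ n) → ∀ j, 0 ≤ vec n x j := by
    intro n x hx j
    by_cases hj : j ∈ J
    · exact le_trans (by positivity) (hlow n x hx j hj)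
    · rw [hzero n x j hj]
  -- as natural exponents
  let pt : ℕ → (Fin r → ℕ) → (Fin d →₀ ℕ) := fun n x =>
    Finsupp.equivFunOnFinite.symm (fun j => (vec n x j).toNat)
  have hpt : ∀ (n : ℕ) (x : Fin r → ℕ), (∀ i, x i ≤ n) → toZ (pt n x) = vec n x := by
    intro n x hx
    funext j
    change (((vec n x j).toNat : ℕ) : ℤ) = vec n x j
    exact Int.toNat_of_nonneg (hnonneg n x hx j)
  have hinj : ∀ n : ℕ, ∀ x y : Fin r → ℕ, (∀ i, x i ≤ n) → (∀ i, y i ≤ n) → pt n x = pt n y →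
      x = y := by
    intro n x y hx hy hxy
    have h1 : vec n x = vec n y := by rw [← hpt n x hx, ← hpt n y hy, hxy]
    have h2 : (∑ i, (x i : ℤ) • b i : M) = ∑ i, (y i : ℤ) • b i := by
      apply Subtype.ext
      exact add_left_cancel h1
    have h3 := congrArg (fun m => b.repr m) h2
    simp only [map_sum, map_smul, Module.Basis.repr_self] at h3
    funext i
    have h4 := DFunLike.congr_fun h3 i
    simp only [Finsupp.coe_finsetSum, Finset.sum_apply, Finsupp.smul_apply, smul_eq_mul] at h4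
    simp only [Finsupp.single_apply, mul_ite, mul_one, mul_zero, Finset.sum_ite_eq',
      Finset.mem_univ, if_true] at h4
    exact_mod_cast h4
  have hwt : ∀ (n : ℕ) (x : Fin r → ℕ), (∀ i, x i ≤ n) → 1 ≤ n →
      wt t0 (pt n x) ≤ ((C2 + 1 : ℝ) * n) ^ r := by
    intro n x hx hn
    have hnr : (1 : ℝ) ≤ n := by exact_mod_cast hn
    have h1 : wt t0 (pt n x) = ∏ j ∈ J, (((pt n x) j : ℝ) + 1) ^ t0 := by
      unfold wt
      symm
      apply Finset.prod_subset (Finset.subset_univ J)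
      intro j _ hj
      have : (pt n x) j = 0 := by
        change (vec n x j).toNat = 0
        rw [hzero n x j hj]; rfl
      rw [this]; simp
    rw [h1]
    calc ∏ j ∈ J, (((pt n x) j : ℝ) + 1) ^ t0 ≤ ∏ _j ∈ J, ((C2 + 1 : ℝ) * n) ^ t0 := by
          apply Finset.prod_le_prod
          · intro j _; positivity
          · intro j _
            apply Real.rpow_le_rpow (by positivity) _ ht0n
            have h2 := hup n x hx j
            have h3 : ((pt n x) j : ℤ) = vec n x j := congrFun (hpt n x hx) j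
            rw [← h3] at h2
            have h4 : ((pt n x) j : ℝ) ≤ C2 * n := by exact_mod_cast h2
            nlinarith
      _ = ((C2 + 1 : ℝ) * n) ^ r := by
          rw [Finset.prod_const, ← Real.rpow_natCast, ← Real.rpow_mul (by positivity), ht0,
            div_mul_cancel₀ _ hJpos.ne', Real.rpow_natCast]
  -- contradiction with vanishing
  set c : ℝ := (1 / (C2 + 1 : ℝ)) ^ r with hc
  have hcpos : 0 < c := by positivity
  obtain ⟨s, hs⟩ := summable_iff_vanishing_norm.mp hsum c hcpos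
  obtain ⟨j0, hj0⟩ := hne
  set n : ℕ := (∑ k ∈ s, k.1 j0) + 1 with hn
  have hn1 : 1 ≤ n := by omega
  have hnr : (1 : ℝ) ≤ n := by exact_mod_cast hn1
  set X : Finset (Fin r → ℕ) := Fintype.piFinset fun _ => Finset.range (n + 1) with hX
  have hXle : ∀ x ∈ X, ∀ i, x i ≤ n := by
    intro x hx i
    have := Fintype.mem_piFinset.mp hx i
    have := Finset.mem_range.mp this
    omega
  have hptmem : ∀ x ∈ X, toZ (pt n x) ∈ Λ := by
    intro x hx
    rw [hpt n x (hXle x hx)]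
    exact hvecmem n x
  set Y : Finset {k : Fin d →₀ ℕ // toZ k ∈ Λ} :=
    (X.image (pt n)).subtype (fun k => toZ k ∈ Λ) with hY
  have hdisj : Disjoint Y s := by
    rw [Finset.disjoint_left]
    intro k hk hks
    rw [hY, Finset.mem_subtype, Finset.mem_image] at hk
    obtain ⟨x, hx, hxk⟩ := hk
    have h1 := hlow n x (hXle x hx) j0 hj0
    rw [← hpt n x (hXle x hx), hxk] at h1
    have h1' : (n : ℤ) ≤ ((k.1 j0 : ℕ) : ℤ) := h1
    have h2 : n ≤ k.1 j0 := by exact_mod_cast h1'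
    have h3 : k.1 j0 ≤ ∑ k ∈ s, k.1 j0 :=
      Finset.single_le_sum (f := fun k : {k : Fin d →₀ ℕ // toZ k ∈ Λ} => k.1 j0)
        (fun _ _ => Nat.zero_le _) hks
    omega
  have h1 := hs Y hdisj
  have h2 : ∑ k ∈ Y, (wt t0 k.1)⁻¹ = ∑ x ∈ X, (wt t0 (pt n x))⁻¹ := by
    rw [hY, Finset.sum_subtype_eq_sum_filter (s := X.image (pt n))
      (p := fun k => toZ k ∈ Λ) (f := fun k => (wt t0 k)⁻¹), Finset.filter_true_of_mem,
      Finset.sum_image]
    · intro x hx y hy hxy
      exact hinj n x y (hXle x hx) (hXle y hy) hxy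
    · intro k hk
      obtain ⟨x, hx, rfl⟩ := Finset.mem_image.mp hk
      exact hptmem x hx
  rw [h2, Real.norm_of_nonneg (Finset.sum_nonneg fun x _ => inv_nonneg.mpr (wt_pos t0 _).le)] at h1
  have h3 : c ≤ ∑ x ∈ X, (wt t0 (pt n x))⁻¹ := by
    calc c ≤ ((n : ℝ) + 1) ^ r * (((C2 + 1 : ℝ) * n) ^ r)⁻¹ := by
          rw [hc, ← div_eq_mul_inv, ← div_pow]
          apply pow_le_pow_left₀ (by positivity)
          rw [div_le_div_iff₀ (by positivity) (by positivity)]
          nlinarith [show (0 : ℝ) ≤ C2 by positivity]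
      _ = ∑ _x ∈ X, (((C2 + 1 : ℝ) * n) ^ r)⁻¹ := by
          rw [Finset.sum_const, hX, Fintype.card_piFinset]
          simp
      _ ≤ _ := by
          apply Finset.sum_le_sum
          intro x hx
          exact inv_anti₀ (wt_pos _ _) (hwt n x (hXle x hx) hn1)
  linarith

end Pool.MP4ac1fb
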